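import Pool.Agent.Helper57.Zeta.CircleAvg

open Complex Filter Topology MeasureTheory Set Metric
open scoped ENNReal
open Pool.Agent.Helper57.Zeta

namespace Pool.Agent.Helper71.MR

/-- log|Q(c)| is at most the mean of log⁺|Q| over a disc -/
lemma log_le_ball {Q : ℂ → ℂ} (hQ : Differentiable ℂ Q) {c : ℂ} (hc : Q c ≠ 0) {R : ℝ} (hR : 0 < R) :
    ENNReal.ofReal (Real.pi * R ^ 2 * Real.log ‖Q c‖) ≤
      ∫⁻ z in ball c R, ENNReal.ofReal (Real.posLog ‖Q z‖) := by
  have hmeas : Measurable (fun z => ENNReal.ofReal (Real.posLog ‖Q z‖)) :=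
    ENNReal.measurable_ofReal.comp (Real.continuous_posLog.measurable.comp hQ.continuous.norm.measurable)
  rw [lintegral_ball_polar _ hmeas]
  have h1 : ∀ r ∈ Ioo (0:ℝ) R, ENNReal.ofReal (2 * Real.pi * Real.log ‖Q c‖) ≤
      ∫⁻ θ in Ioo (-Real.pi) Real.pi, ENNReal.ofReal (Real.posLog ‖Q (circleMap c r θ)‖) := by
    intro r hr
    have h2 := circleIntegrable_posLog hQ c r
    rw [← ofReal_integral_eq_lintegral_ofReal (integrableOn_Ioo_of_circleIntegrable h2)
      (by filter_upwards with θ; exact Real.posLog_nonneg)]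
    apply ENNReal.ofReal_le_ofReal
    have h3 := circleAverage_eq_Ioo (fun z => Real.posLog ‖Q z‖) c r
    have h4 := jensen_lower hQ hc hr.1
    have h5 : Real.circleAverage (fun z => Real.log ‖Q z‖) c r ≤
        Real.circleAverage (fun z => Real.posLog ‖Q z‖) c r := by
      apply Real.circleAverage_mono (circleIntegrable_log hQ c r) h2
      intro z _
      show Real.log ‖Q z‖ ≤ Real.posLog ‖Q z‖
      rw [Real.posLog_apply]; exact le_max_right _ _
    have h6 : Real.log ‖Q c‖ ≤ (2 * Real.pi)⁻¹ * ∫ θ in Ioo (-Real.pi) Real.pi, Real.posLog ‖Q (circleMap c r θ)‖ := by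
      rw [← h3]; linarith
    have h7 := mul_le_mul_of_nonneg_left h6 (show 0 ≤ 2 * Real.pi by positivity)
    rwa [← mul_assoc, mul_inv_cancel₀ (by positivity), one_mul] at h7
  calc ENNReal.ofReal (Real.pi * R ^ 2 * Real.log ‖Q c‖)
      = ∫⁻ r in Ioo 0 R, ENNReal.ofReal r * ENNReal.ofReal (2 * Real.pi * Real.log ‖Q c‖) := by
        rw [lintegral_mul_const _ (by fun_prop)]
        have h8 : ∫⁻ r in Ioo (0:ℝ) R, ENNReal.ofReal r = ENNReal.ofReal (R ^ 2 / 2) := by
          rw [← ofReal_integral_eq_lintegral_ofReal]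
          · congr 1
            rw [← integral_Ioc_eq_integral_Ioo, ← intervalIntegral.integral_of_le hR.le, integral_id]
            ring
          · exact (continuous_id.integrableOn_Icc (a := 0) (b := R)).mono_set Ioo_subset_Icc_self
          · filter_upwards [self_mem_ae_restrict measurableSet_Ioo] with r hr
            exact hr.1.le
        rw [h8, ← ENNReal.ofReal_mul (by positivity)]
        congr 1; ring
    _ ≤ _ := by
        apply setLIntegral_mono' measurableSet_Ioo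
        intro r hr
        exact mul_le_mul' le_rfl (h1 r hr)

lemma xi_two_ne' : xi 2 ≠ 0 := xi_ne_zero_of_one_le_re (by norm_num)

/-- an entire quotient N/xi with N bounded on vertical strips grows at most exponentially in the strip -/
lemma growth {Q N : ℂ → ℂ} (hQ : Differentiable ℂ Q) (hQN : ∀ z, Q z * xi (1 / 2 + z) = N z) {B : ℝ}
    (hB : ∀ z : ℂ, |z.re| ≤ 3 / 2 → ‖N z‖ ≤ B) :
    ∃ C : ℝ, 0 ≤ C ∧ ∀ z : ℂ, |z.re| ≤ 5 / 4 → ‖Q z‖ ≤ Real.exp (C * (|z.im| + 1)) := by
  obtain ⟨C, hC0, hC⟩ := disc_bound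
  set B' : ℝ := max B 1 with hB'
  have hB1 : 1 ≤ B' := le_max_right _ _
  have hlB : 0 ≤ Real.log B' := Real.log_nonneg hB1
  refine ⟨16 * C + Real.log B', by positivity, ?_⟩
  intro z hz
  rcases eq_or_ne (Q z) 0 with h0 | h0
  · rw [h0, norm_zero]; exact (Real.exp_pos _).le
  have hR : (0:ℝ) < 1 / 4 := by norm_num
  have h1 := log_le_ball hQ h0 hR
  -- bound of the right-hand side
  have hfin : (zset xi (1 / 2 + z) (1 / 4)).Finite := zset_finite differentiable_xi xi_two_ne' _ _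
  have hae : ∀ᵐ u ∂(volume.restrict (ball z (1 / 4))), xi (1 / 2 + u) ≠ 0 := by
    rw [ae_restrict_iff' measurableSet_ball]
    have h2 : volume ((fun u : ℂ => 1 / 2 + u) ⁻¹' (zset xi (1 / 2 + z) (1 / 4))) = 0 := by
      have h3 : ((fun u : ℂ => 1 / 2 + u) ⁻¹' (zset xi (1 / 2 + z) (1 / 4))).Finite :=
        hfin.preimage (fun a _ b _ h => add_left_cancel h)
      exact h3.measure_zero _
    have h3 := measure_eq_zero_iff_ae_notMem.mp h2
    filter_upwards [h3] with u hu hu2 hx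
    apply hu
    refine ⟨hx, ?_⟩
    rw [mem_ball, dist_eq_norm] at hu2
    rw [show (1 / 2 + u) - (1 / 2 + z) = u - z by ring]
    exact hu2.le
  have hsplit : ∀ u ∈ ball z (1 / 4), xi (1 / 2 + u) ≠ 0 → ENNReal.ofReal (Real.posLog ‖Q u‖) ≤
      ENNReal.ofReal (Real.log B') + ENNReal.ofReal (Real.posLog ‖xi (1 / 2 + u)‖⁻¹) := by
    intro u hu hx
    rw [← ENNReal.ofReal_add hlB Real.posLog_nonneg]
    apply ENNReal.ofReal_le_ofReal
    have hure : |u.re| ≤ 3 / 2 := by
      rw [mem_ball, dist_eq_norm] at hu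
      have h2 := (Complex.abs_re_le_norm (u - z)).trans hu.le
      rw [Complex.sub_re] at h2
      have h3 := abs_add_le (u.re - z.re) z.re
      rw [sub_add_cancel] at h3
      linarith
    have hN := hB u hure
    rw [← hQN u, norm_mul] at hN
    have hxpos : 0 < ‖xi (1 / 2 + u)‖ := norm_pos_iff.mpr hx
    have h4 : ‖Q u‖ ≤ B' * ‖xi (1 / 2 + u)‖⁻¹ := by
      rw [← div_eq_mul_inv, le_div_iff₀ hxpos]
      exact hN.trans (le_max_left _ _)
    calc Real.posLog ‖Q u‖ ≤ Real.posLog (B' * ‖xi (1 / 2 + u)‖⁻¹) :=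
          Real.posLog_le_posLog (norm_nonneg _) h4
      _ ≤ Real.posLog B' + Real.posLog ‖xi (1 / 2 + u)‖⁻¹ := Real.posLog_mul
      _ = _ := by rw [Real.posLog_eq_log (by rw [abs_of_nonneg (by linarith)]; exact hB1)]
  have h5 : ∫⁻ u in ball z (1 / 4), ENNReal.ofReal (Real.posLog ‖Q u‖) ≤
      ENNReal.ofReal (Real.log B') * volume (ball z (1 / 4)) +
        ∫⁻ u in ball z (1 / 4), ENNReal.ofReal (Real.posLog ‖xi (1 / 2 + u)‖⁻¹) := by
    rw [← setLIntegral_const, ← lintegral_add_left (by fun_prop)]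
    apply lintegral_mono_ae
    filter_upwards [hae, self_mem_ae_restrict measurableSet_ball] with u hu1 hu2
    exact hsplit u hu2 hu1
  -- the disc lies in one of the big discs
  set c : ℂ := (if 0 ≤ z.re then (2:ℝ) else (-1:ℝ)) + z.im * Complex.I with hc
  have hcre : c.re = 2 ∨ c.re = -1 := by
    rw [hc]; split_ifs <;> simp
  have hcim : c.im = z.im := by
    rw [hc]; simp
  have h6 : ∫⁻ u in ball z (1 / 4), ENNReal.ofReal (Real.posLog ‖xi (1 / 2 + u)‖⁻¹) ≤
      ENNReal.ofReal (C * (|z.im| + 1)) := by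
    have h7 : ∫⁻ u in ball z (1 / 4), ENNReal.ofReal (Real.posLog ‖xi (1 / 2 + u)‖⁻¹) =
        ∫⁻ u in ball (1 / 2 + z) (1 / 4), ENNReal.ofReal (Real.posLog ‖xi u‖⁻¹) := by
      rw [← lintegral_indicator measurableSet_ball, ← lintegral_indicator measurableSet_ball]
      conv_rhs => rw [← lintegral_add_left_eq_self _ (1 / 2 : ℂ)]
      congr 1
      ext u
      by_cases hu : u ∈ ball z (1 / 4)
      · rw [indicator_of_mem hu, indicator_of_mem]
        rw [mem_ball, dist_eq_norm] at hu ⊢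
        rwa [show (1 / 2 + u) - (1 / 2 + z) = u - z by ring]
      · rw [indicator_of_notMem hu, indicator_of_notMem]
        rw [mem_ball, dist_eq_norm] at hu ⊢
        rwa [show (1 / 2 + u) - (1 / 2 + z) = u - z by ring]
    rw [h7]
    have h8 := hC c hcre
    rw [hcim] at h8
    refine le_trans (lintegral_mono_set ?_) h8
    intro u hu
    rw [mem_ball, dist_eq_norm] at hu ⊢
    have h9 : ‖(1 / 2 + z) - c‖ ≤ 7 / 4 := by
      have h10 : (1 / 2 + z) - c = (((1 / 2 + z.re) - (if 0 ≤ z.re then (2:ℝ) else (-1:ℝ)) : ℝ) : ℂ) := by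
        rw [hc]
        apply Complex.ext
        · simp
        · simp
      rw [h10, Complex.norm_real, Real.norm_eq_abs]
      rw [abs_le] at hz ⊢
      split_ifs with h11
      · constructor <;> linarith
      · push Not at h11
        constructor <;> linarith
    calc ‖u - c‖ = ‖(u - (1 / 2 + z)) + ((1 / 2 + z) - c)‖ := by ring_nf
      _ ≤ ‖u - (1 / 2 + z)‖ + ‖(1 / 2 + z) - c‖ := norm_add_le _ _
      _ < 1 / 4 + 7 / 4 := by linarith
      _ = 2 := by norm_num
  have hvol : volume (ball z (1 / 4)) = ENNReal.ofReal (Real.pi * (1 / 4) ^ 2) := by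
    rw [Complex.volume_ball]
    rw [ENNReal.ofReal_mul (by positivity), ENNReal.ofReal_pow (by norm_num)]
    rw [mul_comm]
    congr 1
    rw [← NNReal.coe_real_pi, ENNReal.ofReal_coe_nnreal]
  have h12 : ENNReal.ofReal (Real.pi * (1 / 4) ^ 2 * Real.log ‖Q z‖) ≤
      ENNReal.ofReal (Real.log B' * (Real.pi * (1 / 4) ^ 2) + C * (|z.im| + 1)) := by
    rw [ENNReal.ofReal_add (by positivity) (by positivity), ENNReal.ofReal_mul hlB, ← hvol]
    exact h1.trans (h5.trans (add_le_add le_rfl h6))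
  have h13 : Real.pi * (1 / 4) ^ 2 * Real.log ‖Q z‖ ≤
      Real.log B' * (Real.pi * (1 / 4) ^ 2) + C * (|z.im| + 1) :=
    (ENNReal.ofReal_le_ofReal_iff (by positivity)).mp h12
  have hQpos : 0 < ‖Q z‖ := norm_pos_iff.mpr h0
  rw [← Real.log_le_iff_le_exp hQpos]
  have hpi := Real.pi_gt_three
  have h14 : 0 ≤ |z.im| := abs_nonneg _
  have h15 : Real.log ‖Q z‖ ≤ Real.log B' + (C * (|z.im| + 1)) * (16 / Real.pi) := by
    have h16 : Real.pi * (1 / 4) ^ 2 * Real.log ‖Q z‖ ≤
        Real.pi * (1 / 4) ^ 2 * (Real.log B' + (C * (|z.im| + 1)) * (16 / Real.pi)) := by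
      calc _ ≤ _ := h13
        _ = _ := by field_simp; ring
    exact le_of_mul_le_mul_left h16 (by positivity)
  have h17 : (16:ℝ) / Real.pi ≤ 16 := by
    rw [div_le_iff₀ Real.pi_pos]; nlinarith
  have h18 : (C * (|z.im| + 1)) * (16 / Real.pi) ≤ (C * (|z.im| + 1)) * 16 :=
    mul_le_mul_of_nonneg_left h17 (by positivity)
  nlinarith [mul_nonneg hlB h14]

end Pool.Agent.Helper71.MR
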