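import Pool.Agent.Helper71.MR.Zer
import Pool.Agent.Helper71.MR.Growth

open Complex Filter Topology MeasureTheory Set Metric
open Pool.Agent.Helper57.Zeta
open scoped FourierTransform

namespace Pool.Agent.Helper71.MR

/-- entire quotient when the denominator has simple zeros, at which the numerator vanishes -/
theorem exists_quot {N F : ℂ → ℂ} (hN : Differentiable ℂ N) (hF : Differentiable ℂ F)
    (hz : ∀ w, F w = 0 → N w = 0 ∧ deriv F w ≠ 0) :
    ∃ Q : ℂ → ℂ, Differentiable ℂ Q ∧ ∀ z, Q z * F z = N z := by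
  classical
  refine ⟨fun z => if F z = 0 then deriv N z / deriv F z else N z / F z, ?_, ?_⟩
  · intro w
    rcases eq_or_ne (F w) 0 with h | h
    · obtain ⟨h1, h2⟩ := hz w h
      have hdN : DifferentiableAt ℂ (dslope N w) w :=
        ((Complex.differentiableOn_dslope (s := univ) univ_mem).mpr hN.differentiableOn).differentiableAt univ_mem
      have hdF : DifferentiableAt ℂ (dslope F w) w :=
        ((Complex.differentiableOn_dslope (s := univ) univ_mem).mpr hF.differentiableOn).differentiableAt univ_mem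
      have hne : dslope F w w ≠ 0 := by rw [dslope_same]; exact h2
      have hev : ∀ᶠ z in 𝓝 w, dslope F w z ≠ 0 := hdF.continuousAt.eventually_ne hne
      apply (hdN.div hdF hne).congr_of_eventuallyEq
      filter_upwards [hev] with z hzne
      rcases eq_or_ne z w with rfl | hzw
      · rw [if_pos h, Pi.div_apply, dslope_same, dslope_same]
      · have e1 : dslope F w z = (z - w)⁻¹ * F z := by
          rw [dslope_of_ne _ hzw, slope_def_module, h, sub_zero, smul_eq_mul]
        have e2 : dslope N w z = (z - w)⁻¹ * N z := by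
          rw [dslope_of_ne _ hzw, slope_def_module, h1, sub_zero, smul_eq_mul]
        have hFz : F z ≠ 0 := by
          intro h3; rw [e1, h3, mul_zero] at hzne; exact hzne rfl
        rw [if_neg hFz, Pi.div_apply, e1, e2]
        have : (z - w)⁻¹ ≠ 0 := inv_ne_zero (sub_ne_zero.mpr hzw)
        rw [mul_div_mul_left _ _ this]
    · have hev : ∀ᶠ z in 𝓝 w, F z ≠ 0 := hF.continuous.continuousAt.eventually_ne h
      apply ((hN w).div (hF w) h).congr_of_eventuallyEq
      filter_upwards [hev] with z hz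
      rw [if_neg hz, Pi.div_apply]
  · intro z
    rcases eq_or_ne (F z) 0 with h | h
    · simp only [if_pos h, h, mul_zero, (hz z h).1]
    · simp only [if_neg h]
      rw [div_mul_cancel₀ _ h]

variable {k : ℝ → ℝ} {D : ℝ → ℝ} {A a : ℝ}

/-- the half-line transform is small on the right -/
theorem half_bd (hD : Gr D A a) {z : ℂ} (hz : a < z.re) :
    ‖∫ s in Ioi (0:ℝ), (D s : ℂ) * cexp (-(z * s))‖ ≤ A / (z.re - a) := by
  have h1 : ‖∫ s in Ioi (0:ℝ), (D s : ℂ) * cexp (-(z * s))‖ ≤
      ∫ s in Ioi (0:ℝ), A * Real.exp ((a - z.re) * s) := by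
    apply norm_integral_le_of_norm_le ((integrableOn_exp_mul_Ioi (by linarith) 0).const_mul A)
    filter_upwards [self_mem_ae_restrict measurableSet_Ioi] with s hs
    have hs0 : 0 < s := hs
    rw [norm_mul, norm_cexp_neg_mul, Complex.norm_real, Real.norm_eq_abs]
    calc |D s| * Real.exp (-(z.re * s)) ≤ (A * Real.exp (a * |s|)) * Real.exp (-(z.re * s)) :=
          mul_le_mul_of_nonneg_right (hD.bd s) (Real.exp_pos _).le
      _ = A * Real.exp ((a - z.re) * s) := by
          rw [mul_assoc, ← Real.exp_add, abs_of_pos hs0]; congr 2; ring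
  refine h1.trans (le_of_eq ?_)
  rw [integral_const_mul, integral_exp_mul_Ioi (by linarith)]
  have : a - z.re ≠ 0 := by linarith
  have h2 : z.re - a ≠ 0 := by linarith
  rw [mul_zero, Real.exp_zero]
  field_simp
  ring

theorem zero_of_lap (hD : Gr D A a) (ha : 0 ≤ a)
    (h : ∀ z : ℂ, 1 ≤ z.re → ∫ s in Ioi (0:ℝ), (D s : ℂ) * cexp (-(z * s)) = 0) {t : ℝ} (ht : 0 < t) :
    D t = 0 := by
  set x : ℝ := a + 1 with hx
  set f : ℝ → ℂ := (Ioi (0:ℝ)).indicator (fun s => (D s : ℂ) * cexp (-((x : ℂ) * s))) with hf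
  have hfi : Integrable f := by
    rw [hf, integrable_indicator_iff measurableSet_Ioi]
    have h1 : IntegrableOn (fun s : ℝ => A * Real.exp ((a - x) * s)) (Ioi 0) :=
      (integrableOn_exp_mul_Ioi (by rw [hx]; linarith) 0).const_mul A
    refine Integrable.mono' h1 ?_ ?_
    · apply Continuous.aestronglyMeasurable
      have := hD.cont
      fun_prop
    · filter_upwards [self_mem_ae_restrict measurableSet_Ioi] with s hs
      have hs0 : 0 < s := hs
      rw [norm_mul, norm_cexp_neg_mul, Complex.norm_real, Real.norm_eq_abs, Complex.ofReal_re]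
      calc |D s| * Real.exp (-(x * s)) ≤ (A * Real.exp (a * |s|)) * Real.exp (-(x * s)) :=
            mul_le_mul_of_nonneg_right (hD.bd s) (Real.exp_pos _).le
        _ = A * Real.exp ((a - x) * s) := by
            rw [mul_assoc, ← Real.exp_add, abs_of_pos hs0]; congr 2; ring
  have hF : 𝓕 f = 0 := by
    ext ξ
    rw [Real.fourier_eq']
    have h2 := h ((x : ℂ) + 2 * Real.pi * ξ * Complex.I) (by simp [hx, ha])
    rw [Pi.zero_apply, ← h2, ← integral_indicator measurableSet_Ioi]
    apply integral_congr_ae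
    filter_upwards with s
    by_cases hs : s ∈ Ioi (0:ℝ)
    · simp only [hf]
      rw [indicator_of_mem hs, indicator_of_mem hs, smul_eq_mul]
      rw [mul_left_comm, ← Complex.exp_add]
      congr 2
      simp
      ring
    · simp only [hf]
      rw [indicator_of_notMem hs, indicator_of_notMem hs, smul_zero]
  have hcont : ContinuousAt f t := by
    have h3 : ContinuousAt (fun s : ℝ => (D s : ℂ) * cexp (-((x : ℂ) * s))) t := by
      apply Continuous.continuousAt
      have := hD.cont
      fun_prop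
    apply h3.congr
    filter_upwards [Ioi_mem_nhds ht] with s hs
    simp only [hf]
    rw [indicator_of_mem hs]
  have h4 := hfi.fourierInv_fourier_eq (by rw [hF]; exact integrable_zero _ _ _) hcont
  rw [hF] at h4
  have h5 : f t = 0 := by
    rw [← h4]
    simp [Real.fourierInv_eq']
  have ht' : t ∈ Ioi (0:ℝ) := ht
  rw [hf, indicator_of_mem ht', mul_eq_zero] at h5
  rcases h5 with h5 | h5
  · exact_mod_cast h5
  · exact absurd h5 (Complex.exp_ne_zero _)

/-- **Uniqueness**: a continuous function of moderate growth annihilated by the kernel and by its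
zero kernels vanishes. -/
theorem uniq (hD : Gr D A a) (ha : 0 ≤ a) (ha1 : a < 1) (hk : Ker k)
    (hsimple : ∀ w, xi (1 / 2 + w) = 0 → deriv xi (1 / 2 + w) ≠ 0)
    (h0 : ∀ t, ∫ s : ℝ, (D s : ℂ) * (k (s - t) : ℂ) = 0)
    (h1 : ∀ w, xi (1 / 2 + w) = 0 → ∫ s in Ioi (0:ℝ), (D s : ℂ) * Aw k w s =
      ∫ s in Ioi (0:ℝ), (D (-s) : ℂ) * Aw k (-w) s) (t : ℝ) : D t = 0 := by
  have hA := hD.nonneg
  have hf := Np_fast hD ha hk h0
  set F : ℂ → ℂ := fun z => 1 / 2 * xi (1 / 2 + z) with hFdef
  have hFd : Differentiable ℂ F := by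
    have := differentiable_xi
    intro z
    exact ((this (1 / 2 + z)).comp z (by fun_prop)).const_mul _
  have hderiv : ∀ w, deriv F w = 1 / 2 * deriv xi (1 / 2 + w) := by
    intro w
    have h2 : HasDerivAt xi (deriv xi (1 / 2 + w)) (1 / 2 + w) := (differentiable_xi _).hasDerivAt
    have h3 : HasDerivAt (fun z : ℂ => 1 / 2 + z) 1 w := (hasDerivAt_id w).const_add _
    have h4 := (h2.comp w h3).const_mul (1 / 2 : ℂ)
    have h5 : HasDerivAt F (1 / 2 * (deriv xi (1 / 2 + w) * 1)) w := h4
    rw [h5.deriv, mul_one]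
  obtain ⟨Q, hQd, hQ⟩ := exists_quot hf.lap_diff hFd (by
    intro w hw
    have hw' : xi (1 / 2 + w) = 0 := by
      rcases mul_eq_zero.mp hw with h | h
      · norm_num at h
      · exact h
    refine ⟨?_, ?_⟩
    · rw [lap_at hD ha hk h0 w, h1 w hw', sub_self]
    · rw [hderiv]
      exact mul_ne_zero (by norm_num) (hsimple w hw'))
  -- Q on the right half plane
  have hFne : ∀ z : ℂ, 1 / 2 ≤ z.re → F z ≠ 0 := by
    intro z hz
    apply mul_ne_zero (by norm_num)
    apply xi_ne_zero_of_one_le_re
    simp; linarith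
  have hFne' : ∀ z : ℂ, z.re ≤ -(1 / 2) → F z ≠ 0 := by
    intro z hz
    apply mul_ne_zero (by norm_num)
    apply xi_ne_zero_of_re_le_zero
    simp; linarith
  have hright : ∀ z : ℂ, 1 ≤ z.re → Q z = ∫ s in Ioi (0:ℝ), (D s : ℂ) * cexp (-(z * s)) := by
    intro z hz
    have h3 := hQ z
    rw [lap_Np hD hk (by linarith)] at h3
    exact mul_right_cancel₀ (hFne z (by linarith)) h3
  have hleft : ∀ z : ℂ, z.re ≤ -1 → Q z = -∫ s in Ioi (0:ℝ), (D (-s) : ℂ) * cexp (-(-z * s)) := by
    intro z hz
    have h3 := hQ z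
    have h4 := lap_Np (z := -z) hD.refl hk (by simp; linarith)
    have h5 : lap (Np k D) z = -lap (Np k fun t => D (-t)) (-z) := by
      unfold lap
      rw [← integral_neg, ← integral_neg_eq_self (fun t : ℝ => -(Np k (fun t => D (-t)) t * cexp (-(-z * t))))]
      apply integral_congr_ae
      filter_upwards with t
      have h6 := Np_add hD ha hk t
      rw [h0] at h6
      have h7 : Np k D t = -Np k (fun s => D (-s)) (-t) := by linear_combination h6
      rw [h7]
      have : cexp (-(-z * ((-t : ℝ) : ℂ))) = cexp (-(z * t)) := by congr 1; push_cast; ring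
      rw [this]; ring
    rw [h5, h4] at h3
    have h8 : F z = 1 / 2 * xi (1 / 2 + -z) := by
      simp only [hFdef]
      rw [← xi_one_sub (1 / 2 + z)]; congr 2; ring
    rw [← h8, ← neg_mul] at h3
    exact mul_right_cancel₀ (hFne' z (by linarith)) h3
  have hbr : ∀ z : ℂ, 1 ≤ z.re → ‖Q z‖ ≤ A / (1 - a) := by
    intro z hz
    rw [hright z hz]
    refine (half_bd hD (by linarith)).trans ?_
    apply div_le_div_of_nonneg_left hA (by linarith) (by linarith)
  have hbl : ∀ z : ℂ, z.re ≤ -1 → ‖Q z‖ ≤ A / (1 - a) := by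
    intro z hz
    rw [hleft z hz, norm_neg]
    refine (half_bd hD.refl (by simp; linarith)).trans ?_
    apply div_le_div_of_nonneg_left hA (by linarith)
    simp; linarith
  -- growth in the strip
  obtain ⟨B, hB0, hB⟩ := hf.lap_bd (3 / 2)
  obtain ⟨C, hC0, hC⟩ := growth (Q := fun z => 1 / 2 * Q z) (N := lap (Np k D)) (hQd.const_mul _)
    (by intro z; rw [← hQ z]; simp only [hFdef]; ring) hB
  have hstrip : ∀ z : ℂ, -1 ≤ z.re → z.re ≤ 1 → ‖Q z‖ ≤ A / (1 - a) := by
    intro z hz1 hz2
    apply PhragmenLindelof.vertical_strip (a := -1) (b := 1) (f := Q) hQd.diffContOnCl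
    · refine ⟨1, ?_, C, ?_⟩
      · rw [lt_div_iff₀ (by norm_num)]
        have := Real.pi_gt_three
        linarith
      · apply Asymptotics.IsBigO.of_bound 2
        rw [Filter.Eventually, Filter.mem_inf_principal]
        apply Filter.univ_mem'
        intro z hz
        have hz' : z.re ∈ Ioo (-1:ℝ) 1 := hz
        have h2 := hC z (by rw [abs_le]; constructor <;> linarith [hz'.1, hz'.2])
        rw [norm_mul] at h2
        have h3 : ‖(1 / 2 : ℂ)‖ = 1 / 2 := by norm_num
        rw [h3] at h2
        show ‖Q z‖ ≤ 2 * ‖Real.exp (C * Real.exp (1 * |z.im|))‖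
        rw [Real.norm_of_nonneg (Real.exp_pos _).le]
        have h4 : Real.exp (C * (|z.im| + 1)) ≤ Real.exp (C * Real.exp (1 * |z.im|)) := by
          apply Real.exp_le_exp.mpr
          apply mul_le_mul_of_nonneg_left _ hC0
          rw [one_mul]; exact Real.add_one_le_exp _
        linarith
    · intro z hz; exact hbl z (by linarith)
    · intro z hz; exact hbr z (by linarith)
    · exact hz1
    · exact hz2
  have hall : ∀ z : ℂ, ‖Q z‖ ≤ A / (1 - a) := by
    intro z
    rcases le_total z.re (-1) with h | h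
    · exact hbl z h
    · rcases le_total 1 z.re with h' | h'
      · exact hbr z h'
      · exact hstrip z h h'
  have hbdd : Bornology.IsBounded (range Q) := by
    rw [isBounded_iff_forall_norm_le]
    exact ⟨_, by rintro _ ⟨z, rfl⟩; exact hall z⟩
  have hQ0 : ∀ z, Q z = 0 := by
    intro z
    by_contra hne
    have hpos : 0 < ‖Q z‖ := norm_pos_iff.mpr hne
    have h2 : ∀ x : ℝ, 1 ≤ x → ‖Q z‖ ≤ A / (x - a) := by
      intro x hx
      rw [hQd.apply_eq_apply_of_bounded hbdd z (x : ℂ), hright (x : ℂ) (by simpa using hx)]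
      have := half_bd hD (z := (x : ℂ)) (by simp; linarith)
      simpa using this
    have h3 := h2 (1 + a + 2 * A / ‖Q z‖) (by
      have : 0 ≤ 2 * A / ‖Q z‖ := by positivity
      linarith)
    rw [show 1 + a + 2 * A / ‖Q z‖ - a = 1 + 2 * A / ‖Q z‖ by ring, le_div_iff₀ (by positivity)] at h3
    have h4 : ‖Q z‖ * (1 + 2 * A / ‖Q z‖) = ‖Q z‖ + 2 * A := by
      field_simp
    rw [h4] at h3
    linarith
  have hpos : ∀ t : ℝ, 0 < t → D t = 0 := by
    intro t ht
    apply zero_of_lap hD ha _ ht
    intro z hz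
    rw [← hright z hz, hQ0]
  have hneg : ∀ t : ℝ, 0 < t → D (-t) = 0 := by
    intro t ht
    apply zero_of_lap hD.refl ha _ ht
    intro z hz
    have h2 := hleft (-z) (by simpa using hz)
    rw [hQ0, neg_neg] at h2
    exact neg_eq_zero.mp h2.symm
  rcases lt_trichotomy t 0 with ht | ht | ht
  · have := hneg (-t) (by linarith)
    rwa [neg_neg] at this
  · rw [ht]
    have h3 : Tendsto D (𝓝[>] 0) (𝓝 (D 0)) := (hD.cont.tendsto 0).mono_left nhdsWithin_le_nhds
    have h4 : Tendsto D (𝓝[>] 0) (𝓝 0) := by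
      apply tendsto_const_nhds.congr'
      filter_upwards [self_mem_nhdsWithin] with t ht
      exact (hpos t ht).symm
    exact tendsto_nhds_unique h3 h4
  · exact hpos t ht

end Pool.Agent.Helper71.MR
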