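import Pool.Agent.Helper71.MR.Main

open Complex Filter Topology MeasureTheory Set
open Pool.Agent.Helper57.Zeta
open Pool.Agent.Helper18.ES (kap K K_inv K_pos GA S mu Phi abs_Phi_le adm_S mu_le)

namespace Pool.Agent.Helper71.MR

theorem abs_cos_sub_cos_le (a b : ℝ) : |Real.cos a - Real.cos b| ≤ |a - b| := by
  rw [Real.cos_sub_cos, abs_mul, abs_mul]
  have h1 := Real.abs_sin_le_one ((a + b) / 2)
  have h2 : |Real.sin ((a - b) / 2)| ≤ |(a - b) / 2| := Real.abs_sin_le_abs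
  have h3 : |(a - b) / 2| = |a - b| / 2 := by rw [abs_div]; norm_num
  rw [h3] at h2
  have h4 : |(-2 : ℝ)| = 2 := by norm_num
  rw [h4]
  nlinarith [abs_nonneg (Real.sin ((a + b) / 2)), abs_nonneg (Real.sin ((a - b) / 2)), abs_nonneg (a - b)]

theorem Cin_lip {a b : ℝ} (ha : 0 ≤ a) (hb : 0 ≤ b) : |Cin a - Cin b| ≤ |a - b| := by
  unfold Cin
  rw [← integral_sub (cin_integrable ha) (cin_integrable hb), ← Real.norm_eq_abs]
  have h1 : IntegrableOn (fun _ : ℝ => |a - b|) (Ioc (0:ℝ) 1) := integrableOn_const (by simp)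
  calc ‖∫ y in Ioc (0:ℝ) 1, ((1 - Real.cos (a * y)) / y - (1 - Real.cos (b * y)) / y)‖
      ≤ ∫ _ in Ioc (0:ℝ) 1, |a - b| := by
        apply norm_integral_le_of_norm_le h1
        filter_upwards [self_mem_ae_restrict measurableSet_Ioc] with y hy
        have hy0 : 0 < y := hy.1
        rw [← sub_div, norm_div, Real.norm_eq_abs, Real.norm_of_nonneg hy0.le, div_le_iff₀ hy0]
        have h2 := abs_cos_sub_cos_le (b * y) (a * y)
        rw [show b * y - a * y = -((a - b) * y) by ring, abs_neg, abs_mul, abs_of_pos hy0] at h2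
        rw [show 1 - Real.cos (a * y) - (1 - Real.cos (b * y)) = Real.cos (b * y) - Real.cos (a * y) by ring]
        exact h2
    _ = |a - b| := by simp

theorem summable_sq_inv : Summable (fun k : ℕ => 1 / (k : ℝ) ^ 2) :=
  Real.summable_one_div_nat_pow.mpr (by norm_num)

theorem Qf_lip {a b : ℝ} (ha : 0 ≤ a) (hb : 0 ≤ b) :
    |Qf a - Qf b| ≤ 2 * Real.pi * |a - b| * ∑' k : ℕ, 1 / (k : ℝ) ^ 2 := by
  unfold Qf
  rw [← (Qf_summable ha).tsum_sub (Qf_summable hb), ← tsum_mul_left, ← Real.norm_eq_abs]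
  apply tsum_of_norm_bounded (summable_sq_inv.mul_left _).hasSum
  intro k
  rw [← mul_sub, norm_mul, Real.norm_eq_abs, Real.norm_eq_abs]
  have hpi := Real.pi_pos
  have hk : (0:ℝ) ≤ k := Nat.cast_nonneg k
  have h1 := Cin_lip (a := 2 * Real.pi * a / k) (b := 2 * Real.pi * b / k) (by positivity) (by positivity)
  have h2 : |2 * Real.pi * a / k - 2 * Real.pi * b / k| = 2 * Real.pi * |a - b| * (1 / k) := by
    rw [← sub_div, ← mul_sub, abs_div, abs_mul, abs_of_pos (by positivity : 0 < 2 * Real.pi),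
      abs_of_nonneg hk]
    ring
  rw [h2] at h1
  have h3 : |mu k / k| ≤ 1 / k := by
    rw [abs_div, abs_of_nonneg hk]
    exact div_le_div_of_nonneg_right (mu_le k) hk
  calc |mu k / k| * |Cin (2 * Real.pi * a / k) - Cin (2 * Real.pi * b / k)|
      ≤ (1 / k) * (2 * Real.pi * |a - b| * (1 / k)) :=
        mul_le_mul h3 h1 (abs_nonneg _) (by positivity)
    _ = _ := by ring

theorem rr_cont : Continuous rr := by
  unfold rr
  apply Continuous.mul _ (by fun_prop)
  have h : Continuous (fun t : ℝ => Qf (Real.exp (-t))) := by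
    rw [continuous_iff_continuousAt]
    intro t₀
    rw [ContinuousAt, tendsto_iff_dist_tendsto_zero]
    have h2 : Tendsto (fun t : ℝ => 2 * Real.pi * |Real.exp (-t) - Real.exp (-t₀)| * ∑' k : ℕ, 1 / (k : ℝ) ^ 2)
        (𝓝 t₀) (𝓝 (2 * Real.pi * |Real.exp (-t₀) - Real.exp (-t₀)| * ∑' k : ℕ, 1 / (k : ℝ) ^ 2)) := by
      apply Continuous.tendsto
      fun_prop
    rw [sub_self, abs_zero, mul_zero, zero_mul] at h2
    refine squeeze_zero (fun _ => dist_nonneg) (fun t => ?_) h2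
    rw [Real.dist_eq]
    exact Qf_lip (Real.exp_pos _).le (Real.exp_pos _).le
  fun_prop

theorem mm_right (t₀ : ℝ) : Tendsto mm (𝓝[≥] t₀) (𝓝 (mm t₀)) := by
  unfold mm
  apply Tendsto.mul
  · apply tendsto_nhds_of_eventually_eq
    have h1 : Real.exp t₀ < (⌊Real.exp t₀⌋₊ : ℝ) + 1 := Nat.lt_floor_add_one _
    have h2 : ∀ᶠ t in 𝓝[≥] t₀, Real.exp t < (⌊Real.exp t₀⌋₊ : ℝ) + 1 := by
      apply Filter.Eventually.filter_mono nhdsWithin_le_nhds
      exact (Real.continuous_exp.tendsto t₀).eventually (gt_mem_nhds h1)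
    filter_upwards [h2, self_mem_nhdsWithin] with t ht ht2
    have h3 : ⌊Real.exp t⌋₊ = ⌊Real.exp t₀⌋₊ := by
      rw [Nat.floor_eq_iff (Real.exp_pos t).le]
      refine ⟨(Nat.floor_le (Real.exp_pos t₀).le).trans (Real.exp_le_exp.mpr ht2), ht⟩
    unfold S
    rw [h3]
  · apply Filter.Tendsto.mono_left _ nhdsWithin_le_nhds
    apply Continuous.tendsto
    fun_prop

theorem ms_right (t₀ : ℝ) : Tendsto ms (𝓝[≥] t₀) (𝓝 (ms t₀)) := by
  unfold ms
  exact (mm_right t₀).add ((rr_cont.tendsto t₀).mono_left nhdsWithin_le_nhds)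

theorem ms_le_of_big {σ K C4 : ℝ} (hC4 : 0 ≤ C4) (hBig : Big σ K C4) (t₀ : ℝ) : σ * ms t₀ ≤ K := by
  by_contra hcon
  push Not at hcon
  set ε : ℝ := σ * ms t₀ - K with hε
  have hε0 : 0 < ε := by rw [hε]; linarith
  have h1 : ∀ᶠ t in 𝓝[≥] t₀, K + ε / 2 < σ * ms t := by
    have := (ms_right t₀).const_mul σ
    exact this.eventually (lt_mem_nhds (by rw [hε]; linarith))
  rw [eventually_nhdsWithin_iff, Metric.eventually_nhds_iff] at h1
  obtain ⟨η, hη, h2⟩ := h1
  set δ : ℝ := min 1 (η / 2) with hδ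
  have hδ0 : 0 < δ := by positivity
  have hδ1 : δ ≤ 1 := min_le_left _ _
  have hδη : δ < η := by
    have := min_le_right 1 (η / 2)
    rw [hδ]; linarith
  have h3 := hh_le hC4 hBig hδ1 t₀
  have hI := gt_int_pos hδ0
  have h4 : (K + ε / 2) * ∫ u : ℝ, gt δ u ≤ σ * hh δ t₀ := by
    unfold hh
    rw [← integral_const_mul, ← integral_const_mul]
    have i1 : Integrable (fun u : ℝ => σ * (ms (t₀ + u) * gt δ u)) := by
      have := (ms_gt_int hδ1 t₀ 0).const_mul σ
      simpa using this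
    apply integral_mono ((gt_integrable δ).const_mul _) i1
    intro u
    show (K + ε / 2) * gt δ u ≤ σ * (ms (t₀ + u) * gt δ u)
    rcases le_or_gt u 0 with h | h
    · rw [gt_zero (Or.inl h)]; simp
    rcases le_or_gt δ u with h' | h'
    · rw [gt_zero (Or.inr h')]; simp
    rw [← mul_assoc]
    apply mul_le_mul_of_nonneg_right _ (gt_nonneg _ _)
    apply (h2 _ _).le
    · rw [Real.dist_eq, show t₀ + u - t₀ = u by ring, abs_of_pos h]
      linarith
    · show t₀ ≤ t₀ + u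
      linarith
  nlinarith

/-- recurrence of values at infinity, additive form -/
theorem recurR {σ K : ℝ} (hσ : |σ| = 1) {t₀ : ℝ} (h : K < σ * ms t₀) :
    ∃ C : ℝ, ∀ T : ℝ, C ≤ T → ∃ t ∈ Icc T (T + Real.log T + C), K < σ * mm t := by
  have h1 : ¬ FailR σ K := by
    intro hF
    obtain ⟨C4, hC4, hBig⟩ := big_of_right hσ hF
    exact absurd (ms_le_of_big hC4 hBig t₀) (not_le.mpr h)
  unfold FailR at h1
  push Not at h1
  exact h1

/-- recurrence of values at zero, additive form -/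
theorem recurL {σ K : ℝ} (hσ : |σ| = 1) {t₀ : ℝ} (h : K < σ * ms t₀) :
    ∃ C : ℝ, ∀ T : ℝ, C ≤ T → ∃ t ∈ Icc T (T + Real.log T + C), K < σ * ms (-t) := by
  have h1 : ¬ FailL σ K := by
    intro hF
    obtain ⟨C4, hC4, hBig⟩ := big_of_left hσ hF
    exact absurd (ms_le_of_big hC4 hBig t₀) (not_le.mpr h)
  unfold FailL at h1
  push Not at h1
  exact h1

end Pool.Agent.Helper71.MR
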