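import Pool.Agent.Helper71.MR.Lap

open Complex Filter Topology MeasureTheory Set Metric
open Pool.Agent.Helper57.Zeta

namespace Pool.Agent.Helper71.MR

/-- growth class -/
structure Gr (D : ℝ → ℝ) (A a : ℝ) : Prop where
  cont : Continuous D
  bd : ∀ t, |D t| ≤ A * Real.exp (a * |t|)

theorem Gr.nonneg {D : ℝ → ℝ} {A a : ℝ} (hD : Gr D A a) : 0 ≤ A := by
  have h := hD.bd 0
  simp at h
  exact (abs_nonneg _).trans h

theorem Gr.refl {D : ℝ → ℝ} {A a : ℝ} (hD : Gr D A a) : Gr (fun t => D (-t)) A a :=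
  ⟨hD.cont.comp continuous_neg, fun t => by simpa using hD.bd (-t)⟩

/-- half-line convolution -/
noncomputable def Np (k D : ℝ → ℝ) (t : ℝ) : ℂ := ∫ s in Ioi (0:ℝ), (D s : ℂ) * (k (s - t) : ℂ)

/-- half-line exponential sum of the kernel -/
noncomputable def Aw (k : ℝ → ℝ) (w : ℂ) (s : ℝ) : ℂ := ∫ v in Ioi (0:ℝ), cexp (w * v) * k (s + v)

variable {k : ℝ → ℝ} {D : ℝ → ℝ} {A a : ℝ}

theorem pt_bd (hD : Gr D A a) {C b : ℝ} (hC0 : 0 ≤ C) (hb : 0 ≤ b)
    (hC : ∀ u, k u ≤ C * Real.exp (-((a + 1 + b) * |u|))) (ha : 0 ≤ a) (hk : Ker k) (s t : ℝ) :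
    ‖(D s : ℂ) * (k (s - t) : ℂ)‖ ≤ A * C * Real.exp ((a + 1 + b) * |t|) * Real.exp (-(1 * |s|)) := by
  have hA := hD.nonneg
  rw [norm_mul, Complex.norm_real, Complex.norm_real, Real.norm_eq_abs, Real.norm_eq_abs,
    abs_of_pos (hk.pos _)]
  calc |D s| * k (s - t) ≤ (A * Real.exp (a * |s|)) * (C * Real.exp (-((a + 1 + b) * |s - t|))) :=
        mul_le_mul (hD.bd s) (hC _) (hk.pos _).le (by positivity)
    _ = A * C * Real.exp (a * |s| + -((a + 1 + b) * |s - t|)) := by rw [Real.exp_add]; ring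
    _ ≤ A * C * Real.exp ((a + 1 + b) * |t| + -(1 * |s|)) := by
        apply mul_le_mul_of_nonneg_left _ (by positivity)
        apply Real.exp_le_exp.mpr
        have h1 : |s| ≤ |s - t| + |t| := by
          calc |s| = |(s - t) + t| := by ring_nf
            _ ≤ _ := abs_add_le _ _
        have h2 : (a + 1 + b) * |s| ≤ (a + 1 + b) * (|s - t| + |t|) :=
          mul_le_mul_of_nonneg_left h1 (by linarith)
        nlinarith [abs_nonneg s]
    _ = _ := by rw [Real.exp_add]; ring

theorem conv_integrable (hD : Gr D A a) (ha : 0 ≤ a) (hk : Ker k) (t : ℝ) :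
    Integrable (fun s : ℝ => (D s : ℂ) * (k (s - t) : ℂ)) := by
  obtain ⟨C, hC0, hC⟩ := hk.fast (a + 1 + 0)
  refine Integrable.mono' ((integrable_exp_abs one_pos).const_mul (A * C * Real.exp ((a + 1 + 0) * |t|))) ?_ ?_
  · apply Continuous.aestronglyMeasurable
    have := hD.cont; have := hk.cont
    fun_prop
  · filter_upwards with s
    exact pt_bd hD hC0 le_rfl hC ha hk s t

theorem Np_cont (hD : Gr D A a) (ha : 0 ≤ a) (hk : Ker k) : Continuous (Np k D) := by
  obtain ⟨C, hC0, hC⟩ := hk.fast (a + 1 + 0)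
  have hA := hD.nonneg
  rw [continuous_iff_continuousAt]
  intro t₀
  apply continuousAt_of_dominated
    (bound := fun s => A * C * Real.exp ((a + 1 + 0) * (|t₀| + 1)) * Real.exp (-(1 * |s|)))
  · filter_upwards with t
    exact (conv_integrable hD ha hk t).aestronglyMeasurable.restrict
  · have h1 : ∀ᶠ t in 𝓝 t₀, |t| < |t₀| + 1 :=
      (continuous_abs.tendsto t₀).eventually_lt_const (by linarith)
    filter_upwards [h1] with t ht
    filter_upwards with s
    refine (pt_bd hD hC0 le_rfl hC ha hk s t).trans ?_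
    apply mul_le_mul_of_nonneg_right _ (Real.exp_pos _).le
    apply mul_le_mul_of_nonneg_left _ (by positivity)
    apply Real.exp_le_exp.mpr
    apply mul_le_mul_of_nonneg_left ht.le (by linarith)
  · exact (((integrable_exp_abs one_pos).const_mul _)).integrableOn
  · filter_upwards with s
    have := hk.cont
    apply Continuous.continuousAt
    fun_prop

theorem Np_left (hD : Gr D A a) (ha : 0 ≤ a) (hk : Ker k) (b : ℝ) : ∃ C : ℝ, 0 ≤ C ∧
    ∀ t ≤ 0, ‖Np k D t‖ ≤ C * Real.exp (-(b * |t|)) := by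
  obtain ⟨C, hC0, hC⟩ := hk.fast (a + 1 + |b|)
  have hA := hD.nonneg
  refine ⟨A * C * ∫ s in Ioi (0:ℝ), Real.exp (-(1 * |s|)), ?_, ?_⟩
  · have : 0 ≤ ∫ s in Ioi (0:ℝ), Real.exp (-(1 * |s|)) := integral_nonneg (fun s => (Real.exp_pos _).le)
    positivity
  intro t ht
  have h1 : ‖Np k D t‖ ≤ ∫ s in Ioi (0:ℝ), (A * C * Real.exp (-(b * |t|))) * Real.exp (-(1 * |s|)) := by
    unfold Np
    apply norm_integral_le_of_norm_le (((integrable_exp_abs one_pos).const_mul _)).integrableOn
    filter_upwards [self_mem_ae_restrict measurableSet_Ioi] with s hs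
    have hs0 : 0 < s := hs
    rw [norm_mul, Complex.norm_real, Complex.norm_real, Real.norm_eq_abs, Real.norm_eq_abs,
      abs_of_pos (hk.pos _)]
    calc |D s| * k (s - t) ≤ (A * Real.exp (a * |s|)) * (C * Real.exp (-((a + 1 + |b|) * |s - t|))) :=
          mul_le_mul (hD.bd s) (hC _) (hk.pos _).le (by positivity)
      _ = A * C * Real.exp (a * |s| + -((a + 1 + |b|) * |s - t|)) := by rw [Real.exp_add]; ring
      _ ≤ A * C * Real.exp (-(b * |t|) + -(1 * |s|)) := by
          apply mul_le_mul_of_nonneg_left _ (by positivity)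
          apply Real.exp_le_exp.mpr
          rw [abs_of_pos hs0, abs_of_nonpos ht, abs_of_pos (by linarith : 0 < s - t)]
          nlinarith [le_abs_self b, abs_nonneg b, mul_nonneg (abs_nonneg b) hs0.le,
            mul_nonneg ha (neg_nonneg.mpr ht), mul_nonneg (sub_nonneg.mpr (le_abs_self b)) (neg_nonneg.mpr ht)]
      _ = _ := by rw [Real.exp_add]; ring
  refine h1.trans (le_of_eq ?_)
  rw [integral_const_mul]; ring

theorem Np_add (hD : Gr D A a) (ha : 0 ≤ a) (hk : Ker k) (t : ℝ) :
    Np k D t + Np k (fun s => D (-s)) (-t) = ∫ s : ℝ, (D s : ℂ) * (k (s - t) : ℂ) := by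
  have hi := conv_integrable hD ha hk t
  rw [← integral_add_compl measurableSet_Ioi hi (s := Ioi (0:ℝ)), compl_Ioi]
  congr 1
  unfold Np
  have h := integral_comp_neg_Iic 0 (fun s : ℝ => (D (-s) : ℂ) * (k (s - -t) : ℂ))
  rw [neg_zero] at h
  rw [← h]
  apply setIntegral_congr_fun measurableSet_Iic
  intro s _
  simp only [neg_neg]
  rw [show -s - -t = -(s - t) by ring, hk.even]

theorem Np_fast (hD : Gr D A a) (ha : 0 ≤ a) (hk : Ker k)
    (h0 : ∀ t, ∫ s : ℝ, (D s : ℂ) * (k (s - t) : ℂ) = 0) : Fast (Np k D) := by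
  refine ⟨Np_cont hD ha hk, ?_⟩
  intro b
  obtain ⟨C1, h10, h1⟩ := Np_left hD ha hk b
  obtain ⟨C2, h20, h2⟩ := Np_left hD.refl ha hk b
  refine ⟨C1 + C2, by positivity, ?_⟩
  intro t
  have he := Real.exp_pos (-(b * |t|))
  rcases le_total t 0 with ht | ht
  · refine (h1 t ht).trans ?_
    nlinarith
  · have h3 := Np_add hD ha hk t
    rw [h0 t] at h3
    have h4 : Np k D t = -Np k (fun s => D (-s)) (-t) := by linear_combination h3
    rw [h4, norm_neg]
    have h5 := h2 (-t) (by linarith)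
    rw [abs_neg] at h5
    refine h5.trans ?_
    nlinarith

/-- the transform of the half-line convolution on the right -/
theorem lap_Np (hD : Gr D A a) (hk : Ker k) {z : ℂ} (hz : a < z.re) :
    lap (Np k D) z = (∫ s in Ioi (0:ℝ), (D s : ℂ) * cexp (-(z * s))) * (1 / 2 * xi (1 / 2 + z)) := by
  set f : ℝ → ℂ := (Ioi (0:ℝ)).indicator (fun s => (D s : ℂ) * cexp (-(z * s))) with hf
  set g : ℝ → ℂ := fun u => (k u : ℂ) * cexp (-(z * u)) with hg
  have hfi : Integrable f := by
    rw [hf, integrable_indicator_iff measurableSet_Ioi]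
    have h1 : IntegrableOn (fun s : ℝ => A * Real.exp ((a - z.re) * s)) (Ioi 0) :=
      (integrableOn_exp_mul_Ioi (by linarith) 0).const_mul A
    refine Integrable.mono' h1 ?_ ?_
    · apply Continuous.aestronglyMeasurable
      have := hD.cont
      fun_prop
    · filter_upwards [self_mem_ae_restrict measurableSet_Ioi] with s hs
      have hs0 : 0 < s := hs
      rw [norm_mul, norm_cexp_neg_mul, Complex.norm_real, Real.norm_eq_abs]
      calc |D s| * Real.exp (-(z.re * s)) ≤ (A * Real.exp (a * |s|)) * Real.exp (-(z.re * s)) :=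
            mul_le_mul_of_nonneg_right (hD.bd s) (Real.exp_pos _).le
        _ = A * Real.exp ((a - z.re) * s) := by
            rw [mul_assoc, ← Real.exp_add, abs_of_pos hs0]; congr 2; ring
  have hkf : Fast (fun u => (k u : ℂ)) := by
    refine ⟨by have := hk.cont; fun_prop, ?_⟩
    intro b
    obtain ⟨C, hC0, hC⟩ := hk.fast b
    refine ⟨C, hC0, fun t => ?_⟩
    rw [Complex.norm_real, Real.norm_eq_abs, abs_of_pos (hk.pos _)]
    exact hC t
  have hgi : Integrable g := hkf.lap_integrable z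
  have hgv : ∫ u, g u = 1 / 2 * xi (1 / 2 + z) := by
    have h1 := hk.mel (-z)
    have h2 : xi (1 / 2 + -z) = xi (1 / 2 + z) := by
      rw [← xi_one_sub (1 / 2 + z)]; congr 1; ring
    rw [h2] at h1
    rw [← h1]
    apply integral_congr_ae
    filter_upwards with u
    simp only [hg]
    congr 2; ring
  have hconv := integral_convolution (ContinuousLinearMap.mul ℂ ℂ) hfi hgi
  simp only [ContinuousLinearMap.mul_apply'] at hconv
  rw [hgv, hf, integral_indicator measurableSet_Ioi] at hconv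
  rw [← hconv]
  unfold lap
  apply integral_congr_ae
  filter_upwards with t
  rw [MeasureTheory.convolution_def]
  simp only [ContinuousLinearMap.mul_apply', hg]
  unfold Np
  rw [← integral_mul_const, ← integral_indicator measurableSet_Ioi]
  apply integral_congr_ae
  filter_upwards with s
  by_cases hs : s ∈ Ioi (0:ℝ)
  · rw [indicator_of_mem hs, indicator_of_mem hs]
    rw [show s - t = -(t - s) by ring, hk.even]
    have : cexp (-(z * s)) * cexp (-(z * ((t - s : ℝ) : ℂ))) = cexp (-(z * t)) := by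
      rw [← Complex.exp_add]; congr 1; push_cast; ring
    rw [← this]; ring
  · rw [indicator_of_notMem hs, indicator_of_notMem hs, zero_mul]

end Pool.Agent.Helper71.MR
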