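import Pool.Agent.Helper71.MR.Rf2
import Pool.Agent.Helper71.MR.Half

open Complex Filter Topology MeasureTheory Set
open Pool.Agent.Helper57.Zeta
open Pool.Agent.Helper18.ES (kap K K_inv K_pos GA S mu Phi GA_mu mu_le mu_conv hasDerivAt_Phi_scaled
  hasDerivAt_Phi summable_kap K_le_pow vv le_vv vv_ge_one mellin_kap mellin_K mellinConv_K abs_Phi_le adm_S)

namespace Pool.Agent.Helper71.MR

/-- the dual part in logarithmic scale -/
noncomputable def rr (t : ℝ) : ℝ := (2 - 2 * Qf (Real.exp (-t))) * Real.exp (-t / 2)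

theorem rr_meas : Measurable rr := by
  unfold rr
  have := Qf_meas
  fun_prop

theorem rr_bd (t : ℝ) : |rr t| ≤ (2 + 2 * C54) * (Real.exp (-t / 2) + Real.exp (-(3 * t / 4))) := by
  unfold rr
  rw [abs_mul, abs_of_pos (Real.exp_pos _)]
  have h1 := Qf_le (Real.exp_pos (-t)).le
  have h2 : (Real.exp (-t)) ^ (1 / 4 : ℝ) = Real.exp (-t / 4) := by
    rw [← Real.exp_mul]; congr 1; ring
  rw [h2] at h1
  have hC := C54_nonneg
  have h3 : |2 - 2 * Qf (Real.exp (-t))| ≤ 2 + 2 * (C54 * Real.exp (-t / 4)) := by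
    rw [abs_le] at h1 ⊢
    constructor <;> linarith [h1.1, h1.2]
  have h4 : Real.exp (-t / 4) * Real.exp (-t / 2) = Real.exp (-(3 * t / 4)) := by
    rw [← Real.exp_add]; congr 1; ring
  calc |2 - 2 * Qf (Real.exp (-t))| * Real.exp (-t / 2)
      ≤ (2 + 2 * (C54 * Real.exp (-t / 4))) * Real.exp (-t / 2) :=
        mul_le_mul_of_nonneg_right h3 (Real.exp_pos _).le
    _ = 2 * Real.exp (-t / 2) + 2 * C54 * Real.exp (-(3 * t / 4)) := by rw [← h4]; ring
    _ ≤ _ := by
        have e1 := Real.exp_pos (-t / 2)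
        have e2 := Real.exp_pos (-(3 * t / 4))
        nlinarith [mul_nonneg hC e1.le]

theorem int_exp_sub {g : ℝ → ℝ} : ∫ y in Ioi (0:ℝ), g y = ∫ u : ℝ, Real.exp u * g (Real.exp u) := by
  have h := integral_image_eq_integral_abs_deriv_smul (s := univ) (f := Real.exp) (f' := Real.exp)
    MeasurableSet.univ (fun x _ => (Real.hasDerivAt_exp x).hasDerivWithinAt)
    (Real.exp_injective.injOn) g
  rw [image_univ, Real.range_exp] at h
  rw [h, setIntegral_univ]
  apply integral_congr_ae
  filter_upwards with u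
  rw [abs_of_pos (Real.exp_pos _), smul_eq_mul]

theorem int_exp_sub_integrable {g : ℝ → ℝ} : IntegrableOn g (Ioi 0) ↔
    Integrable (fun u : ℝ => Real.exp u * g (Real.exp u)) := by
  have h := integrableOn_image_iff_integrableOn_abs_deriv_smul (s := univ) (f := Real.exp) (f' := Real.exp)
    MeasurableSet.univ (fun x _ => (Real.hasDerivAt_exp x).hasDerivWithinAt)
    (Real.exp_injective.injOn) g
  rw [image_univ, Real.range_exp] at h
  rw [h, integrableOn_univ]
  apply integrable_congr
  filter_upwards with u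
  rw [abs_of_pos (Real.exp_pos _), smul_eq_mul]

theorem kr_fast : Fast (fun u => (kr u : ℂ)) := by
  refine ⟨by have := kr_cont; fun_prop, ?_⟩
  intro b
  obtain ⟨C, hC0, hC⟩ := ker_kr.fast b
  refine ⟨C, hC0, fun t => ?_⟩
  rw [Complex.norm_real, Real.norm_eq_abs, abs_of_pos (kr_pos _)]
  exact hC t

theorem K_exp_int : ∫ u : ℝ, K (Real.exp u) = 1 / 2 := by
  have h := kr_lap (-(1 / 2))
  rw [show (1 / 2 + -(1 / 2) : ℂ) = 0 by norm_num, xi_zero, mul_one] at h
  have h2 : (∫ u : ℝ, ((K (Real.exp u) : ℝ) : ℂ)) = 1 / 2 := by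
    rw [← h]
    apply integral_congr_ae
    filter_upwards with u
    unfold kr
    have : cexp (-(1 / 2) * u) = ((Real.exp (-u / 2) : ℝ) : ℂ) := by
      rw [Complex.ofReal_exp]; congr 1; push_cast; ring
    rw [this]
    have h3 : Real.exp (u / 2) * Real.exp (-u / 2) = 1 := by
      rw [← Real.exp_add]; rw [show u / 2 + -u / 2 = 0 by ring, Real.exp_zero]
    rw [← Complex.ofReal_mul, mul_assoc, h3, mul_one]
  rw [integral_complex_ofReal] at h2
  have h3 : ((1 / 2 : ℝ) : ℂ) = 1 / 2 := by push_cast; rfl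
  rw [← h3] at h2
  exact_mod_cast h2

theorem K_exp_bd (b : ℝ) : ∃ C : ℝ, 0 ≤ C ∧ ∀ u : ℝ, K (Real.exp u) ≤ C * Real.exp (-(b * |u|)) := by
  obtain ⟨C, hC0, hC⟩ := ker_kr.fast (b + 1 / 2)
  refine ⟨C, hC0, fun u => ?_⟩
  have h1 : K (Real.exp u) = kr u * Real.exp (-u / 2) := by
    unfold kr
    have h3 : Real.exp (u / 2) * Real.exp (-u / 2) = 1 := by
      rw [← Real.exp_add]; rw [show u / 2 + -u / 2 = 0 by ring, Real.exp_zero]
    rw [mul_assoc, h3, mul_one]
  rw [h1]
  calc kr u * Real.exp (-u / 2) ≤ (C * Real.exp (-((b + 1 / 2) * |u|))) * Real.exp (-u / 2) :=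
        mul_le_mul_of_nonneg_right (hC u) (Real.exp_pos _).le
    _ = C * Real.exp (-((b + 1 / 2) * |u|) + -u / 2) := by rw [mul_assoc, ← Real.exp_add]
    _ ≤ _ := by
        apply mul_le_mul_of_nonneg_left _ hC0
        apply Real.exp_le_exp.mpr
        linarith [neg_abs_le u]

theorem Kexp_cont : Continuous (fun u : ℝ => K (Real.exp u)) := by
  have h : (fun u : ℝ => K (Real.exp u)) = fun u => kr u * Real.exp (-u / 2) := by
    ext u
    unfold kr
    have h3 : Real.exp (u / 2) * Real.exp (-u / 2) = 1 := by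
      rw [← Real.exp_add]; rw [show u / 2 + -u / 2 = 0 by ring, Real.exp_zero]
    rw [mul_assoc, h3, mul_one]
  rw [h]
  exact kr_cont.mul (by fun_prop)

theorem rr_conv (t : ℝ) : ∫ u : ℝ, rr (t + u) * kr u = -ee t := by
  -- pull out exp (-t/2)
  have h1 : ∀ u : ℝ, rr (t + u) * kr u =
      Real.exp (-t / 2) * (2 * K (Real.exp u) - 2 * (Qf (Real.exp (-t) * Real.exp (-u)) * K (Real.exp u))) := by
    intro u
    unfold rr kr
    rw [← Real.exp_add, show -t + -u = -(t + u) by ring]
    have : Real.exp (-(t + u) / 2) * Real.exp (u / 2) = Real.exp (-t / 2) := by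
      rw [← Real.exp_add]; congr 1; ring
    rw [← this]; ring
  simp_rw [h1]
  rw [integral_const_mul]
  have hK : Integrable (fun u : ℝ => K (Real.exp u)) := by
    obtain ⟨C, hC0, hC⟩ := K_exp_bd 1
    refine Integrable.mono' ((integrable_exp_abs one_pos).const_mul C) Kexp_cont.aestronglyMeasurable ?_
    filter_upwards with u
    rw [Real.norm_eq_abs, abs_of_pos (K_pos (Real.exp_pos _))]
    exact hC u
  have hQK : Integrable (fun u : ℝ => Qf (Real.exp (-t) * Real.exp (-u)) * K (Real.exp u)) := by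
    obtain ⟨C, hC0, hC⟩ := K_exp_bd (1 + 1)
    refine Integrable.mono' ((integrable_exp_abs one_pos).const_mul (C54 * Real.exp (|t|) * C)) ?_ ?_
    · apply AEStronglyMeasurable.mul
      · have := Qf_meas
        exact (this.comp (by fun_prop : Measurable (fun u : ℝ => Real.exp (-t) * Real.exp (-u)))).aestronglyMeasurable
      · exact Kexp_cont.aestronglyMeasurable
    · filter_upwards with u
      rw [Real.norm_eq_abs, abs_mul, abs_of_pos (K_pos (Real.exp_pos _))]
      have h2 := Qf_le (z := Real.exp (-t) * Real.exp (-u)) (by positivity)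
      have h3 : (Real.exp (-t) * Real.exp (-u)) ^ (1 / 4 : ℝ) ≤ Real.exp (|t|) * Real.exp (|u|) := by
        rw [← Real.exp_add, ← Real.exp_mul, ← Real.exp_add]
        apply Real.exp_le_exp.mpr
        have := neg_abs_le t
        have := neg_abs_le u
        have := abs_nonneg t
        have := abs_nonneg u
        linarith
      have hC54 := C54_nonneg
      calc |Qf (Real.exp (-t) * Real.exp (-u))| * K (Real.exp u)
          ≤ (C54 * (Real.exp (|t|) * Real.exp (|u|))) * (C * Real.exp (-((1 + 1) * |u|))) := by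
            apply mul_le_mul (h2.trans (mul_le_mul_of_nonneg_left h3 hC54)) (hC u)
              (K_pos (Real.exp_pos _)).le (by positivity)
        _ = C54 * Real.exp (|t|) * C * (Real.exp (|u|) * Real.exp (-((1 + 1) * |u|))) := by ring
        _ = _ := by rw [← Real.exp_add]; congr 2; ring
  rw [integral_sub (hK.const_mul 2) (hQK.const_mul 2), integral_const_mul, integral_const_mul, K_exp_int]
  have h4 : ∫ u : ℝ, Qf (Real.exp (-t) * Real.exp (-u)) * K (Real.exp u) = (1 + Phi (Real.exp (-t))) / 2 := by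
    rw [← Qf_conv (Real.exp_pos (-t)), int_exp_sub, ← integral_neg_eq_self]
    apply integral_congr_ae
    filter_upwards with u
    have h5 := K_inv (Real.exp_pos u)
    rw [one_div, ← Real.exp_neg] at h5
    rw [neg_neg, h5]
    ring
  rw [h4]
  unfold ee
  ring

end Pool.Agent.Helper71.MR
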