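import Pool.Agent.Helper71.MR.Rf

open Complex Filter Topology MeasureTheory Set
open Pool.Agent.Helper57.Zeta
open Pool.Agent.Helper18.ES (kap K K_inv K_pos GA S mu Phi GA_mu mu_le mu_conv hasDerivAt_Phi_scaled
  hasDerivAt_Phi summable_kap K_le_pow vv le_vv vv_ge_one mellin_kap mellin_K mellinConv_K)

namespace Pool.Agent.Helper71.MR

theorem Cin_meas : Measurable Cin := by
  unfold Cin
  have h : StronglyMeasurable (fun z : ℝ => ∫ y in Ioc (0:ℝ) 1, (fun p : ℝ × ℝ => (1 - Real.cos (p.1 * p.2)) / p.2) (z, y)) := by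
    apply StronglyMeasurable.integral_prod_right (f := fun z y : ℝ => (1 - Real.cos (z * y)) / y)
    apply Measurable.stronglyMeasurable
    simp only [Function.uncurry_def]
    fun_prop
  exact h.measurable

/-- the dual sum -/
noncomputable def Qf (z : ℝ) : ℝ := ∑' k : ℕ, mu k / k * Cin (2 * Real.pi * z / k)

theorem Qf_meas : Measurable Qf := by
  unfold Qf
  apply Measurable.tsum
  intro k
  have := Cin_meas
  fun_prop

theorem mu_zero : mu 0 = 0 := by unfold mu; simp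

theorem Qf_term_rt {z : ℝ} (hz : 0 ≤ z) (k : ℕ) : |mu k / k * Cin (2 * Real.pi * z / k)| ≤
    16 * z ^ (1 / 4 : ℝ) * (1 / (k : ℝ) ^ (5 / 4 : ℝ)) := by
  rcases Nat.eq_zero_or_pos k with h | h
  · subst h
    rw [mu_zero]; simp
  have hk : (0:ℝ) < k := by exact_mod_cast h
  rw [abs_mul, abs_div, abs_of_pos hk, abs_of_nonneg (Cin_nonneg _)]
  have h1 := Cin_le_rt (z := 2 * Real.pi * z / k) (by positivity)
  have h2 : (2 * Real.pi * z / k) ^ (1 / 4 : ℝ) ≤ 2 * z ^ (1 / 4 : ℝ) / (k : ℝ) ^ (1 / 4 : ℝ) := by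
    rw [Real.div_rpow (by positivity) hk.le, Real.mul_rpow (by positivity) hz]
    apply div_le_div_of_nonneg_right _ (by positivity)
    apply mul_le_mul_of_nonneg_right _ (by positivity)
    have h3 : (2 * Real.pi) ^ (1 / 4 : ℝ) ≤ (16:ℝ) ^ (1 / 4 : ℝ) := by
      apply Real.rpow_le_rpow (by positivity) _ (by norm_num)
      have := Real.pi_lt_four
      linarith
    have h4 : (16:ℝ) ^ (1 / 4 : ℝ) = 2 := by
      rw [show (16:ℝ) = 2 ^ (4:ℝ) by norm_num, ← Real.rpow_mul (by norm_num)]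
      norm_num
    linarith
  calc |mu k| / k * Cin (2 * Real.pi * z / k) ≤ 1 / k * (8 * (2 * z ^ (1 / 4 : ℝ) / (k : ℝ) ^ (1 / 4 : ℝ))) := by
        apply mul_le_mul _ (h1.trans (mul_le_mul_of_nonneg_left h2 (by norm_num))) (Cin_nonneg _) (by positivity)
        exact div_le_div_of_nonneg_right (mu_le k) hk.le
    _ = 16 * z ^ (1 / 4 : ℝ) * (1 / (k : ℝ) ^ (5 / 4 : ℝ)) := by
        rw [show (5 / 4 : ℝ) = 1 + 1 / 4 by norm_num, Real.rpow_add hk, Real.rpow_one]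
        field_simp
        ring

theorem summable_54 : Summable (fun k : ℕ => 1 / (k : ℝ) ^ (5 / 4 : ℝ)) :=
  Real.summable_one_div_nat_rpow.mpr (by norm_num)

noncomputable def C54 : ℝ := 16 * ∑' k : ℕ, 1 / (k : ℝ) ^ (5 / 4 : ℝ)

theorem C54_nonneg : 0 ≤ C54 := by
  unfold C54
  have : 0 ≤ ∑' k : ℕ, 1 / (k : ℝ) ^ (5 / 4 : ℝ) := tsum_nonneg (fun k => by positivity)
  positivity

theorem Qf_summable {z : ℝ} (hz : 0 ≤ z) : Summable (fun k : ℕ => mu k / k * Cin (2 * Real.pi * z / k)) :=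
  Summable.of_norm_bounded (summable_54.mul_left (16 * z ^ (1 / 4 : ℝ))) (fun k => Qf_term_rt hz k)

theorem Qf_le {z : ℝ} (hz : 0 ≤ z) : |Qf z| ≤ C54 * z ^ (1 / 4 : ℝ) := by
  unfold Qf C54
  have h := tsum_of_norm_bounded (f := fun k : ℕ => mu k / k * Cin (2 * Real.pi * z / k)) ((summable_54.mul_left (16 * z ^ (1 / 4 : ℝ))).hasSum) (fun k => Qf_term_rt hz k)
  rw [tsum_mul_left] at h
  rw [← Real.norm_eq_abs]
  refine h.trans (le_of_eq (by ring))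

/-- the duality identity -/
theorem Qf_conv {ξ : ℝ} (hξ : 0 < ξ) : ∫ y in Ioi (0:ℝ), Qf (ξ * y) * K y = (1 + Phi ξ) / 2 := by
  set F : ℕ+ × ℕ+ → ℝ → ℝ := fun p y =>
    (mu p.1 / (p.1 : ℕ) * Cin (2 * Real.pi * (ξ * y) / (p.1 : ℕ))) * kap (((p.2 : ℕ) : ℝ) * y) with hF
  have hn0 : ∀ n : ℕ+, (0 : ℝ) < ((n : ℕ) : ℝ) := fun n => by exact_mod_cast n.pos
  have hscale : ∀ p : ℕ+ × ℕ+, ∀ G : ℝ → ℝ, (∫ y in Ioi (0:ℝ), G (((p.2 : ℕ) : ℝ) * y)) =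
      1 / ((p.2 : ℕ) : ℝ) * ∫ v in Ioi (0:ℝ), G v := by
    intro p G
    have h := integral_comp_mul_left_Ioi G 0 (hn0 p.2)
    rw [mul_zero] at h
    rw [h, smul_eq_mul, one_div]
  have hFeq : ∀ p : ℕ+ × ℕ+, ∀ y : ℝ, F p y = (fun v : ℝ => mu p.1 / (p.1 : ℕ) *
      (Cin (2 * Real.pi * (ξ / ((p.1 : ℕ) * (p.2 : ℕ))) * v) * kap v)) (((p.2 : ℕ) : ℝ) * y) := by
    intro p y
    have h1 := (hn0 p.1).ne'
    have h2 := (hn0 p.2).ne'
    simp only [hF]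
    have : 2 * Real.pi * (ξ * y) / ((p.1 : ℕ) : ℝ) =
        2 * Real.pi * (ξ / ((p.1 : ℕ) * (p.2 : ℕ))) * (((p.2 : ℕ) : ℝ) * y) := by
      field_simp
    rw [this]; ring
  have hpos : ∀ p : ℕ+ × ℕ+, 0 < ξ / (((p.1 : ℕ) : ℝ) * ((p.2 : ℕ) : ℝ)) := fun p =>
    div_pos hξ (mul_pos (hn0 _) (hn0 _))
  have hint : ∀ p : ℕ+ × ℕ+, Integrable (F p) (volume.restrict (Ioi 0)) := by
    intro p
    have h1 := ((cin_kap (hpos p)).1.const_mul (mu p.1 / (p.1 : ℕ)))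
    have h2 := (integrableOn_Ioi_comp_mul_left_iff (fun v : ℝ => mu p.1 / (p.1 : ℕ) *
      (Cin (2 * Real.pi * (ξ / ((p.1 : ℕ) * (p.2 : ℕ))) * v) * kap v)) 0 (hn0 p.2)).mpr (by
        rw [mul_zero]; exact h1)
    exact h2.congr (by filter_upwards with y; rw [hFeq p y])
  have hval : ∀ p : ℕ+ × ℕ+, (∫ y in Ioi (0 : ℝ), F p y) =
      mu p.1 * (1 / (((p.1 : ℕ) : ℝ) * ((p.2 : ℕ) : ℝ)) * ((1 + Phi (ξ / (((p.1 : ℕ) : ℝ) * ((p.2 : ℕ) : ℝ)))) / 2)) := by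
    intro p
    simp_rw [hFeq p]
    rw [hscale p (fun v : ℝ => mu p.1 / (p.1 : ℕ) *
      (Cin (2 * Real.pi * (ξ / ((p.1 : ℕ) * (p.2 : ℕ))) * v) * kap v)), integral_const_mul,
      (cin_kap (hpos p)).2]
    have h1 := (hn0 p.1).ne'
    have h2 := (hn0 p.2).ne'
    field_simp
  set V : ℝ := ∫ v in Ioi (0:ℝ), |v * kap v| with hV
  have hV0 : 0 ≤ V := integral_nonneg (fun _ => abs_nonneg _)
  have hnorm : ∀ p : ℕ+ × ℕ+, (∫ y in Ioi (0 : ℝ), ‖F p y‖) ≤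
      2 * Real.pi * ξ * V * ((1 / ((p.1 : ℕ) : ℝ) ^ 2) * (1 / ((p.2 : ℕ) : ℝ) ^ 2)) := by
    intro p
    have h1 := (hn0 p.1).ne'
    have h2 := (hn0 p.2).ne'
    have e1 : (∫ y in Ioi (0 : ℝ), ‖F p y‖) = 1 / ((p.2 : ℕ) : ℝ) * ∫ v in Ioi (0:ℝ), ‖mu p.1 / (p.1 : ℕ) *
      (Cin (2 * Real.pi * (ξ / ((p.1 : ℕ) * (p.2 : ℕ))) * v) * kap v)‖ := by
      simp_rw [hFeq p]
      exact hscale p (fun v : ℝ => ‖mu p.1 / (p.1 : ℕ) *
        (Cin (2 * Real.pi * (ξ / ((p.1 : ℕ) * (p.2 : ℕ))) * v) * kap v)‖)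
    have e2 : (∫ v in Ioi (0:ℝ), ‖mu p.1 / (p.1 : ℕ) *
      (Cin (2 * Real.pi * (ξ / ((p.1 : ℕ) * (p.2 : ℕ))) * v) * kap v)‖) ≤
      ∫ v in Ioi (0:ℝ), (1 / ((p.1 : ℕ) : ℝ) * (2 * Real.pi * (ξ / ((p.1 : ℕ) * (p.2 : ℕ))))) * |v * kap v| := by
      apply setIntegral_mono_on
      · exact ((cin_kap (hpos p)).1.const_mul (mu p.1 / (p.1 : ℕ))).norm
      · exact (vkap_int.abs.const_mul _).integrableOn
      · exact measurableSet_Ioi
      · intro v hv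
        have hv0 : 0 < v := hv
        rw [Real.norm_eq_abs, abs_mul, abs_mul, abs_div, abs_of_pos (hn0 p.1), abs_of_nonneg (Cin_nonneg _),
          abs_mul, abs_of_pos hv0]
        have h3 := Cin_le_lin (z := 2 * Real.pi * (ξ / ((p.1 : ℕ) * (p.2 : ℕ))) * v) (by
          have := (hpos p).le; positivity)
        have h4 : |mu p.1| / ((p.1 : ℕ) : ℝ) ≤ 1 / ((p.1 : ℕ) : ℝ) :=
          div_le_div_of_nonneg_right (mu_le _) (hn0 _).le
        calc |mu p.1| / ((p.1 : ℕ) : ℝ) * (Cin (2 * Real.pi * (ξ / ((p.1 : ℕ) * (p.2 : ℕ))) * v) * |kap v|)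
            ≤ 1 / ((p.1 : ℕ) : ℝ) * ((2 * Real.pi * (ξ / ((p.1 : ℕ) * (p.2 : ℕ))) * v) * |kap v|) := by
              apply mul_le_mul h4 (mul_le_mul_of_nonneg_right h3 (abs_nonneg _))
                (mul_nonneg (Cin_nonneg _) (abs_nonneg _)) (by positivity)
          _ = _ := by ring
    rw [integral_const_mul, ← hV] at e2
    rw [e1]
    calc _ ≤ 1 / ((p.2 : ℕ) : ℝ) * (1 / ((p.1 : ℕ) : ℝ) * (2 * Real.pi * (ξ / ((p.1 : ℕ) * (p.2 : ℕ)))) * V) :=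
          mul_le_mul_of_nonneg_left e2 (by positivity)
      _ = _ := by field_simp
  have hs1 : Summable fun n : ℕ+ => (1 : ℝ) / ((n : ℕ) : ℝ) ^ 2 :=
    (Real.summable_one_div_nat_pow.mpr (by norm_num : 1 < 2)).comp_injective PNat.coe_injective
  have hsum : Summable fun p : ℕ+ × ℕ+ => ∫ y in Ioi (0 : ℝ), ‖F p y‖ := by
    apply Summable.of_nonneg_of_le (fun p => integral_nonneg (fun _ => norm_nonneg _)) hnorm
    apply Summable.mul_left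
    exact hs1.mul_of_nonneg hs1 (fun _ => by positivity) (fun _ => by positivity)
  have hS := hasSum_integral_of_summable_integral_norm hint hsum
  simp_rw [hval] at hS
  have hfin : (∫ y in Ioi (0 : ℝ), ∑' p : ℕ+ × ℕ+, F p y) = ∫ y in Ioi (0:ℝ), Qf (ξ * y) * K y := by
    apply setIntegral_congr_fun measurableSet_Ioi
    intro y hy
    have hy0 : (0 : ℝ) < y := hy
    simp only [hF]
    have hs2 : Summable fun m : ℕ+ => kap (((m : ℕ) : ℝ) * y) := summable_kap hy0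
    have hs3' := Qf_summable (z := ξ * y) (by positivity)
    have hs3 : Summable fun n : ℕ+ => mu n / (n : ℕ) * Cin (2 * Real.pi * (ξ * y) / (n : ℕ)) :=
      hs3'.comp_injective PNat.coe_injective
    rw [← tsum_mul_tsum_of_summable_norm hs3.norm hs2.norm]
    unfold K Qf
    congr 1
    rw [tsum_pnat_eq_tsum_succ (f := fun n : ℕ => mu n / n * Cin (2 * Real.pi * (ξ * y) / n)),
      hs3'.tsum_eq_zero_add, mu_zero]
    simp
  rw [hfin] at hS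
  -- Dirichlet convolution
  have h2 := (sigmaAntidiagonalEquivProd.hasSum_iff (f := fun p : ℕ+ × ℕ+ =>
    mu p.1 * (1 / (((p.1 : ℕ) : ℝ) * ((p.2 : ℕ) : ℝ)) * ((1 + Phi (ξ / (((p.1 : ℕ) : ℝ) * ((p.2 : ℕ) : ℝ)))) / 2)))).mpr hS
  have h3 := h2.sigma (g := fun k : ℕ+ =>
    (∑ d ∈ (k : ℕ).divisorsAntidiagonal, mu d.1) * (1 / ((k : ℕ) : ℝ) * ((1 + Phi (ξ / ((k : ℕ) : ℝ))) / 2))) (fun k => by
    have h4 := hasSum_fintype (fun c : (k : ℕ).divisorsAntidiagonal =>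
      ((fun p : ℕ+ × ℕ+ => mu p.1 * (1 / (((p.1 : ℕ) : ℝ) * ((p.2 : ℕ) : ℝ)) *
        ((1 + Phi (ξ / (((p.1 : ℕ) : ℝ) * ((p.2 : ℕ) : ℝ)))) / 2))) ∘ sigmaAntidiagonalEquivProd) ⟨k, c⟩)
    convert! h4 using 1
    rw [Finset.sum_mul, ← Finset.sum_coe_sort]
    apply Finset.sum_congr rfl
    intro c _
    have hc := (Nat.mem_divisorsAntidiagonal.mp c.2).1
    simp only [Function.comp, sigmaAntidiagonalEquivProd, Equiv.coe_fn_mk, divisorsAntidiagonalFactors,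
      PNat.mk_coe]
    have hc' : ((k : ℕ) : ℝ) = ((c : ℕ × ℕ).1 : ℝ) * ((c : ℕ × ℕ).2 : ℝ) := by
      rw [← Nat.cast_mul, hc]
    rw [hc'])
  simp_rw [mu_conv] at h3
  have h5 : HasSum (fun k : ℕ+ => (if k = 1 then (1 : ℝ) else 0) * (1 / ((k : ℕ) : ℝ) * ((1 + Phi (ξ / ((k : ℕ) : ℝ))) / 2)))
      ((1 + Phi ξ) / 2) := by
    have := hasSum_ite_eq (1 : ℕ+) ((1 + Phi ξ) / 2)
    refine this.congr_fun ?_
    intro k
    by_cases hk : k = 1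
    · subst hk; simp
    · simp [hk]
  exact h3.unique h5

end Pool.Agent.Helper71.MR
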