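import Mathlib
import Pool.Agent.Helper18.ES.Theta

open Complex Filter Topology MeasureTheory Set
open scoped FourierTransform
open Pool.Agent.Helper18.ES (kap)

namespace Pool.Agent.Helper71.MR

noncomputable def gz (x : ℝ) : ℂ := cexp (-(Real.pi * (x : ℂ) ^ 2))

theorem gz_eq (x : ℝ) : gz x = ((Real.exp (-(Real.pi * x ^ 2)) : ℝ) : ℂ) := by
  unfold gz; push_cast; rfl

theorem gz_fourier : 𝓕 gz = gz := by
  have h := fourier_gaussian_pi (b := 1) (by norm_num)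
  have e1 : (fun x : ℝ => cexp (-Real.pi * 1 * (x : ℂ) ^ 2)) = gz := by
    ext x; unfold gz; congr 1; ring
  have e2 : (fun t : ℝ => 1 / (1:ℂ) ^ (1 / 2 : ℂ) * cexp (-Real.pi / 1 * (t : ℂ) ^ 2)) = gz := by
    ext x; unfold gz; rw [Complex.one_cpow, div_one, one_mul]; congr 1; ring
  rw [e1, e2] at h
  exact h

theorem gz_int (n : ℕ) : Integrable (fun x : ℝ => x ^ n • gz x) := by
  have h := integrable_rpow_mul_exp_neg_mul_sq Real.pi_pos (s := n) (by
    have : (0:ℝ) ≤ n := Nat.cast_nonneg n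
    linarith)
  have h2 := h.ofReal (𝕜 := ℂ)
  refine h2.congr ?_
  filter_upwards with x
  rw [Real.rpow_natCast, gz_eq, Complex.real_smul, show -Real.pi * x ^ 2 = -(Real.pi * x ^ 2) by ring,
    ← Complex.ofReal_mul]
  rfl

theorem gz_hasDeriv (x : ℝ) : HasDerivAt gz (-(2 * Real.pi * x) * gz x) x := by
  have h1 : HasDerivAt (fun x : ℝ => (x : ℂ)) 1 x := Complex.ofRealCLM.hasDerivAt
  have h0 : HasDerivAt (fun x : ℝ => (x : ℂ) ^ 2) ((2 : ℕ) * (x : ℂ) ^ (2 - 1) * 1) x := h1.pow 2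
  have h3 : HasDerivAt (fun x : ℝ => -(Real.pi * (x : ℂ) ^ 2)) (-(Real.pi * ((2 : ℕ) * (x : ℂ) ^ (2 - 1) * 1))) x :=
    (h0.const_mul (Real.pi : ℂ)).neg
  have h2 : HasDerivAt gz (cexp (-(Real.pi * (x : ℂ) ^ 2)) * -(Real.pi * ((2 : ℕ) * (x : ℂ) ^ (2 - 1) * 1))) x := h3.cexp
  refine h2.congr_deriv ?_
  unfold gz
  push_cast
  ring

theorem poly_gz {p p' : ℝ → ℂ} (hp : ∀ x, HasDerivAt p (p' x) x) :
    deriv (fun x => p x * gz x) = fun x => (p' x - 2 * Real.pi * x * p x) * gz x := by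
  ext x
  have h : HasDerivAt (fun x => p x * gz x) (p' x * gz x + p x * (-(2 * Real.pi * x) * gz x)) x :=
    (hp x).mul (gz_hasDeriv x)
  rw [h.deriv]
  ring

theorem d1 : deriv gz = fun x : ℝ => (-(2 * Real.pi) * (x : ℂ)) * gz x := by
  ext x
  rw [(gz_hasDeriv x).deriv]
  ring

theorem hx (x : ℝ) : HasDerivAt (fun x : ℝ => (x : ℂ)) 1 x := Complex.ofRealCLM.hasDerivAt

theorem hx2 (x : ℝ) : HasDerivAt (fun x : ℝ => (x : ℂ) ^ 2) ((2 : ℕ) * (x : ℂ) ^ (2 - 1) * 1) x := (hx x).pow 2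
theorem hx3 (x : ℝ) : HasDerivAt (fun x : ℝ => (x : ℂ) ^ 3) ((3 : ℕ) * (x : ℂ) ^ (3 - 1) * 1) x := (hx x).pow 3

theorem d2 : deriv (fun x : ℝ => (-(2 * Real.pi) * (x : ℂ)) * gz x) =
    fun x : ℝ => (-(2 * Real.pi) + 4 * Real.pi ^ 2 * (x : ℂ) ^ 2) * gz x := by
  rw [poly_gz (p' := fun _ => -(2 * Real.pi) * 1) (fun x => (hx x).const_mul _)]
  ext x; ring

theorem d3 : deriv (fun x : ℝ => (-(2 * Real.pi) + 4 * Real.pi ^ 2 * (x : ℂ) ^ 2) * gz x) =
    fun x : ℝ => (12 * Real.pi ^ 2 * (x : ℂ) - 8 * Real.pi ^ 3 * (x : ℂ) ^ 3) * gz x := by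
  rw [poly_gz (p := fun x : ℝ => -(2 * Real.pi) + 4 * Real.pi ^ 2 * (x : ℂ) ^ 2)
    (p' := fun x : ℝ => 4 * Real.pi ^ 2 * ((2 : ℕ) * (x : ℂ) ^ (2 - 1) * 1))
    (fun x => ((hx2 x).const_mul _).const_add _)]
  ext x; push_cast; ring

theorem d4 : deriv (fun x : ℝ => (12 * Real.pi ^ 2 * (x : ℂ) - 8 * Real.pi ^ 3 * (x : ℂ) ^ 3) * gz x) =
    fun x : ℝ => (12 * Real.pi ^ 2 - 48 * Real.pi ^ 3 * (x : ℂ) ^ 2 + 16 * Real.pi ^ 4 * (x : ℂ) ^ 4) * gz x := by
  rw [poly_gz (p := fun x : ℝ => 12 * Real.pi ^ 2 * (x : ℂ) - 8 * Real.pi ^ 3 * (x : ℂ) ^ 3)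
    (p' := fun x : ℝ => 12 * Real.pi ^ 2 * 1 - 8 * Real.pi ^ 3 * ((3 : ℕ) * (x : ℂ) ^ (3 - 1) * 1))
    (fun x => ((hx x).const_mul _).sub ((hx3 x).const_mul _))]
  ext x; push_cast; ring

theorem F2 : 𝓕 (fun x : ℝ => (-2 * Real.pi * I * x : ℂ) ^ 2 • gz x) =
    fun x : ℝ => (-(2 * Real.pi) + 4 * Real.pi ^ 2 * (x : ℂ) ^ 2) * gz x := by
  have h := Real.iteratedDeriv_fourier (f := gz) (N := ⊤) (n := 2) (fun n _ => gz_int n) le_top
  rw [gz_fourier] at h
  rw [← h, iteratedDeriv_succ, iteratedDeriv_one, d1, d2]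

theorem F4 : 𝓕 (fun x : ℝ => (-2 * Real.pi * I * x : ℂ) ^ 4 • gz x) =
    fun x : ℝ => (12 * Real.pi ^ 2 - 48 * Real.pi ^ 3 * (x : ℂ) ^ 2 + 16 * Real.pi ^ 4 * (x : ℂ) ^ 4) * gz x := by
  have h := Real.iteratedDeriv_fourier (f := gz) (N := ⊤) (n := 4) (fun n _ => gz_int n) le_top
  rw [gz_fourier] at h
  rw [← h, iteratedDeriv_succ, iteratedDeriv_succ, iteratedDeriv_succ, iteratedDeriv_one, d1, d2, d3, d4]

theorem kap_int : Integrable kap := by
  have h := ((gz_int 4).const_mul (4 * Real.pi ^ 2 : ℂ)).sub ((gz_int 2).const_mul (6 * Real.pi : ℂ))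
  have h2 := h.re
  refine h2.congr ?_
  filter_upwards with x
  simp only [Pi.sub_apply, gz_eq, Complex.real_smul]
  unfold kap
  have : ((4 * Real.pi ^ 2 : ℂ) * (((x ^ 4 : ℝ) : ℂ) * ((Real.exp (-(Real.pi * x ^ 2)) : ℝ) : ℂ)) -
      (6 * Real.pi : ℂ) * (((x ^ 2 : ℝ) : ℂ) * ((Real.exp (-(Real.pi * x ^ 2)) : ℝ) : ℂ))) =
      (((4 * Real.pi ^ 2 * x ^ 4 - 6 * Real.pi * x ^ 2) * Real.exp (-(Real.pi * x ^ 2)) : ℝ) : ℂ) := by
    push_cast; ring
  simp only [this]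
  rfl

/-- the Gaussian kernel of the Riemann function is its own Fourier transform -/
theorem kap_fourier (ξ : ℝ) : 𝓕 (fun x : ℝ => (kap x : ℂ)) ξ = kap ξ := by
  have hk : (fun x : ℝ => (kap x : ℂ)) = fun x : ℝ =>
      (1 / (4 * Real.pi ^ 2) : ℂ) • ((-2 * Real.pi * I * x : ℂ) ^ 4 • gz x) +
      (3 / (2 * Real.pi) : ℂ) • ((-2 * Real.pi * I * x : ℂ) ^ 2 • gz x) := by
    ext x
    rw [gz_eq]
    unfold kap
    have hpi : (Real.pi : ℂ) ≠ 0 := by exact_mod_cast Real.pi_pos.ne'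
    simp only [smul_eq_mul]
    have e4 : (-2 * (Real.pi : ℂ) * I * x) ^ 4 = 16 * Real.pi ^ 4 * x ^ 4 := by
      have : I ^ 4 = 1 := Complex.I_pow_four
      calc (-2 * (Real.pi : ℂ) * I * x) ^ 4 = 16 * Real.pi ^ 4 * x ^ 4 * I ^ 4 := by ring
        _ = _ := by rw [this, mul_one]
    have e2 : (-2 * (Real.pi : ℂ) * I * x) ^ 2 = -(4 * Real.pi ^ 2 * x ^ 2) := by
      have : I ^ 2 = -1 := Complex.I_sq
      calc (-2 * (Real.pi : ℂ) * I * x) ^ 2 = 4 * Real.pi ^ 2 * x ^ 2 * I ^ 2 := by ring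
        _ = _ := by rw [this]; ring
    rw [e4, e2]
    push_cast
    field_simp
    ring
  have i4 : Integrable (fun x : ℝ => (-2 * Real.pi * I * x : ℂ) ^ 4 • gz x) := by
    refine ((gz_int 4).const_mul ((-2 * Real.pi * I : ℂ) ^ 4)).congr ?_
    filter_upwards with x
    simp only [smul_eq_mul, Complex.real_smul]; push_cast; ring
  have i2 : Integrable (fun x : ℝ => (-2 * Real.pi * I * x : ℂ) ^ 2 • gz x) := by
    refine ((gz_int 2).const_mul ((-2 * Real.pi * I : ℂ) ^ 2)).congr ?_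
    filter_upwards with x
    simp only [smul_eq_mul, Complex.real_smul]; push_cast; ring
  have key : ∀ f : ℝ → ℂ, 𝓕 f ξ = ∫ v : ℝ, cexp (-2 * Real.pi * v * ξ * I) • f v := by
    intro f
    rw [Real.fourier_real_eq_integral_exp_smul]
    apply integral_congr_ae
    filter_upwards with v
    congr 2
    push_cast; ring
  have hb : ∀ f : ℝ → ℂ, Integrable f → Integrable (fun v : ℝ => cexp (-2 * Real.pi * v * ξ * I) • f v) := by
    intro f hf
    refine (hf.bdd_mul (c := 1) (f := fun v : ℝ => cexp (-2 * Real.pi * v * ξ * I)) ?_ ?_)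
    · apply Continuous.aestronglyMeasurable; fun_prop
    · filter_upwards with v
      have : (-2 * Real.pi * v * ξ * I : ℂ) = ((-2 * Real.pi * v * ξ : ℝ) : ℂ) * I := by push_cast; ring
      rw [this, Complex.norm_exp_ofReal_mul_I]
  have h4 := congrFun F4 ξ
  have h2 := congrFun F2 ξ
  rw [key] at h4 h2 ⊢
  have : (∫ v : ℝ, cexp (-2 * Real.pi * v * ξ * I) • ((kap v : ℝ) : ℂ)) =
      ∫ v : ℝ, ((1 / (4 * Real.pi ^ 2) : ℂ) * (cexp (-2 * Real.pi * v * ξ * I) • ((-2 * Real.pi * I * v : ℂ) ^ 4 • gz v)) +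
      (3 / (2 * Real.pi) : ℂ) * (cexp (-2 * Real.pi * v * ξ * I) • ((-2 * Real.pi * I * v : ℂ) ^ 2 • gz v))) := by
    apply integral_congr_ae
    filter_upwards with v
    have := congrFun hk v
    rw [this]
    simp only [smul_eq_mul]
    ring
  rw [this, integral_add ((hb _ i4).const_mul _) ((hb _ i2).const_mul _), integral_const_mul,
    integral_const_mul, h4, h2]
  rw [gz_eq]
  unfold kap
  have hpi : (Real.pi : ℂ) ≠ 0 := by exact_mod_cast Real.pi_pos.ne'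
  push_cast
  field_simp
  ring

theorem kap_even (x : ℝ) : kap (-x) = kap x := by unfold kap; ring_nf

theorem kap_cos (ξ : ℝ) : ∫ v in Ioi (0:ℝ), Real.cos (2 * Real.pi * v * ξ) * kap v = kap ξ / 2 := by
  have h := kap_fourier ξ
  rw [Real.fourier_real_eq_integral_exp_smul] at h
  have hi : Integrable (fun v : ℝ => Real.cos (2 * Real.pi * v * ξ) * kap v) := by
    refine kap_int.bdd_mul (c := 1) (f := fun v : ℝ => Real.cos (2 * Real.pi * v * ξ)) ?_ ?_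
    · apply Continuous.aestronglyMeasurable; fun_prop
    · filter_upwards with v
      exact Real.abs_cos_le_one _
  have h2 : ∫ v : ℝ, Real.cos (2 * Real.pi * v * ξ) * kap v = kap ξ := by
    have h3 := congrArg Complex.re h
    rw [Complex.ofReal_re] at h3
    rw [← h3]
    have h4 : Integrable (fun v : ℝ => cexp ((-2 * Real.pi * v * ξ : ℝ) * I) • ((kap v : ℝ) : ℂ)) := by
      refine (kap_int.ofReal (𝕜 := ℂ)).bdd_mul (c := 1) (f := fun v : ℝ => cexp ((-2 * Real.pi * v * ξ : ℝ) * I)) ?_ ?_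
      · apply Continuous.aestronglyMeasurable; fun_prop
      · filter_upwards with v
        rw [Complex.norm_exp_ofReal_mul_I]
    have h5 := integral_re h4
    simp only [RCLike.re_to_complex] at h5
    rw [← h5]
    apply integral_congr_ae
    filter_upwards with v
    rw [smul_eq_mul, Complex.re_mul_ofReal, Complex.exp_ofReal_mul_I_re]
    rw [show (-2 * Real.pi * v * ξ) = -(2 * Real.pi * v * ξ) by ring, Real.cos_neg]
  have h6 : ∫ v : ℝ, Real.cos (2 * Real.pi * v * ξ) * kap v =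
      2 * ∫ v in Ioi (0:ℝ), Real.cos (2 * Real.pi * v * ξ) * kap v := by
    have h7 := integral_comp_abs (f := fun v : ℝ => Real.cos (2 * Real.pi * v * ξ) * kap v)
    rw [← h7]
    apply integral_congr_ae
    filter_upwards with v
    rcases abs_choice v with h | h
    · rw [h]
    · rw [h, kap_even]
      rw [show 2 * Real.pi * -v * ξ = -(2 * Real.pi * v * ξ) by ring, Real.cos_neg]
  linarith

theorem kap_zero_int : ∫ v in Ioi (0:ℝ), kap v = 0 := by
  have h := kap_cos 0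
  simp only [mul_zero, Real.cos_zero, one_mul] at h
  rw [h]; unfold kap; norm_num

end Pool.Agent.Helper71.MR
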