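import Pool.Agent.Helper71.MR.Rh

open Complex Filter Topology MeasureTheory Set
open Pool.Agent.Helper57.Zeta
open Pool.Agent.Helper18.ES (kap K K_inv K_pos GA S mu Phi abs_Phi_le adm_S mu_le)

namespace Pool.Agent.Helper71.MR

/-- the limit profile -/
theorem limit_exists {σ K C4 : ℝ} (hC4 : 0 ≤ C4) (hBig : Big σ K C4) {δ : ℝ} (hδ : δ ≤ 1) :
    ∃ G : ℝ → ℝ, ∃ B : ℝ, Gr G B 0 ∧ (∀ t, ∫ s : ℝ, (G (t + s) : ℂ) * (kr s : ℂ) = 0) ∧
      (∀ w, xi (1 / 2 + w) = 0 → ∫ s : ℝ, (G s : ℂ) * Aw kr w s =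
        cw w * ∫ u : ℝ, (gt δ u : ℂ) * cexp (w * u)) ∧
      (∀ t, σ * G t ≤ K * ∫ u : ℝ, gt δ u) := by
  obtain ⟨τ, hgood, hret⟩ := good_times hC4 hBig
  set B : ℝ := Real.exp (Real.exp (2 * (1 + 1)) / 10) * C4 with hB
  have hB0 : 0 ≤ B := mul_nonneg (Real.exp_pos _).le hC4
  have hbdn : ∀ n : ℕ, ∀ t : ℝ, |t| ≤ n → |hh δ (τ n + t)| ≤ B := by
    intro n t ht
    have h := hh_bd_wt hδ (t := 0) (R := 1) (by simp) (τ n + t)
    rw [add_zero] at h
    exact h.trans (mul_le_mul_of_nonneg_left (hgood n t ht).2 (Real.exp_pos _).le)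
  have hlipn : ∀ n : ℕ, ∀ t t' : ℝ, |t| ≤ n → |t - t'| ≤ 1 →
      |hh δ (τ n + t) - hh δ (τ n + t')| ≤ B * |t - t'| := by
    intro n t t' ht htt
    have h := hh_lip_wt hδ (t := 0) (t' := t' - t) (R := 1) (by simp) (by rwa [abs_sub_comm]) (τ n + t)
    rw [add_zero, show τ n + t + (t' - t) = τ n + t' by ring, zero_sub, neg_sub] at h
    refine h.trans ?_
    rw [mul_comm]
    apply mul_le_mul_of_nonneg_right _ (abs_nonneg _)
    exact mul_le_mul_of_nonneg_left (hgood n t ht).2 (Real.exp_pos _).le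
  obtain ⟨G, φ, hφ, hG⟩ := extract (fun n t => hh δ (τ n + t)) B hbdn hlipn
  have hlarge : ∀ t : ℝ, ∀ᶠ n in atTop, |t| ≤ (φ n : ℝ) := by
    intro t
    obtain ⟨N, hN⟩ := exists_nat_ge |t|
    filter_upwards [eventually_ge_atTop N] with n hn
    exact hN.trans (by exact_mod_cast hn.trans (hφ.id_le n))
  have hGb : ∀ t, |G t| ≤ B := by
    intro t
    apply le_of_tendsto (hG t).abs
    filter_upwards [hlarge t] with n hn
    exact hbdn _ t hn
  have hGl : ∀ t t' : ℝ, |t - t'| ≤ 1 → |G t - G t'| ≤ B * |t - t'| := by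
    intro t t' htt
    apply le_of_tendsto ((hG t).sub (hG t')).abs
    filter_upwards [hlarge t] with n hn
    exact hlipn _ t t' hn htt
  have hGc : Continuous G := by
    rw [continuous_iff_continuousAt]
    intro t₀
    rw [Metric.continuousAt_iff]
    intro ε hε
    refine ⟨min 1 (ε / (B + 1)), by positivity, ?_⟩
    intro x hx
    rw [Real.dist_eq] at hx ⊢
    have h1 := hGl x t₀ ((hx.trans_le (min_le_left _ _)).le)
    refine h1.trans_lt ?_
    have h2 := hx.trans_le (min_le_right 1 (ε / (B + 1)))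
    rw [lt_div_iff₀ (by positivity)] at h2
    nlinarith [abs_nonneg (x - t₀)]
  have hw2 : ∀ n : ℕ, ∀ t : ℝ, |t| ≤ n → ∫ v : ℝ, |ms (τ n + t + v)| * wt v ≤ C4 :=
    fun n t ht => (hgood n t ht).2
  refine ⟨G, B, ⟨hGc, fun t => ?_⟩, ?_, ?_, ?_⟩
  · simpa using hGb t
  · intro t
    obtain ⟨Ck, hCk⟩ := dk_kr
    have h := trans_lim hδ hC4 hw2 hφ hG hCk t
    have h2 : (fun n => ∫ s : ℝ, (hh δ (τ (φ n) + (t + s)) : ℂ) * (kr s : ℂ)) = fun _ => (0:ℂ) := by
      ext n
      rw [← hh_kr hδ (τ (φ n) + t)]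
      apply integral_congr_ae
      filter_upwards with s
      rw [show τ (φ n) + t + s = τ (φ n) + (t + s) by ring]
    rw [h2] at h
    exact tendsto_nhds_unique h tendsto_const_nhds |>.symm ▸ rfl
  · intro w hw
    obtain ⟨C, hC⟩ := dk_Aw hw
    have h := trans_lim hδ hC4 hw2 hφ hG hC 0
    simp only [zero_add] at h
    have h2 : (fun n => ∫ s : ℝ, (hh δ (τ (φ n) + s) : ℂ) * Aw kr w s) =
        fun n => cexp (w * τ (φ n)) * (cw w * ∫ u : ℝ, (gt δ u : ℂ) * cexp (w * u)) := by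
      ext n
      rw [hh_Aw hδ hw]
    rw [h2] at h
    have h3 := ((hret w hw).comp hφ.tendsto_atTop).mul_const (cw w * ∫ u : ℝ, (gt δ u : ℂ) * cexp (w * u))
    rw [one_mul] at h3
    exact tendsto_nhds_unique h h3
  · intro t
    have hI0 : 0 ≤ ∫ u : ℝ, gt δ u := integral_nonneg (fun u => gt_nonneg _ _)
    have hlim : Tendsto (fun n : ℕ => (K + 1 / ((φ n : ℝ) + 1)) * ∫ u : ℝ, gt δ u) atTop
        (𝓝 ((K + 0) * ∫ u : ℝ, gt δ u)) := by
      apply Tendsto.mul_const
      apply Tendsto.const_add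
      exact tendsto_one_div_add_atTop_nhds_zero_nat.comp hφ.tendsto_atTop
    rw [add_zero] at hlim
    apply le_of_tendsto_of_tendsto ((hG t).const_mul σ) hlim
    filter_upwards [hlarge (|t| + 1)] with n hn
    rw [abs_of_nonneg (by positivity)] at hn
    rw [hh, ← integral_const_mul, ← integral_const_mul]
    have i1 : Integrable (fun u : ℝ => σ * (ms (τ (φ n) + t + u) * gt δ u)) := by
      have := (ms_gt_int hδ (τ (φ n) + t) 0).const_mul σ
      simpa using this
    apply integral_mono i1 ((gt_integrable δ).const_mul _)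
    intro u
    show σ * (ms (τ (φ n) + t + u) * gt δ u) ≤ (K + 1 / ((φ n : ℝ) + 1)) * gt δ u
    rcases le_or_gt u 0 with h | h
    · rw [gt_zero (Or.inl h)]; simp
    rcases le_or_gt δ u with h' | h'
    · rw [gt_zero (Or.inr h')]; simp
    rw [← mul_assoc]
    apply mul_le_mul_of_nonneg_right _ (gt_nonneg _ _)
    have hu : |t + u| ≤ (φ n : ℝ) := by
      refine (abs_add_le _ _).trans ?_
      rw [abs_of_pos h]
      linarith
    have e1 := (hgood (φ n) (t + u) hu).1
    rwa [show τ (φ n) + (t + u) = τ (φ n) + t + u by ring] at e1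

/-- the tent has a nonvanishing transform at low frequency -/
theorem gtw_ne {δ : ℝ} (hδ0 : 0 < δ) {w : ℂ} (hw : w.re = 0) (hδw : |w.im| * δ ≤ 1) :
    ∫ u : ℝ, (gt δ u : ℂ) * cexp (w * u) ≠ 0 := by
  intro h
  have hi : Integrable (fun u : ℝ => (gt δ u : ℂ) * cexp (w * u)) := by
    refine Integrable.mono' (gt_integrable δ) ?_ ?_
    · apply Continuous.aestronglyMeasurable
      have := gt_cont δ
      fun_prop
    · filter_upwards with u
      rw [norm_mul, norm_cexp_mul, hw, zero_mul, Real.exp_zero, mul_one, Complex.norm_real,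
        Real.norm_of_nonneg (gt_nonneg _ _)]
  have h2 : ∫ u : ℝ, gt δ u * Real.cos (w.im * u) = 0 := by
    have h3 := integral_re hi
    have h4 : ∫ u : ℝ, RCLike.re ((gt δ u : ℂ) * cexp (w * u)) = 0 := by
      rw [h3, h]; simp
    rw [← h4]
    apply integral_congr_ae
    filter_upwards with u
    have : (w * (u : ℂ)) = ((w.im * u : ℝ) : ℂ) * Complex.I := by
      apply Complex.ext <;> simp [hw]
    rw [this]
    show gt δ u * Real.cos (w.im * u) = ((gt δ u : ℂ) * cexp (((w.im * u : ℝ) : ℂ) * Complex.I)).re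
    rw [Complex.re_ofReal_mul, Complex.exp_ofReal_mul_I_re]
  have h5 : (1 / 2) * ∫ u : ℝ, gt δ u ≤ ∫ u : ℝ, gt δ u * Real.cos (w.im * u) := by
    rw [← integral_const_mul]
    apply integral_mono ((gt_integrable δ).const_mul _)
    · refine Integrable.mono' (gt_integrable δ) ?_ ?_
      · apply Continuous.aestronglyMeasurable
        have := gt_cont δ
        fun_prop
      · filter_upwards with u
        rw [norm_mul, Real.norm_of_nonneg (gt_nonneg _ _), Real.norm_eq_abs]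
        have := Real.abs_cos_le_one (w.im * u)
        nlinarith [gt_nonneg δ u]
    · intro u
      show 1 / 2 * gt δ u ≤ gt δ u * Real.cos (w.im * u)
      rcases le_or_gt u 0 with h | h
      · rw [gt_zero (Or.inl h)]; simp
      rcases le_or_gt δ u with h' | h'
      · rw [gt_zero (Or.inr h')]; simp
      rw [mul_comm]
      apply mul_le_mul_of_nonneg_left _ (gt_nonneg _ _)
      have h6 : |w.im * u| ≤ 1 := by
        rw [abs_mul, abs_of_pos h]
        refine le_trans ?_ hδw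
        exact mul_le_mul_of_nonneg_left h'.le (abs_nonneg _)
      have h7 := Real.one_sub_sq_div_two_le_cos (x := w.im * u)
      have h8 : (w.im * u) ^ 2 ≤ 1 := by
        rw [← sq_abs]
        nlinarith [abs_nonneg (w.im * u)]
      linarith
  have := gt_int_pos hδ0
  linarith

theorem big_simple {σ K C4 : ℝ} (hC4 : 0 ≤ C4) (hBig : Big σ K C4) (w : ℂ) (hw : xi (1 / 2 + w) = 0) :
    deriv xi (1 / 2 + w) ≠ 0 := by
  intro hd
  have hre := big_re hC4 hBig hw
  set δ : ℝ := 1 / (|w.im| + 1) with hδ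
  have hδ0 : 0 < δ := by positivity
  have hδ1 : δ ≤ 1 := by
    rw [hδ, div_le_one (by positivity)]
    linarith [abs_nonneg w.im]
  have hδw : |w.im| * δ ≤ 1 := by
    rw [hδ, mul_one_div, div_le_one (by positivity)]
    linarith
  obtain ⟨G, B, hG, hGk, hGA, _⟩ := limit_exists hC4 hBig hδ1
  have hB0 := hG.nonneg
  have hconv : ∀ t, ∫ s : ℝ, (G s : ℂ) * (kr (s - t) : ℂ) = 0 := by
    intro t
    rw [← hGk t, ← integral_add_left_eq_self (fun s : ℝ => (G s : ℂ) * (kr (s - t) : ℂ)) t]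
    apply integral_congr_ae
    filter_upwards with s
    rw [show t + s - t = s by ring]
  have e1 : lap (Np kr G) w = cw w * ∫ u : ℝ, (gt δ u : ℂ) * cexp (w * u) := by
    rw [lap_at hG le_rfl ker_kr hconv w, ← split_eq hG (by norm_num) hw, hGA w hw]
  have hne : lap (Np kr G) w ≠ 0 := by
    rw [e1]
    exact mul_ne_zero (cw_ne hw) (gtw_ne hδ0 hre hδw)
  apply hne
  -- the limit along w + x
  have hfast := Np_fast hG le_rfl ker_kr hconv
  have hcont := hfast.lap_diff.continuous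
  have hpath : Tendsto (fun x : ℝ => w + (x : ℂ)) (𝓝[>] 0) (𝓝 w) := by
    have h : Tendsto (fun x : ℝ => w + (x : ℂ)) (𝓝 0) (𝓝 (w + ((0:ℝ) : ℂ))) := by
      apply Continuous.tendsto
      fun_prop
    rw [Complex.ofReal_zero, add_zero] at h
    exact h.mono_left nhdsWithin_le_nhds
  have l1 : Tendsto (fun x : ℝ => lap (Np kr G) (w + (x : ℂ))) (𝓝[>] 0) (𝓝 (lap (Np kr G) w)) :=
    (hcont.tendsto w).comp hpath
  have l2 : Tendsto (fun x : ℝ => lap (Np kr G) (w + (x : ℂ))) (𝓝[>] 0) (𝓝 0) := by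
    have hder : HasDerivAt xi 0 (1 / 2 + w) := by
      rw [← hd]; exact (differentiable_xi _).hasDerivAt
    have h3 := hder.tendsto_slope_zero
    have h4 : Tendsto (fun x : ℝ => (x : ℂ)) (𝓝[>] 0) (𝓝[≠] 0) := by
      apply tendsto_nhdsWithin_of_tendsto_nhds_of_eventually_within
      · have : Tendsto (fun x : ℝ => (x : ℂ)) (𝓝 0) (𝓝 ((0:ℝ) : ℂ)) := Complex.continuous_ofReal.tendsto 0
        rw [Complex.ofReal_zero] at this
        exact this.mono_left nhdsWithin_le_nhds
      · filter_upwards [self_mem_nhdsWithin] with x hx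
        have hx0 : (0:ℝ) < x := hx
        simpa using hx0.ne'
    have h5 := (h3.comp h4).norm.const_mul (B / 2)
    rw [norm_zero, mul_zero] at h5
    apply squeeze_zero_norm' _ h5
    filter_upwards [self_mem_nhdsWithin] with x hx
    have hx0 : (0:ℝ) < x := hx
    have hz : (0:ℝ) < (w + (x : ℂ)).re := by simp [hre, hx0]
    rw [lap_Np hG ker_kr hz]
    have h6 := half_bd hG hz
    have h7 : (w + (x : ℂ)).re = x := by simp [hre]
    rw [h7, sub_zero] at h6
    simp only [Function.comp_apply, hw, sub_zero]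
    rw [norm_mul, norm_mul, norm_smul, norm_inv, Complex.norm_real, Real.norm_of_nonneg hx0.le]
    have h8 : ‖(1 / 2 : ℂ)‖ = 1 / 2 := by norm_num
    rw [h8, show (1 / 2 : ℂ) + (w + x) = 1 / 2 + w + x by ring]
    calc ‖∫ s in Ioi (0:ℝ), (G s : ℂ) * cexp (-((w + (x : ℂ)) * s))‖ * (1 / 2 * ‖xi (1 / 2 + w + x)‖)
        ≤ (B / x) * (1 / 2 * ‖xi (1 / 2 + w + x)‖) :=
          mul_le_mul_of_nonneg_right h6 (by positivity)
      _ = _ := by field_simp
  exact tendsto_nhds_unique l1 l2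

theorem hh_le {σ K C4 : ℝ} (hC4 : 0 ≤ C4) (hBig : Big σ K C4) {δ : ℝ} (hδ : δ ≤ 1) (t : ℝ) :
    σ * hh δ t ≤ K * ∫ u : ℝ, gt δ u := by
  obtain ⟨G, B, hG, hGkr, hGAw, hGle⟩ := limit_exists hC4 hBig hδ
  obtain ⟨A, hA⟩ := hh_gr hδ
  obtain ⟨Ck, hCk⟩ := dk_kr
  have hB0 := hG.nonneg
  have hDgr : Gr (fun t => G t - hh δ t) (B + A) (3 / 4) := by
    refine ⟨hG.cont.sub (hh_cont hδ), fun t => ?_⟩
    have h1 := abs_sub (G t) (hh δ t)
    have h2 := hG.bd t
    have h3 := hA.bd t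
    have h4 : 1 ≤ Real.exp (3 / 4 * |t|) := Real.one_le_exp (by positivity)
    rw [zero_mul, Real.exp_zero, mul_one] at h2
    rw [add_mul]
    nlinarith
  have hD0 : ∀ t, (fun t => G t - hh δ t) t = 0 := by
    apply uniq hDgr (by norm_num) (by norm_num) ker_kr (big_simple hC4 hBig)
    · intro t
      have e1 : ∫ s : ℝ, ((G s - hh δ s : ℝ) : ℂ) * (kr (s - t) : ℂ) =
          ∫ s : ℝ, (((G (t + s) : ℂ) * (kr s : ℂ)) - (hh δ (t + s) : ℂ) * (kr s : ℂ)) := by
        rw [← integral_add_left_eq_self (fun s : ℝ => ((G s - hh δ s : ℝ) : ℂ) * (kr (s - t) : ℂ)) t]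
        apply integral_congr_ae
        filter_upwards with s
        rw [show t + s - t = s by ring]
        push_cast; ring
      rw [e1, integral_sub (dk_int hG (by norm_num) hCk t) (dk_int hA le_rfl hCk t), hGkr, hh_kr hδ, sub_zero]
    · intro w hw
      obtain ⟨C, hC⟩ := dk_Aw hw
      have i1 := dk_int hG (by norm_num) hC 0
      have i2 := dk_int hA le_rfl hC 0
      have e3 := hh_Aw hδ hw 0
      simp only [zero_add] at i1 i2 e3
      rw [show w * ((0:ℝ) : ℂ) = 0 by simp, Complex.exp_zero, one_mul] at e3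
      have e1 : ∫ s : ℝ, ((G s - hh δ s : ℝ) : ℂ) * Aw kr w s =
          ∫ s : ℝ, (((G s : ℂ) * Aw kr w s) - (hh δ s : ℂ) * Aw kr w s) := by
        apply integral_congr_ae
        filter_upwards with s
        push_cast; ring
      have e2 : ∫ s : ℝ, ((G s - hh δ s : ℝ) : ℂ) * Aw kr w s = 0 := by
        rw [e1, integral_sub i1 i2, hGAw w hw, e3, sub_self]
      have e4 := split_eq hDgr le_rfl hw
      rw [e2] at e4
      exact (sub_eq_zero.mp e4.symm)
  have hGt : G t = hh δ t := by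
    have := hD0 t
    simp only at this
    linarith
  rw [← hGt]
  exact hGle t

end Pool.Agent.Helper71.MR
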