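import Pool.Agent.Helper71.MR.Shear

open Complex Filter Topology MeasureTheory Set
open Pool.Agent.Helper57.Zeta
open Pool.Agent.Helper18.ES (kap K K_inv K_pos GA S mu Phi abs_Phi_le adm_S mu_le)

namespace Pool.Agent.Helper71.MR

noncomputable def A0 : ℝ := 1 + 2 * (2 + 2 * C54)

theorem A0_pos : 0 < A0 := by unfold A0; have := C54_nonneg; positivity

theorem ms_bd (t : ℝ) : |ms t| ≤ A0 * Real.exp (3 / 4 * |t|) := by
  unfold ms A0
  have h1 := mm_bd t
  have h2 := rr_bd t
  have hC := C54_nonneg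
  have e1 : Real.exp (t / 2) ≤ Real.exp (3 / 4 * |t|) := by
    apply Real.exp_le_exp.mpr
    have := le_abs_self t
    have := abs_nonneg t
    linarith
  have e2 : Real.exp (-t / 2) ≤ Real.exp (3 / 4 * |t|) := by
    apply Real.exp_le_exp.mpr
    have := neg_abs_le t
    have := abs_nonneg t
    linarith
  have e3 : Real.exp (-(3 * t / 4)) ≤ Real.exp (3 / 4 * |t|) := by
    apply Real.exp_le_exp.mpr
    have := neg_abs_le t
    have := abs_nonneg t
    linarith
  have h3 := abs_add_le (mm t) (rr t)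
  have h4 : (2 + 2 * C54) * (Real.exp (-t / 2) + Real.exp (-(3 * t / 4))) ≤
      (2 + 2 * C54) * (2 * Real.exp (3 / 4 * |t|)) :=
    mul_le_mul_of_nonneg_left (by linarith) (by positivity)
  nlinarith

/-- decay class used for the two kernels -/
structure Dk (φ : ℝ → ℂ) (C : ℝ) : Prop where
  meas : Measurable φ
  bd : ∀ u, ‖φ u‖ ≤ C * Real.exp (-(2 * Real.exp (2 * |u|)))

theorem Dk.nonneg {φ : ℝ → ℂ} {C : ℝ} (h : Dk φ C) : 0 ≤ C := by
  have := (norm_nonneg _).trans (h.bd 0)
  have h3 := Real.exp_pos (-(2 * Real.exp (2 * |(0:ℝ)|)))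
  by_contra hc
  push Not at hc
  nlinarith

theorem exp_two_ge (u : ℝ) : 1 + 2 * |u| + 2 * u ^ 2 ≤ Real.exp (2 * |u|) := by
  have h2 := Real.quadratic_le_exp_of_nonneg (x := 2 * |u|) (by positivity)
  have := sq_abs u
  nlinarith

theorem Dk.exp_bd {φ : ℝ → ℂ} {C : ℝ} (h : Dk φ C) (u : ℝ) : ‖φ u‖ ≤ C * Real.exp (-(2 * |u|)) := by
  refine (h.bd u).trans (mul_le_mul_of_nonneg_left ?_ h.nonneg)
  apply Real.exp_le_exp.mpr
  have := exp_two_ge u
  nlinarith [abs_nonneg u, sq_nonneg u]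

theorem dk_kr : ∃ C, Dk (fun u => (kr u : ℂ)) C := by
  obtain ⟨C, hC0, hC⟩ := kr_bd
  refine ⟨C, by have := kr_cont; fun_prop, fun u => ?_⟩
  rw [Complex.norm_real, Real.norm_eq_abs, abs_of_pos (kr_pos _)]
  refine (hC u).trans (mul_le_mul_of_nonneg_left ?_ hC0)
  apply Real.exp_le_exp.mpr
  have := Real.exp_pos (2 * |u|)
  linarith

theorem Aw_bd_right (w : ℂ) : ∃ C : ℝ, 0 ≤ C ∧ ∀ s : ℝ, 0 ≤ s →
    ‖Aw kr w s‖ ≤ C * Real.exp (-(2 * Real.exp (2 * s))) := by
  obtain ⟨C, hC0, hC⟩ := kr_bd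
  have hi : Integrable (fun v : ℝ => Real.exp (|w.re| * v) * Real.exp (-(Real.exp (2 * v)))) (volume.restrict (Ioi 0)) := by
    refine Integrable.mono' (((integrable_exp_abs one_pos).const_mul (Real.exp (w.re ^ 2))).integrableOn (s := Ioi 0)) ?_ ?_
    · apply Continuous.aestronglyMeasurable; fun_prop
    · filter_upwards [self_mem_ae_restrict measurableSet_Ioi] with v hv
      have hv0 : 0 < v := hv
      rw [Real.norm_of_nonneg (by positivity), ← Real.exp_add, ← Real.exp_add]
      apply Real.exp_le_exp.mpr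
      have h1 := exp_two_ge v
      rw [abs_of_pos hv0] at h1 ⊢
      nlinarith [sq_nonneg (|w.re| - v), sq_abs w.re]
  refine ⟨C * ∫ v in Ioi (0:ℝ), Real.exp (|w.re| * v) * Real.exp (-(Real.exp (2 * v))), ?_, ?_⟩
  · have : 0 ≤ ∫ v in Ioi (0:ℝ), Real.exp (|w.re| * v) * Real.exp (-(Real.exp (2 * v))) :=
      integral_nonneg (fun v => by positivity)
    positivity
  intro s hs
  have h1 : ‖Aw kr w s‖ ≤ ∫ v in Ioi (0:ℝ), (C * Real.exp (-(2 * Real.exp (2 * s)))) *
      (Real.exp (|w.re| * v) * Real.exp (-(Real.exp (2 * v)))) := by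
    unfold Aw
    apply norm_integral_le_of_norm_le (hi.const_mul _)
    filter_upwards [self_mem_ae_restrict measurableSet_Ioi] with v hv
    have hv0 : 0 < v := hv
    rw [norm_mul, norm_cexp_mul, Complex.norm_real, Real.norm_eq_abs, abs_of_pos (kr_pos _)]
    have h2 := hC (s + v)
    rw [abs_of_pos (by linarith : 0 < s + v)] at h2
    have h3 : Real.exp (w.re * v) ≤ Real.exp (|w.re| * v) :=
      Real.exp_le_exp.mpr (mul_le_mul_of_nonneg_right (le_abs_self _) hv0.le)
    have h4 : Real.exp (2 * s) ≤ Real.exp (2 * (s + v)) := Real.exp_le_exp.mpr (by linarith)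
    have h5 : Real.exp (2 * v) ≤ Real.exp (2 * (s + v)) := Real.exp_le_exp.mpr (by linarith)
    calc Real.exp (w.re * v) * kr (s + v)
        ≤ Real.exp (|w.re| * v) * (C * Real.exp (-(3 * Real.exp (2 * (s + v))))) :=
          mul_le_mul h3 h2 (kr_pos _).le (Real.exp_pos _).le
      _ ≤ Real.exp (|w.re| * v) * (C * Real.exp (-(2 * Real.exp (2 * s)) + -(Real.exp (2 * v)))) := by
          apply mul_le_mul_of_nonneg_left _ (Real.exp_pos _).le
          apply mul_le_mul_of_nonneg_left _ hC0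
          apply Real.exp_le_exp.mpr
          linarith
      _ = _ := by rw [Real.exp_add]; ring
  refine h1.trans (le_of_eq ?_)
  rw [integral_const_mul]; ring

theorem Aw_meas (w : ℂ) : Measurable (Aw kr w) := by
  have h : StronglyMeasurable (fun s : ℝ => ∫ v in Ioi (0:ℝ), (fun s v : ℝ => cexp (w * v) * (kr (s + v) : ℂ)) s v) := by
    apply StronglyMeasurable.integral_prod_right (f := fun s v : ℝ => cexp (w * v) * (kr (s + v) : ℂ))
    apply Measurable.stronglyMeasurable
    simp only [Function.uncurry_def]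
    have := kr_cont.measurable
    fun_prop
  exact h.measurable

theorem dk_Aw {w : ℂ} (hw : xi (1 / 2 + w) = 0) : ∃ C, Dk (Aw kr w) C := by
  obtain ⟨C1, h10, h1⟩ := Aw_bd_right w
  obtain ⟨C2, h20, h2⟩ := Aw_bd_right (-w)
  refine ⟨C1 + C2, Aw_meas w, fun u => ?_⟩
  have he := Real.exp_pos (-(2 * Real.exp (2 * |u|)))
  rcases le_total 0 u with h | h
  · have h3 := h1 u h
    rw [abs_of_nonneg h] at he ⊢
    nlinarith
  · have h3 := h2 (-u) (by linarith)
    rw [Aw_neg hw, norm_neg]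
    rw [abs_of_nonpos h] at he ⊢
    nlinarith

/-- test function: a tent on [0, δ] -/
noncomputable def gt (δ u : ℝ) : ℝ := max 0 (min u (δ - u))

theorem gt_cont (δ : ℝ) : Continuous (gt δ) := by unfold gt; fun_prop

theorem gt_nonneg (δ u : ℝ) : 0 ≤ gt δ u := le_max_left _ _

theorem gt_zero {δ u : ℝ} (h : u ≤ 0 ∨ δ ≤ u) : gt δ u = 0 := by
  unfold gt
  apply max_eq_left
  rcases h with h | h
  · exact (min_le_left _ _).trans h
  · exact (min_le_right _ _).trans (by linarith)

theorem gt_le_one {δ : ℝ} (hδ : δ ≤ 1) (u : ℝ) : gt δ u ≤ 1 := by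
  unfold gt
  apply max_le zero_le_one
  rcases le_total u 1 with h | h
  · exact (min_le_left _ _).trans h
  · exact (min_le_right _ _).trans (by linarith)

theorem gt_lip (δ u v : ℝ) : |gt δ u - gt δ v| ≤ |u - v| := by
  unfold gt
  refine (abs_max_sub_max_le_max 0 (min u (δ - u)) 0 (min v (δ - v))).trans ?_
  rw [sub_self, abs_zero]
  apply max_le (abs_nonneg _)
  refine (abs_min_sub_min_le_max u (δ - u) v (δ - v)).trans ?_
  apply max_le le_rfl
  rw [show δ - u - (δ - v) = -(u - v) by ring, abs_neg]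

theorem gt_int_pos {δ : ℝ} (hδ : 0 < δ) : 0 < ∫ u : ℝ, gt δ u := by
  have hs : HasCompactSupport (gt δ) := by
    apply HasCompactSupport.intro (isCompact_Icc (a := (0:ℝ)) (b := δ))
    intro x hx
    apply gt_zero
    by_contra h
    push Not at h
    exact hx ⟨h.1.le, h.2.le⟩
  have hx : gt δ (δ / 2) ≠ 0 := by
    unfold gt
    rw [show δ - δ / 2 = δ / 2 by ring, min_self]
    rw [max_eq_right (by linarith)]
    linarith
  have h : 0 < ∫ u : ℝ, gt δ u ∂volume :=
    (gt_cont δ).integral_pos_of_hasCompactSupport_nonneg_nonzero (μ := volume) hs (gt_nonneg δ) hx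
  exact h

theorem gt_integrable (δ : ℝ) : Integrable (gt δ) := by
  have hs : HasCompactSupport (gt δ) := by
    apply HasCompactSupport.intro (isCompact_Icc (a := (0:ℝ)) (b := |δ|))
    intro x hx
    apply gt_zero
    by_contra h
    push Not at h
    exact hx ⟨h.1.le, h.2.le.trans (le_abs_self _)⟩
  exact (gt_cont δ).integrable_of_hasCompactSupport hs

/-- smoothed extended function -/
noncomputable def hh (δ y : ℝ) : ℝ := ∫ u : ℝ, ms (y + u) * gt δ u

theorem gt_exp {δ : ℝ} (hδ : δ ≤ 1) (u : ℝ) : gt δ u ≤ Real.exp 2 * Real.exp (-(2 * |u|)) := by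
  rcases le_or_gt u 0 with h | h
  · rw [gt_zero (Or.inl h)]; positivity
  rcases le_or_gt δ u with h' | h'
  · rw [gt_zero (Or.inr h')]; positivity
  refine (gt_le_one hδ u).trans ?_
  rw [← Real.exp_add]
  apply Real.one_le_exp
  rw [abs_of_pos h]
  linarith

/-- Fubini for the smoothed function against a decaying kernel -/
theorem fub {δ : ℝ} (hδ : δ ≤ 1) {φ : ℝ → ℂ} {C : ℝ} (hφ : Dk φ C) (y : ℝ) :
    ∫ s : ℝ, (hh δ (y + s) : ℂ) * φ s = ∫ u : ℝ, (gt δ u : ℂ) * ∫ s : ℝ, (ms (y + u + s) : ℂ) * φ s := by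
  have hC := hφ.nonneg
  have hA := A0_pos
  have hint : Integrable (Function.uncurry fun s u : ℝ => (ms (y + s + u) : ℂ) * (gt δ u : ℂ) * φ s)
      (volume.prod volume) := by
    have h1 : Integrable (fun p : ℝ × ℝ => (A0 * Real.exp (3 / 4 * |y|) * C * Real.exp 2 * Real.exp (-(1 * |p.1|))) *
        Real.exp (-(1 * |p.2|))) (volume.prod volume) :=
      Integrable.mul_prod (f := fun s : ℝ => A0 * Real.exp (3 / 4 * |y|) * C * Real.exp 2 * Real.exp (-(1 * |s|)))
        (g := fun u : ℝ => Real.exp (-(1 * |u|)))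
        ((integrable_exp_abs one_pos).const_mul _) (integrable_exp_abs one_pos)
    refine Integrable.mono' h1 ?_ ?_
    · apply Measurable.aestronglyMeasurable
      simp only [Function.uncurry_def]
      have := ms_meas
      have := hφ.meas
      have := (gt_cont δ).measurable
      fun_prop
    · filter_upwards with p
      simp only [Function.uncurry_def]
      rw [norm_mul, norm_mul, Complex.norm_real, Complex.norm_real, Real.norm_eq_abs, Real.norm_eq_abs,
        abs_of_nonneg (gt_nonneg _ _)]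
      calc |ms (y + p.1 + p.2)| * gt δ p.2 * ‖φ p.1‖
          ≤ (A0 * Real.exp (3 / 4 * |y + p.1 + p.2|)) * (Real.exp 2 * Real.exp (-(2 * |p.2|))) *
            (C * Real.exp (-(2 * |p.1|))) := by
            apply mul_le_mul _ (hφ.exp_bd _) (norm_nonneg _) (by positivity)
            exact mul_le_mul (ms_bd _) (gt_exp hδ _) (gt_nonneg _ _) (by positivity)
        _ = A0 * C * Real.exp 2 * Real.exp (3 / 4 * |y + p.1 + p.2| + -(2 * |p.2|) + -(2 * |p.1|)) := by
            rw [Real.exp_add, Real.exp_add]; ring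
        _ ≤ A0 * C * Real.exp 2 * Real.exp (3 / 4 * |y| + -(1 * |p.1|) + -(1 * |p.2|)) := by
            apply mul_le_mul_of_nonneg_left _ (by positivity)
            apply Real.exp_le_exp.mpr
            have h2 := abs_add_le (y + p.1) p.2
            have h3 := abs_add_le y p.1
            linarith [abs_nonneg p.1, abs_nonneg p.2]
        _ = _ := by rw [Real.exp_add, Real.exp_add]; ring
  calc ∫ s : ℝ, (hh δ (y + s) : ℂ) * φ s
      = ∫ s : ℝ, ∫ u : ℝ, (ms (y + s + u) : ℂ) * (gt δ u : ℂ) * φ s := by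
        apply integral_congr_ae
        filter_upwards with s
        unfold hh
        rw [integral_mul_const, ← integral_complex_ofReal]
        congr 1
        apply integral_congr_ae
        filter_upwards with u
        push_cast; rfl
    _ = ∫ u : ℝ, ∫ s : ℝ, (ms (y + s + u) : ℂ) * (gt δ u : ℂ) * φ s := integral_integral_swap hint
    _ = _ := by
        apply integral_congr_ae
        filter_upwards with u
        rw [← integral_const_mul]
        apply integral_congr_ae
        filter_upwards with s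
        rw [show y + s + u = y + u + s by ring]
        ring

theorem ms_kernel_int {φ : ℝ → ℂ} {C : ℝ} (hφ : Dk φ C) {f : ℝ → ℝ} (hf : Measurable f) {B : ℝ}
    (hb : ∀ t, |f t| ≤ B * Real.exp (3 / 4 * |t|)) (y : ℝ) :
    Integrable (fun s : ℝ => (f (y + s) : ℂ) * φ s) := by
  have hC := hφ.nonneg
  have hB : 0 ≤ B := by
    have := (abs_nonneg _).trans (hb 0)
    simpa using this
  refine Integrable.mono' ((integrable_exp_abs one_pos).const_mul (B * Real.exp (3 / 4 * |y|) * C)) ?_ ?_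
  · apply Measurable.aestronglyMeasurable
    have := hφ.meas
    fun_prop
  · filter_upwards with s
    rw [norm_mul, Complex.norm_real, Real.norm_eq_abs]
    calc |f (y + s)| * ‖φ s‖ ≤ (B * Real.exp (3 / 4 * |y + s|)) * (C * Real.exp (-(2 * |s|))) :=
          mul_le_mul (hb _) (hφ.exp_bd _) (norm_nonneg _) (by positivity)
      _ = B * C * Real.exp (3 / 4 * |y + s| + -(2 * |s|)) := by rw [Real.exp_add]; ring
      _ ≤ B * C * Real.exp (3 / 4 * |y| + -(1 * |s|)) := by
          apply mul_le_mul_of_nonneg_left _ (by positivity)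
          apply Real.exp_le_exp.mpr
          have := abs_add_le y s
          linarith [abs_nonneg s]
      _ = _ := by rw [Real.exp_add]; ring

theorem mm_bd' (t : ℝ) : |mm t| ≤ 1 * Real.exp (3 / 4 * |t|) := by
  refine (mm_bd t).trans ?_
  rw [one_mul]
  apply Real.exp_le_exp.mpr
  have := le_abs_self t
  have := abs_nonneg t
  linarith

theorem rr_bd' (t : ℝ) : |rr t| ≤ (2 * (2 + 2 * C54)) * Real.exp (3 / 4 * |t|) := by
  refine (rr_bd t).trans ?_
  have hC := C54_nonneg
  have e2 : Real.exp (-t / 2) ≤ Real.exp (3 / 4 * |t|) := by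
    apply Real.exp_le_exp.mpr
    have := neg_abs_le t
    have := abs_nonneg t
    linarith
  have e3 : Real.exp (-(3 * t / 4)) ≤ Real.exp (3 / 4 * |t|) := by
    apply Real.exp_le_exp.mpr
    have := neg_abs_le t
    have := abs_nonneg t
    linarith
  have h4 : (2 + 2 * C54) * (Real.exp (-t / 2) + Real.exp (-(3 * t / 4))) ≤
      (2 + 2 * C54) * (2 * Real.exp (3 / 4 * |t|)) :=
    mul_le_mul_of_nonneg_left (by linarith) (by positivity)
  linarith

theorem ms_kr (y : ℝ) : ∫ s : ℝ, (ms (y + s) : ℂ) * (kr s : ℂ) = 0 := by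
  obtain ⟨C, hC⟩ := dk_kr
  have h1 := ms_kernel_int hC mm_meas mm_bd' y
  have h2 := ms_kernel_int hC rr_meas rr_bd' y
  have e0 : (∫ s : ℝ, (ms (y + s) : ℂ) * (kr s : ℂ)) =
      (∫ s : ℝ, (mm (y + s) : ℂ) * (kr s : ℂ)) + ∫ s : ℝ, (rr (y + s) : ℂ) * (kr s : ℂ) := by
    rw [← integral_add h1 h2]
    apply integral_congr_ae
    filter_upwards with s
    unfold ms
    push_cast; ring
  rw [e0, mm_conv_c, rr_conv_c, add_neg_cancel]

theorem zero_re {w : ℂ} (hw : xi (1 / 2 + w) = 0) : |w.re| < 1 / 2 := by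
  have h := xi_eq_zero_iff.mp hw
  have h1 : (1 / 2 + w).re = 1 / 2 + w.re := by simp
  rw [h1] at h
  rw [abs_lt]
  constructor <;> linarith [h.1, h.2.1]

theorem ms_Aw {w : ℂ} (hw : xi (1 / 2 + w) = 0) (t : ℝ) :
    ∫ s : ℝ, (ms (t + s) : ℂ) * Aw kr w s = cexp (w * t) * cw w := by
  obtain ⟨C, hC⟩ := dk_Aw hw
  exact ms_zero hw (zero_re hw) t (ms_kernel_int hC mm_meas mm_bd' t) (ms_kernel_int hC rr_meas rr_bd' t)

theorem hh_kr {δ : ℝ} (hδ : δ ≤ 1) (y : ℝ) : ∫ s : ℝ, (hh δ (y + s) : ℂ) * (kr s : ℂ) = 0 := by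
  obtain ⟨C, hC⟩ := dk_kr
  rw [fub hδ hC]
  simp_rw [ms_kr]
  simp

theorem hh_Aw {δ : ℝ} (hδ : δ ≤ 1) {w : ℂ} (hw : xi (1 / 2 + w) = 0) (y : ℝ) :
    ∫ s : ℝ, (hh δ (y + s) : ℂ) * Aw kr w s =
      cexp (w * y) * (cw w * ∫ u : ℝ, (gt δ u : ℂ) * cexp (w * u)) := by
  obtain ⟨C, hC⟩ := dk_Aw hw
  rw [fub hδ hC]
  simp_rw [ms_Aw hw]
  rw [← integral_const_mul, ← integral_const_mul]
  apply integral_congr_ae
  filter_upwards with u
  have : cexp (w * ((y + u : ℝ) : ℂ)) = cexp (w * y) * cexp (w * u) := by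
    rw [← Complex.exp_add]; congr 1; push_cast; ring
  rw [this]; ring

end Pool.Agent.Helper71.MR
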