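import Pool.Agent.Helper71.MR.Lap
import Pool.Agent.Helper18.ES.Mu

open Complex Filter Topology MeasureTheory Set Metric
open Pool.Agent.Helper57.Zeta
open Pool.Agent.Helper18.ES (K K_inv K_pos K_ge K_le_exp vv mellin_K continuousOn_K GA S mu Phi GA_mu)

namespace Pool.Agent.Helper71.MR

/-- the additive Riemann kernel -/
noncomputable def kr (u : ℝ) : ℝ := K (Real.exp u) * Real.exp (u / 2)

theorem kr_cont : Continuous kr := by
  unfold kr
  apply Continuous.mul _ (by fun_prop)
  exact continuousOn_K.comp_continuous Real.continuous_exp (fun x => Real.exp_pos x)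

theorem kr_even (u : ℝ) : kr (-u) = kr u := by
  unfold kr
  have h := K_inv (Real.exp_pos u)
  rw [one_div, ← Real.exp_neg] at h
  rw [h]
  have : Real.exp u * Real.exp (-u / 2) = Real.exp (u / 2) := by
    rw [← Real.exp_add]; congr 1; ring
  rw [← this]; ring

theorem kr_pos (u : ℝ) : 0 < kr u := mul_pos (K_pos (Real.exp_pos u)) (Real.exp_pos _)

theorem kr_abs (u : ℝ) : kr |u| = kr u := by
  rcases abs_choice u with h | h
  · rw [h]
  · rw [h, kr_even]

theorem kr_bd : ∃ C : ℝ, 0 ≤ C ∧ ∀ u, kr u ≤ C * Real.exp (-(3 * Real.exp (2 * |u|))) := by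
  obtain ⟨C, hC, h⟩ := K_le_exp 1 Real.pi_gt_three
  refine ⟨C, hC.le, fun u => ?_⟩
  rw [← kr_abs u]
  have h1 := h (Real.exp |u|) (Real.exp_pos _)
  have hv : vv (Real.exp |u|) = Real.exp |u| := by
    unfold vv
    apply max_eq_left
    rw [one_div, ← Real.exp_neg]
    exact Real.exp_le_exp.mpr (by linarith [abs_nonneg u])
  rw [hv, pow_one] at h1
  have h2 : Real.exp |u| ^ 2 = Real.exp (2 * |u|) := by
    rw [← Real.exp_nat_mul]; norm_num
  rw [h2] at h1
  refine le_trans ?_ h1
  unfold kr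
  rw [mul_comm]
  apply mul_le_mul_of_nonneg_right _ (K_pos (Real.exp_pos _)).le
  exact Real.exp_le_exp.mpr (by linarith [abs_nonneg u])

theorem kr_ge (u : ℝ) : Real.exp (-(Real.pi * Real.exp (2 * |u|))) ≤ kr u := by
  rw [← kr_abs u]
  have h1 : (1:ℝ) ≤ Real.exp |u| := Real.one_le_exp (abs_nonneg _)
  have h2 := K_ge h1
  have h3 : Real.exp |u| ^ 2 = Real.exp (2 * |u|) := by
    rw [← Real.exp_nat_mul]; norm_num
  rw [h3] at h2
  unfold kr
  have h4 : (1:ℝ) ≤ Real.exp (|u| / 2) := Real.one_le_exp (by positivity)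
  have h5 : (1:ℝ) ≤ Real.exp |u| ^ 4 := one_le_pow₀ h1
  have h6 := Real.exp_pos (-(Real.pi * Real.exp (2 * |u|)))
  have h7 : Real.exp (-(Real.pi * Real.exp (2 * |u|))) ≤ K (Real.exp |u|) := by
    refine le_trans ?_ h2
    nlinarith
  have h8 := K_pos (Real.exp_pos |u|)
  nlinarith

theorem kr_lap (z : ℂ) : ∫ u : ℝ, (kr u : ℂ) * cexp (z * u) = 1 / 2 * xi (1 / 2 + z) := by
  rw [← mellin_K]
  have h := lap_eq_mellin (fun t : ℝ => (K (Real.exp (-t)) : ℂ)) (1 / 2 + z)
  have h2 : mellin (fun x : ℝ => (fun t : ℝ => (K (Real.exp (-t)) : ℂ)) (-Real.log x)) (1 / 2 + z) =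
      mellin (fun u : ℝ => (K u : ℂ)) (1 / 2 + z) := by
    unfold mellin
    apply setIntegral_congr_fun measurableSet_Ioi
    intro x hx
    have hx0 : (0:ℝ) < x := hx
    simp only [neg_neg]
    rw [Real.exp_log hx0]
  rw [← h2, ← h]
  unfold lap
  rw [← integral_neg_eq_self]
  apply integral_congr_ae
  filter_upwards with u
  unfold kr
  have : cexp (-((1 / 2 + z) * u)) = ((Real.exp (-u / 2) : ℝ) : ℂ) * cexp (z * ((-u : ℝ) : ℂ)) := by
    rw [Complex.ofReal_exp, ← Complex.exp_add]; congr 1; push_cast; ring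
  rw [this]
  push_cast
  ring

theorem ker_kr : Ker kr := ⟨kr_cont, kr_even, kr_pos, kr_bd, kr_lap⟩

/-- normalised summatory function in logarithmic scale -/
noncomputable def mm (t : ℝ) : ℝ := S mu (Real.exp t) * Real.exp (-t / 2)

/-- the error function -/
noncomputable def ee (t : ℝ) : ℝ := Real.exp (-t / 2) * Phi (Real.exp (-t))

/-- GA in logarithmic scale -/
theorem GA_log (A : ℝ → ℝ) (y : ℝ) :
    GA A (Real.exp y) = ∫ u : ℝ, A (Real.exp (y + u)) * K (Real.exp u) := by
  have h := lap_eq_mellin (fun s : ℝ => ((A (Real.exp (-s)) * K (Real.exp (-s) / Real.exp y) : ℝ) : ℂ)) 0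
  have h2 : mellin (fun x : ℝ => (fun s : ℝ => ((A (Real.exp (-s)) * K (Real.exp (-s) / Real.exp y) : ℝ) : ℂ))
      (-Real.log x)) 0 = ((GA A (Real.exp y) : ℝ) : ℂ) := by
    unfold mellin GA
    rw [← integral_complex_ofReal]
    apply setIntegral_congr_fun measurableSet_Ioi
    intro x hx
    have hx0 : (0:ℝ) < x := hx
    simp only [neg_neg]
    rw [Real.exp_log hx0, zero_sub, Complex.cpow_neg_one, smul_eq_mul]
    push_cast
    field_simp
  rw [h2] at h
  unfold lap at h
  simp only [zero_mul, neg_zero, Complex.exp_zero, mul_one] at h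
  rw [integral_complex_ofReal] at h
  have h3 : GA A (Real.exp y) = ∫ s : ℝ, A (Real.exp (-s)) * K (Real.exp (-s) / Real.exp y) := by
    exact_mod_cast h.symm
  rw [h3, ← integral_neg_eq_self, ← integral_add_left_eq_self _ y]
  apply integral_congr_ae
  filter_upwards with u
  rw [neg_neg, ← Real.exp_sub]
  congr 3; ring

theorem mm_conv (y : ℝ) : ∫ u : ℝ, mm (y + u) * kr u = ee y := by
  have h := GA_log (S mu) y
  rw [GA_mu (Real.exp_pos y), one_div, ← Real.exp_neg] at h
  unfold ee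
  rw [h, ← integral_const_mul]
  apply integral_congr_ae
  filter_upwards with u
  unfold mm kr
  have : Real.exp (-(y + u) / 2) * Real.exp (u / 2) = Real.exp (-y / 2) := by
    rw [← Real.exp_add]; congr 1; ring
  rw [← this]; ring

end Pool.Agent.Helper71.MR
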