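import Pool.Agent.Helper57.Zeta.Xi

open Complex Filter Topology MeasureTheory Set Metric
open Pool.Agent.Helper57.Zeta

namespace Pool.Agent.Helper71.MR

theorem integrable_exp_abs {σ : ℝ} (hσ : 0 < σ) : Integrable (fun v : ℝ => Real.exp (-(σ * |v|))) := by
  rw [← integrableOn_univ, ← Set.Iic_union_Ioi (a := (0:ℝ))]
  apply IntegrableOn.union
  · refine IntegrableOn.congr_fun (integrableOn_exp_mul_Iic hσ 0) ?_ measurableSet_Iic
    intro v hv
    have hv' : v ≤ 0 := hv
    simp only [abs_of_nonpos hv']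
    congr 1; ring
  · refine IntegrableOn.congr_fun (integrableOn_exp_mul_Ioi (a := -σ) (by linarith) 0) ?_ measurableSet_Ioi
    intro v hv
    have hv' : (0:ℝ) < v := hv
    simp only [abs_of_pos hv']
    congr 1; ring

/-- continuous functions decaying faster than every exponential -/
structure Fast (f : ℝ → ℂ) : Prop where
  cont : Continuous f
  bd : ∀ b : ℝ, ∃ C : ℝ, 0 ≤ C ∧ ∀ t, ‖f t‖ ≤ C * Real.exp (-(b * |t|))

/-- two-sided Laplace transform -/
noncomputable def lap (f : ℝ → ℂ) (z : ℂ) : ℂ := ∫ t : ℝ, f t * cexp (-(z * t))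

theorem norm_cexp_mul (z : ℂ) (t : ℝ) : ‖cexp (z * t)‖ = Real.exp (z.re * t) := by
  rw [Complex.norm_exp]; simp

theorem norm_cexp_neg_mul (z : ℂ) (t : ℝ) : ‖cexp (-(z * t))‖ = Real.exp (-(z.re * t)) := by
  rw [Complex.norm_exp]; simp

theorem Fast.lap_integrable {f : ℝ → ℂ} (hf : Fast f) (z : ℂ) :
    Integrable (fun t : ℝ => f t * cexp (-(z * t))) := by
  obtain ⟨C, hC0, hC⟩ := hf.bd (|z.re| + 1)
  refine Integrable.mono' ((integrable_exp_abs one_pos).const_mul C) ?_ ?_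
  · exact (hf.cont.mul (by fun_prop)).aestronglyMeasurable
  · filter_upwards with t
    rw [norm_mul, norm_cexp_neg_mul]
    calc ‖f t‖ * Real.exp (-(z.re * t)) ≤ (C * Real.exp (-((|z.re| + 1) * |t|))) * Real.exp (-(z.re * t)) :=
          mul_le_mul_of_nonneg_right (hC t) (Real.exp_pos _).le
      _ = C * Real.exp (-((|z.re| + 1) * |t|) + -(z.re * t)) := by rw [mul_assoc, ← Real.exp_add]
      _ ≤ C * Real.exp (-(1 * |t|)) := by
          apply mul_le_mul_of_nonneg_left _ hC0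
          apply Real.exp_le_exp.mpr
          have h1 : -(z.re * t) ≤ |z.re| * |t| := by
            rw [← abs_mul]; exact neg_le_abs _
          linarith

theorem Fast.lap_bd {f : ℝ → ℂ} (hf : Fast f) (R : ℝ) :
    ∃ B : ℝ, 0 ≤ B ∧ ∀ z : ℂ, |z.re| ≤ R → ‖lap f z‖ ≤ B := by
  obtain ⟨C, hC0, hC⟩ := hf.bd (R + 1)
  refine ⟨∫ t : ℝ, C * Real.exp (-(1 * |t|)), integral_nonneg (fun t => by positivity), ?_⟩
  intro z hz
  unfold lap
  apply norm_integral_le_of_norm_le ((integrable_exp_abs one_pos).const_mul C)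
  filter_upwards with t
  rw [norm_mul, norm_cexp_neg_mul]
  calc ‖f t‖ * Real.exp (-(z.re * t)) ≤ (C * Real.exp (-((R + 1) * |t|))) * Real.exp (-(z.re * t)) :=
        mul_le_mul_of_nonneg_right (hC t) (Real.exp_pos _).le
    _ = C * Real.exp (-((R + 1) * |t|) + -(z.re * t)) := by rw [mul_assoc, ← Real.exp_add]
    _ ≤ C * Real.exp (-(1 * |t|)) := by
        apply mul_le_mul_of_nonneg_left _ hC0
        apply Real.exp_le_exp.mpr
        have h1 : -(z.re * t) ≤ |z.re| * |t| := by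
          rw [← abs_mul]; exact neg_le_abs _
        have h2 : |z.re| * |t| ≤ R * |t| := mul_le_mul_of_nonneg_right hz (abs_nonneg _)
        linarith

theorem lap_eq_mellin (f : ℝ → ℂ) (z : ℂ) : lap f z = mellin (fun x => f (-Real.log x)) z := by
  rw [mellin_eq_fourier, Real.fourier_eq']
  unfold lap
  congr 1
  ext u
  simp only [smul_eq_mul, Complex.real_smul, Real.log_exp, neg_neg]
  rw [mul_comm (f u), ← mul_assoc]
  congr 1
  rw [Complex.ofReal_exp, ← Complex.exp_add]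
  congr 1
  have hpi : (Real.pi : ℂ) ≠ 0 := by exact_mod_cast Real.pi_pos.ne'
  simp
  field_simp
  have e : (u : ℂ) * z = u * (z.re + z.im * Complex.I) := by rw [Complex.re_add_im]
  rw [mul_comm z, e]
  ring

theorem Fast.lap_diff {f : ℝ → ℂ} (hf : Fast f) : Differentiable ℂ (lap f) := by
  intro z
  have : lap f = mellin (fun x => f (-Real.log x)) := by
    ext z; exact lap_eq_mellin f z
  rw [this]
  obtain ⟨C, hC0, hC⟩ := hf.bd (|z.re| + 1)
  apply mellin_differentiableAt_of_isBigO_rpow (a := |z.re| + 1) (b := -(|z.re| + 1))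
  · apply ContinuousOn.locallyIntegrableOn _ measurableSet_Ioi
    apply hf.cont.comp_continuousOn
    apply ContinuousOn.neg
    exact Real.continuousOn_log.mono (fun x hx => by
      have : (0:ℝ) < x := hx
      exact this.ne')
  · apply Asymptotics.IsBigO.of_bound C
    filter_upwards [eventually_ge_atTop (1:ℝ)] with x hx
    have hx0 : 0 < x := by linarith
    have h1 := hC (-Real.log x)
    rw [abs_neg, abs_of_nonneg (Real.log_nonneg hx)] at h1
    refine h1.trans (le_of_eq ?_)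
    rw [Real.norm_of_nonneg (Real.rpow_nonneg hx0.le _), Real.rpow_def_of_pos hx0]
    congr 2; ring
  · linarith [le_abs_self z.re]
  · apply Asymptotics.IsBigO.of_bound C
    have h2 : ∀ᶠ x : ℝ in 𝓝[>] 0, x < 1 ∧ 0 < x := by
      have h3 : ∀ᶠ x : ℝ in 𝓝[>] 0, x ∈ Ioo (0:ℝ) 1 := Ioo_mem_nhdsGT one_pos
      filter_upwards [h3] with x hx using ⟨hx.2, hx.1⟩
    filter_upwards [h2] with x hx
    have h1 := hC (-Real.log x)
    rw [abs_neg, abs_of_nonpos (Real.log_nonpos hx.2.le hx.1.le)] at h1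
    refine h1.trans (le_of_eq ?_)
    rw [Real.norm_of_nonneg (Real.rpow_nonneg hx.2.le _), Real.rpow_def_of_pos hx.2]
    congr 2; ring
  · linarith [neg_abs_le z.re]

/-- the properties of the kernel -/
structure Ker (k : ℝ → ℝ) : Prop where
  cont : Continuous k
  even : ∀ u, k (-u) = k u
  pos : ∀ u, 0 < k u
  bd : ∃ C : ℝ, 0 ≤ C ∧ ∀ u, k u ≤ C * Real.exp (-(3 * Real.exp (2 * |u|)))
  mel : ∀ z : ℂ, ∫ u : ℝ, (k u : ℂ) * cexp (z * u) = 1 / 2 * xi (1 / 2 + z)

theorem Ker.fast {k : ℝ → ℝ} (hk : Ker k) (b : ℝ) : ∃ C : ℝ, 0 ≤ C ∧ ∀ u, k u ≤ C * Real.exp (-(b * |u|)) := by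
  obtain ⟨C, hC0, hC⟩ := hk.bd
  refine ⟨C * Real.exp (b ^ 2), by positivity, ?_⟩
  intro u
  refine (hC u).trans ?_
  rw [mul_assoc, ← Real.exp_add]
  apply mul_le_mul_of_nonneg_left _ hC0
  apply Real.exp_le_exp.mpr
  have h1 : 2 * |u| + 1 ≤ Real.exp (2 * |u|) := Real.add_one_le_exp _
  have h2 := Real.quadratic_le_exp_of_nonneg (x := 2 * |u|) (by positivity)
  nlinarith [sq_nonneg (b - |u|), abs_nonneg u, sq_abs u, sq_nonneg (|u|)]

end Pool.Agent.Helper71.MR
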