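import Pool.Agent.Helper71.MR.Win
import Pool.Agent.Helper71.MR.Uniq

open Complex Filter Topology MeasureTheory Set
open Pool.Agent.Helper57.Zeta
open Pool.Agent.Helper18.ES (kap K K_inv K_pos GA S mu Phi abs_Phi_le adm_S mu_le)

namespace Pool.Agent.Helper71.MR

theorem hh_shift (δ y t : ℝ) : hh δ (y + t) = ∫ v : ℝ, ms (y + v) * gt δ (v - t) := by
  unfold hh
  rw [← integral_sub_right_eq_self (fun u : ℝ => ms (y + t + u) * gt δ u) t]
  apply integral_congr_ae
  filter_upwards with v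
  rw [show y + t + (v - t) = y + v by ring]

theorem one_le_wt {v R : ℝ} (hv : |v| ≤ R + 1) : 1 ≤ Real.exp (Real.exp (2 * (R + 1)) / 10) * wt v := by
  unfold wt
  rw [← Real.exp_add]
  apply Real.one_le_exp
  have : Real.exp (2 * |v|) ≤ Real.exp (2 * (R + 1)) := Real.exp_le_exp.mpr (by linarith)
  linarith

theorem gt_wt {δ : ℝ} (hδ : δ ≤ 1) {t R : ℝ} (ht : |t| ≤ R) (v : ℝ) :
    gt δ (v - t) ≤ Real.exp (Real.exp (2 * (R + 1)) / 10) * wt v := by
  have h0 : 0 ≤ Real.exp (Real.exp (2 * (R + 1)) / 10) * wt v := mul_nonneg (Real.exp_pos _).le (wt_pos _).le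
  rcases le_or_gt (v - t) 0 with h | h
  · rw [gt_zero (Or.inl h)]; exact h0
  rcases le_or_gt δ (v - t) with h' | h'
  · rw [gt_zero (Or.inr h')]; exact h0
  refine (gt_le_one hδ _).trans (one_le_wt ?_)
  have := abs_le.mp ht
  rw [abs_le]; constructor <;> linarith [this.1, this.2]

theorem ms_gt_int {δ : ℝ} (hδ : δ ≤ 1) (y t : ℝ) : Integrable (fun v : ℝ => ms (y + v) * gt δ (v - t)) := by
  refine Integrable.mono' ((ms_wt_int y).const_mul (Real.exp (Real.exp (2 * (|t| + 1)) / 10))) ?_ ?_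
  · apply Measurable.aestronglyMeasurable
    have := ms_meas
    have := (gt_cont δ).measurable
    fun_prop
  · filter_upwards with v
    rw [norm_mul, Real.norm_eq_abs, Real.norm_of_nonneg (gt_nonneg _ _)]
    have h1 := gt_wt hδ (le_refl |t|) v
    have h2 := mul_le_mul_of_nonneg_left h1 (abs_nonneg (ms (y + v)))
    linarith

theorem hh_bd_wt {δ : ℝ} (hδ : δ ≤ 1) {t R : ℝ} (ht : |t| ≤ R) (y : ℝ) :
    |hh δ (y + t)| ≤ Real.exp (Real.exp (2 * (R + 1)) / 10) * ∫ v : ℝ, |ms (y + v)| * wt v := by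
  rw [hh_shift, ← Real.norm_eq_abs, ← integral_const_mul]
  apply norm_integral_le_of_norm_le ((ms_wt_int y).const_mul _)
  filter_upwards with v
  rw [norm_mul, Real.norm_eq_abs, Real.norm_of_nonneg (gt_nonneg _ _)]
  have h2 := mul_le_mul_of_nonneg_left (gt_wt hδ ht v) (abs_nonneg (ms (y + v)))
  linarith

theorem gt_lip_wt {δ : ℝ} (hδ : δ ≤ 1) {t t' R : ℝ} (ht : |t| ≤ R) (ht' : |t'| ≤ R) (v : ℝ) :
    |gt δ (v - t) - gt δ (v - t')| ≤ |t - t'| * (Real.exp (Real.exp (2 * (R + 1)) / 10) * wt v) := by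
  have h0 : 0 ≤ Real.exp (Real.exp (2 * (R + 1)) / 10) * wt v := mul_nonneg (Real.exp_pos _).le (wt_pos _).le
  have hl := gt_lip δ (v - t) (v - t')
  rw [show v - t - (v - t') = -(t - t') by ring, abs_neg] at hl
  rcases le_or_gt |v| (R + 1) with h | h
  · have h1 := one_le_wt h
    have h2 := mul_le_mul_of_nonneg_left h1 (abs_nonneg (t - t'))
    linarith
  · have h1 := abs_le.mp ht
    have h1' := abs_le.mp ht'
    have e1 : gt δ (v - t) = 0 := by
      apply gt_zero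
      rcases lt_abs.mp h with h2 | h2
      · right; linarith [h1.2]
      · left; linarith [h1.1]
    have e2 : gt δ (v - t') = 0 := by
      apply gt_zero
      rcases lt_abs.mp h with h2 | h2
      · right; linarith [h1'.2]
      · left; linarith [h1'.1]
    rw [e1, e2, sub_self, abs_zero]
    exact mul_nonneg (abs_nonneg _) h0

theorem hh_lip_wt {δ : ℝ} (hδ : δ ≤ 1) {t t' R : ℝ} (ht : |t| ≤ R) (ht' : |t'| ≤ R) (y : ℝ) :
    |hh δ (y + t) - hh δ (y + t')| ≤
      |t - t'| * (Real.exp (Real.exp (2 * (R + 1)) / 10) * ∫ v : ℝ, |ms (y + v)| * wt v) := by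
  rw [hh_shift, hh_shift, ← integral_sub (ms_gt_int hδ y t) (ms_gt_int hδ y t'), ← Real.norm_eq_abs,
    ← integral_const_mul, ← integral_const_mul]
  apply norm_integral_le_of_norm_le (((ms_wt_int y).const_mul _).const_mul _)
  filter_upwards with v
  rw [← mul_sub, norm_mul, Real.norm_eq_abs, Real.norm_eq_abs]
  have h2 := mul_le_mul_of_nonneg_left (gt_lip_wt hδ ht ht' v) (abs_nonneg (ms (y + v)))
  linarith

theorem hh_cont {δ : ℝ} (hδ : δ ≤ 1) : Continuous (hh δ) := by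
  rw [continuous_iff_continuousAt]
  intro t₀
  set M : ℝ := Real.exp (Real.exp (2 * (1 + 1)) / 10) * ∫ v : ℝ, |ms (t₀ + v)| * wt v with hM
  rw [Metric.continuousAt_iff]
  intro ε hε
  have hM0 : 0 ≤ M := mul_nonneg (Real.exp_pos _).le
    (integral_nonneg (fun v => mul_nonneg (abs_nonneg _) (wt_pos _).le))
  refine ⟨min 1 (ε / (M + 1)), by positivity, ?_⟩
  intro x hx
  rw [Real.dist_eq] at hx ⊢
  have h1 := hh_lip_wt hδ (t := x - t₀) (t' := 0) (R := 1) ((hx.trans_le (min_le_left _ _)).le) (by simp) t₀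
  rw [add_zero, show t₀ + (x - t₀) = x by ring, sub_zero, ← hM] at h1
  refine h1.trans_lt ?_
  have h2 := hx.trans_le (min_le_right 1 (ε / (M + 1)))
  rw [lt_div_iff₀ (by positivity)] at h2
  have h3 : |x - t₀| * M ≤ |x - t₀| * (M + 1) := mul_le_mul_of_nonneg_left (by linarith) (abs_nonneg _)
  linarith

theorem hh_gr {δ : ℝ} (hδ : δ ≤ 1) : ∃ A, Gr (hh δ) A (3 / 4) := by
  have hA := A0_pos
  refine ⟨A0 * Real.exp 2 * ∫ u : ℝ, Real.exp (-(1 * |u|)), hh_cont hδ, ?_⟩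
  intro t
  have h1 : |hh δ t| ≤ ∫ u : ℝ, (A0 * Real.exp 2 * Real.exp (3 / 4 * |t|)) * Real.exp (-(1 * |u|)) := by
    unfold hh
    rw [← Real.norm_eq_abs]
    apply norm_integral_le_of_norm_le ((integrable_exp_abs one_pos).const_mul _)
    filter_upwards with u
    rw [norm_mul, Real.norm_eq_abs, Real.norm_of_nonneg (gt_nonneg _ _)]
    calc |ms (t + u)| * gt δ u ≤ (A0 * Real.exp (3 / 4 * |t + u|)) * (Real.exp 2 * Real.exp (-(2 * |u|))) :=
          mul_le_mul (ms_bd _) (gt_exp hδ _) (gt_nonneg _ _) (by positivity)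
      _ = A0 * Real.exp 2 * Real.exp (3 / 4 * |t + u| + -(2 * |u|)) := by rw [Real.exp_add]; ring
      _ ≤ A0 * Real.exp 2 * Real.exp (3 / 4 * |t| + -(1 * |u|)) := by
          apply mul_le_mul_of_nonneg_left _ (by positivity)
          apply Real.exp_le_exp.mpr
          have := abs_add_le t u
          linarith [abs_nonneg u]
      _ = _ := by rw [Real.exp_add]; ring
  refine h1.trans (le_of_eq ?_)
  rw [integral_const_mul]; ring

/-- extraction of a pointwise convergent subsequence -/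
theorem extract (H : ℕ → ℝ → ℝ) (B : ℝ) (hb : ∀ n : ℕ, ∀ t : ℝ, |t| ≤ n → |H n t| ≤ B)
    (hl : ∀ n : ℕ, ∀ t t' : ℝ, |t| ≤ n → |t - t'| ≤ 1 → |H n t - H n t'| ≤ B * |t - t'|) :
    ∃ G : ℝ → ℝ, ∃ φ : ℕ → ℕ, StrictMono φ ∧ ∀ t, Tendsto (fun n => H (φ n) t) atTop (𝓝 (G t)) := by
  classical
  have hB0 : 0 ≤ B := (abs_nonneg _).trans (hb 0 0 (by simp))
  -- truncated sequence on the rationals
  set x : ℕ → ℚ → ℝ := fun n q => if |(q : ℝ)| ≤ n then H n q else 0 with hx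
  have hcomp : IsCompact (Set.univ.pi (fun _ : ℚ => Icc (-B) B)) := isCompact_univ_pi (fun _ => isCompact_Icc)
  have hmem : ∀ n, x n ∈ Set.univ.pi (fun _ : ℚ => Icc (-B) B) := by
    intro n q _
    show -B ≤ x n q ∧ x n q ≤ B
    rw [← abs_le, hx]
    simp only
    split_ifs with h
    · exact hb n q h
    · simpa using hB0
  obtain ⟨a, _, φ, hφ, ha⟩ := hcomp.tendsto_subseq hmem
  rw [tendsto_pi_nhds] at ha
  have hrat : ∀ q : ℚ, Tendsto (fun n => H (φ n) q) atTop (𝓝 (a q)) := by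
    intro q
    refine (ha q).congr' ?_
    obtain ⟨N, hN⟩ := exists_nat_ge |(q : ℝ)|
    filter_upwards [eventually_ge_atTop N] with n hn
    have h1 : |(q : ℝ)| ≤ (φ n : ℝ) := hN.trans (by exact_mod_cast hn.trans (hφ.id_le n))
    simp only [hx, Function.comp_apply]
    rw [if_pos h1]
  have hcau : ∀ t : ℝ, CauchySeq (fun n => H (φ n) t) := by
    intro t
    rw [Metric.cauchySeq_iff']
    intro ε hε
    obtain ⟨q, hq1, hq2⟩ := exists_rat_btwn (show t < t + min 1 (ε / (4 * (B + 1))) by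
      have : 0 < min 1 (ε / (4 * (B + 1))) := by positivity
      linarith)
    have hq3 : |t - (q : ℝ)| ≤ 1 := by
      rw [abs_sub_comm, abs_of_pos (by linarith)]
      have := min_le_left 1 (ε / (4 * (B + 1)))
      linarith
    have hq4 : B * |t - (q : ℝ)| ≤ ε / 4 := by
      rw [abs_sub_comm, abs_of_pos (by linarith)]
      have h1 := min_le_right 1 (ε / (4 * (B + 1)))
      have h2 : (q : ℝ) - t ≤ ε / (4 * (B + 1)) := by linarith
      rw [le_div_iff₀ (by positivity)] at h2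
      have h3 : 0 < (q : ℝ) - t := by linarith
      nlinarith
    have h5 := (hrat q).cauchySeq
    rw [Metric.cauchySeq_iff'] at h5
    obtain ⟨N1, hN1⟩ := h5 (ε / 4) (by positivity)
    obtain ⟨N2, hN2⟩ := exists_nat_ge |t|
    have hbig : ∀ n, N2 ≤ n → |t| ≤ (φ n : ℝ) := fun n hn =>
      hN2.trans (by exact_mod_cast hn.trans (hφ.id_le n))
    refine ⟨max N1 N2, fun n hn => ?_⟩
    have e1 := hl (φ n) t q (hbig n ((le_max_right _ _).trans hn)) hq3
    have e2 := hl (φ (max N1 N2)) t q (hbig _ (le_max_right _ _)) hq3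
    have e3 := hN1 n ((le_max_left _ _).trans hn)
    have e4 := hN1 (max N1 N2) (le_max_left _ _)
    rw [Real.dist_eq] at e3 e4 ⊢
    have a1 := abs_le.mp e1
    have a2 := abs_le.mp e2
    have a3 := abs_lt.mp e3
    have a4 := abs_lt.mp e4
    rw [abs_lt]
    constructor <;> linarith [a1.1, a1.2, a2.1, a2.2, a3.1, a3.2, a4.1, a4.2]
  choose G hG using fun t => cauchySeq_tendsto_of_complete (hcau t)
  exact ⟨G, φ, hφ, hG⟩

theorem exp_two_le : Real.exp 2 ≤ 10 := by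
  have h1 : Real.exp 2 = Real.exp 1 ^ 2 := by rw [← Real.exp_nat_mul]; norm_num
  have h2 := Real.exp_one_lt_d9
  have h3 := Real.exp_pos 1
  rw [h1]
  nlinarith

theorem dom_exp (s : ℝ) : Real.exp (Real.exp (2 * (|s| + 1)) / 10) * Real.exp (-(2 * Real.exp (2 * |s|))) ≤
    Real.exp (-(1 * |s|)) := by
  rw [← Real.exp_add]
  apply Real.exp_le_exp.mpr
  have h1 : Real.exp (2 * (|s| + 1)) = Real.exp (2 * |s|) * Real.exp 2 := by
    rw [← Real.exp_add]; congr 1; ring
  have h2 := exp_two_le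
  have h3 := exp_two_ge s
  have h4 := abs_nonneg s
  have h5 := sq_nonneg s
  rw [h1]
  nlinarith [Real.exp_pos (2 * |s|)]

/-- dominated convergence along translates -/
theorem trans_lim {δ : ℝ} (hδ : δ ≤ 1) {C4 : ℝ} (hC4 : 0 ≤ C4) {τ : ℕ → ℝ}
    (h2 : ∀ n : ℕ, ∀ t : ℝ, |t| ≤ n → ∫ v : ℝ, |ms (τ n + t + v)| * wt v ≤ C4)
    {G : ℝ → ℝ} {φ : ℕ → ℕ} (hφ : StrictMono φ)
    (hG : ∀ t, Tendsto (fun n => hh δ (τ (φ n) + t)) atTop (𝓝 (G t)))
    {κ : ℝ → ℂ} {C : ℝ} (hκ : Dk κ C) (t : ℝ) :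
    Tendsto (fun n => ∫ s : ℝ, (hh δ (τ (φ n) + (t + s)) : ℂ) * κ s) atTop
      (𝓝 (∫ s : ℝ, (G (t + s) : ℂ) * κ s)) := by
  have hC := hκ.nonneg
  apply tendsto_integral_filter_of_dominated_convergence (fun s => C4 * C * Real.exp (-(1 * |s|)))
  · apply Eventually.of_forall
    intro n
    apply Measurable.aestronglyMeasurable
    have := (hh_cont hδ).measurable
    have := hκ.meas
    fun_prop
  · obtain ⟨N, hN⟩ := exists_nat_ge |t|
    filter_upwards [eventually_ge_atTop N] with n hn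
    filter_upwards with s
    have h1 : |t| ≤ (φ n : ℝ) := hN.trans (by exact_mod_cast hn.trans (hφ.id_le n))
    have h3 := hh_bd_wt hδ (le_refl |s|) (τ (φ n) + t)
    rw [show τ (φ n) + t + s = τ (φ n) + (t + s) by ring] at h3
    have h4 := h3.trans (mul_le_mul_of_nonneg_left (h2 _ t h1) (Real.exp_pos _).le)
    rw [norm_mul, Complex.norm_real, Real.norm_eq_abs]
    calc |hh δ (τ (φ n) + (t + s))| * ‖κ s‖
        ≤ (Real.exp (Real.exp (2 * (|s| + 1)) / 10) * C4) * (C * Real.exp (-(2 * Real.exp (2 * |s|)))) :=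
          mul_le_mul h4 (hκ.bd s) (norm_nonneg _) (by positivity)
      _ = C4 * C * (Real.exp (Real.exp (2 * (|s| + 1)) / 10) * Real.exp (-(2 * Real.exp (2 * |s|)))) := by ring
      _ ≤ _ := mul_le_mul_of_nonneg_left (dom_exp s) (by positivity)
  · exact (integrable_exp_abs one_pos).const_mul _
  · filter_upwards with s
    apply Tendsto.mul_const
    exact (Complex.continuous_ofReal.tendsto _).comp (hG (t + s))

theorem dk_int {D : ℝ → ℝ} {A a : ℝ} (hD : Gr D A a) (ha : a ≤ 3 / 4) {κ : ℝ → ℂ} {C : ℝ} (hκ : Dk κ C) (t : ℝ) :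
    Integrable (fun s : ℝ => (D (t + s) : ℂ) * κ s) := by
  apply ms_kernel_int hκ hD.cont.measurable (B := A) _ t
  intro s
  refine (hD.bd s).trans (mul_le_mul_of_nonneg_left ?_ hD.nonneg)
  apply Real.exp_le_exp.mpr
  exact mul_le_mul_of_nonneg_right ha (abs_nonneg s)

theorem split_eq {D : ℝ → ℝ} {A a : ℝ} (hD : Gr D A a) (ha : a ≤ 3 / 4) {w : ℂ} (hw : xi (1 / 2 + w) = 0) :
    ∫ s : ℝ, (D s : ℂ) * Aw kr w s =
      (∫ s in Ioi (0:ℝ), (D s : ℂ) * Aw kr w s) - ∫ s in Ioi (0:ℝ), (D (-s) : ℂ) * Aw kr (-w) s := by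
  obtain ⟨C, hC⟩ := dk_Aw hw
  have hi := dk_int hD ha hC 0
  simp only [zero_add] at hi
  rw [← integral_add_compl measurableSet_Ioi hi (s := Ioi (0:ℝ)), compl_Ioi, sub_eq_add_neg]
  congr 1
  have h2 := integral_comp_neg_Ioi 0 (fun s : ℝ => (D s : ℂ) * Aw kr w s)
  rw [neg_zero] at h2
  rw [← h2, ← integral_neg]
  apply integral_congr_ae
  filter_upwards with s
  rw [Aw_neg hw (-s), neg_neg]; ring

end Pool.Agent.Helper71.MR
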