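import Pool.Agent.Helper71.MR.Self
import Pool.Agent.Helper71.MR.Kern
import Pool.Agent.Helper18.ES.Sums

open Complex Filter Topology MeasureTheory Set
open Pool.Agent.Helper18.ES (kap K K_inv K_pos GA S mu Phi GA_mu mu_le mu_conv hasDerivAt_Phi_scaled
  hasDerivAt_Phi summable_kap K_le_pow vv le_vv vv_ge_one mellin_kap)

namespace Pool.Agent.Helper71.MR

theorem one_sub_cos_nonneg (u : ℝ) : 0 ≤ 1 - Real.cos u := by linarith [Real.cos_le_one u]

theorem one_sub_cos_le_lin {u : ℝ} (hu : 0 ≤ u) : 1 - Real.cos u ≤ u := by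
  rcases le_total u 2 with h | h
  · have := Real.one_sub_sq_div_two_le_cos (x := u)
    nlinarith
  · have := Real.neg_one_le_cos u
    linarith

theorem one_sub_cos_le_rt {u : ℝ} (hu : 0 ≤ u) : 1 - Real.cos u ≤ 2 * u ^ (1 / 4 : ℝ) := by
  rcases le_total u 1 with h | h
  · have h1 := one_sub_cos_le_lin hu
    have h2 : u ≤ u ^ (1 / 4 : ℝ) := by
      rcases hu.eq_or_lt with h0 | h0
      · rw [← h0]; norm_num
      · calc u = u ^ (1:ℝ) := (Real.rpow_one u).symm
          _ ≤ u ^ (1 / 4 : ℝ) := Real.rpow_le_rpow_of_exponent_ge h0 h (by norm_num)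
    have h3 := Real.rpow_nonneg hu (1 / 4 : ℝ)
    linarith
  · have := Real.neg_one_le_cos u
    have h2 : 1 ≤ u ^ (1 / 4 : ℝ) := Real.one_le_rpow h (by norm_num)
    linarith

/-- the entire cosine integral -/
noncomputable def Cin (z : ℝ) : ℝ := ∫ y in Ioc (0:ℝ) 1, (1 - Real.cos (z * y)) / y

theorem cin_integrand_meas (z : ℝ) : Measurable (fun y : ℝ => (1 - Real.cos (z * y)) / y) := by fun_prop

theorem cin_integrable {z : ℝ} (hz : 0 ≤ z) : IntegrableOn (fun y : ℝ => (1 - Real.cos (z * y)) / y) (Ioc 0 1) := by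
  have h1 : IntegrableOn (fun _ : ℝ => z) (Ioc 0 1) := integrableOn_const (by simp)
  refine Integrable.mono' h1 (cin_integrand_meas z).aestronglyMeasurable ?_
  filter_upwards [self_mem_ae_restrict measurableSet_Ioc] with y hy
  rw [Real.norm_eq_abs, abs_of_nonneg (div_nonneg (one_sub_cos_nonneg _) hy.1.le), div_le_iff₀ hy.1]
  exact one_sub_cos_le_lin (mul_nonneg hz hy.1.le)

theorem Cin_nonneg (z : ℝ) : 0 ≤ Cin z :=
  setIntegral_nonneg measurableSet_Ioc (fun _ hy => div_nonneg (one_sub_cos_nonneg _) hy.1.le)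

theorem Cin_le_lin {z : ℝ} (hz : 0 ≤ z) : Cin z ≤ z := by
  have h1 : IntegrableOn (fun _ : ℝ => z) (Ioc (0:ℝ) 1) := integrableOn_const (by simp)
  calc Cin z ≤ ∫ _ in Ioc (0:ℝ) 1, z := by
        apply setIntegral_mono_on (cin_integrable hz) h1 measurableSet_Ioc
        intro y hy
        rw [div_le_iff₀ hy.1]
        exact one_sub_cos_le_lin (mul_nonneg hz hy.1.le)
    _ = z := by simp

theorem Cin_le_rt {z : ℝ} (hz : 0 ≤ z) : Cin z ≤ 8 * z ^ (1 / 4 : ℝ) := by
  have h1 : IntegrableOn (fun y : ℝ => 2 * z ^ (1 / 4 : ℝ) * y ^ (-(3 / 4) : ℝ)) (Ioc (0:ℝ) 1) := by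
    have := (intervalIntegral.intervalIntegrable_rpow' (a := 0) (b := 1) (r := -(3 / 4)) (by norm_num)).1
    exact this.const_mul _
  calc Cin z ≤ ∫ y in Ioc (0:ℝ) 1, 2 * z ^ (1 / 4 : ℝ) * y ^ (-(3 / 4) : ℝ) := by
        apply setIntegral_mono_on (cin_integrable hz) h1 measurableSet_Ioc
        intro y hy
        rw [div_le_iff₀ hy.1]
        refine (one_sub_cos_le_rt (mul_nonneg hz hy.1.le)).trans (le_of_eq ?_)
        rw [Real.mul_rpow hz hy.1.le]
        have : y ^ (-(3 / 4) : ℝ) * y = y ^ (1 / 4 : ℝ) := by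
          nth_rewrite 2 [← Real.rpow_one y]
          rw [← Real.rpow_add hy.1]; norm_num
        rw [mul_assoc (2 * z ^ (1 / 4 : ℝ)), this]; ring
    _ = 8 * z ^ (1 / 4 : ℝ) := by
        rw [integral_const_mul, ← intervalIntegral.integral_of_le zero_le_one,
          integral_rpow (Or.inl (by norm_num))]
        norm_num
        ring

theorem Phi_zero : Phi 0 = -1 := by unfold Phi; norm_num

theorem vkap_int : Integrable (fun v : ℝ => v * kap v) := by
  have h := ((gz_int 5).const_mul (4 * Real.pi ^ 2 : ℂ)).sub ((gz_int 3).const_mul (6 * Real.pi : ℂ))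
  have h2 := h.re
  refine h2.congr ?_
  filter_upwards with x
  simp only [Pi.sub_apply, gz_eq, Complex.real_smul]
  unfold kap
  have : ((4 * Real.pi ^ 2 : ℂ) * (((x ^ 5 : ℝ) : ℂ) * ((Real.exp (-(Real.pi * x ^ 2)) : ℝ) : ℂ)) -
      (6 * Real.pi : ℂ) * (((x ^ 3 : ℝ) : ℂ) * ((Real.exp (-(Real.pi * x ^ 2)) : ℝ) : ℂ))) =
      ((x * ((4 * Real.pi ^ 2 * x ^ 4 - 6 * Real.pi * x ^ 2) * Real.exp (-(Real.pi * x ^ 2))) : ℝ) : ℂ) := by
    push_cast; ring
  simp only [this]
  rfl

/-- ∫ Cin(2πξv) κ(v) dv = (1 + Φ(ξ))/2 -/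
theorem cin_kap {ξ : ℝ} (hξ : 0 < ξ) :
    IntegrableOn (fun v : ℝ => Cin (2 * Real.pi * ξ * v) * kap v) (Ioi 0) ∧
    ∫ v in Ioi (0:ℝ), Cin (2 * Real.pi * ξ * v) * kap v = (1 + Phi ξ) / 2 := by
  set F : ℝ → ℝ → ℝ := fun v y => (1 - Real.cos (2 * Real.pi * ξ * v * y)) / y * kap v with hF
  have hmeas : Measurable (Function.uncurry F) := by
    simp only [hF, Function.uncurry_def]
    have : Continuous kap := by unfold kap; fun_prop
    have h2 := this.measurable
    fun_prop
  have hdom : Integrable (fun p : ℝ × ℝ => (2 * Real.pi * ξ * |p.1 * kap p.1|) * 1)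
      ((volume.restrict (Ioi (0:ℝ))).prod (volume.restrict (Ioc (0:ℝ) 1))) := by
    have h1 : Integrable (fun v : ℝ => 2 * Real.pi * ξ * |v * kap v|) (volume.restrict (Ioi (0:ℝ))) :=
      (vkap_int.abs.const_mul _).integrableOn
    have h2 : Integrable (fun _ : ℝ => (1:ℝ)) (volume.restrict (Ioc (0:ℝ) 1)) := by
      exact integrableOn_const (by simp)
    exact h1.mul_prod h2
  have hint : Integrable (Function.uncurry F)
      ((volume.restrict (Ioi (0:ℝ))).prod (volume.restrict (Ioc (0:ℝ) 1))) := by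
    refine Integrable.mono' hdom hmeas.aestronglyMeasurable ?_
    rw [Measure.prod_restrict]
    filter_upwards [self_mem_ae_restrict (measurableSet_Ioi.prod measurableSet_Ioc)] with p hp
    obtain ⟨hp1, hp2⟩ := hp
    have hv : 0 < p.1 := hp1
    have hy : 0 < p.2 := hp2.1
    simp only [hF, Function.uncurry_def]
    rw [Real.norm_eq_abs, abs_mul, abs_of_nonneg (div_nonneg (one_sub_cos_nonneg _) hy.le), mul_one,
      abs_mul, abs_of_pos hv]
    have h3 : (1 - Real.cos (2 * Real.pi * ξ * p.1 * p.2)) / p.2 ≤ 2 * Real.pi * ξ * p.1 := by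
      rw [div_le_iff₀ hy]
      exact one_sub_cos_le_lin (by positivity)
    calc _ ≤ (2 * Real.pi * ξ * p.1) * |kap p.1| := mul_le_mul_of_nonneg_right h3 (abs_nonneg _)
      _ = _ := by ring
  have hinner : ∀ v : ℝ, ∫ y in Ioc (0:ℝ) 1, F v y = Cin (2 * Real.pi * ξ * v) * kap v := by
    intro v
    simp only [hF]
    rw [integral_mul_const]
    rfl
  refine ⟨?_, ?_⟩
  · have h1 := hint.integral_prod_left
    refine Integrable.congr h1 ?_
    filter_upwards with v
    exact hinner v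
  · have h1 := integral_integral_swap hint
    simp_rw [hinner] at h1
    rw [h1]
    have h2 : ∀ y ∈ Ioc (0:ℝ) 1, ∫ v in Ioi (0:ℝ), F v y = -(kap (ξ * y) / y) / 2 := by
      intro y hy
      have h3 : ∀ v : ℝ, F v y = (1 / y) * kap v - (1 / y) * (Real.cos (2 * Real.pi * v * (ξ * y)) * kap v) := by
        intro v
        simp only [hF]
        rw [show 2 * Real.pi * ξ * v * y = 2 * Real.pi * v * (ξ * y) by ring]
        ring
      simp_rw [h3]
      have hi : Integrable (fun v : ℝ => Real.cos (2 * Real.pi * v * (ξ * y)) * kap v) := by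
        refine kap_int.bdd_mul (c := 1) (f := fun v : ℝ => Real.cos (2 * Real.pi * v * (ξ * y))) ?_ ?_
        · apply Continuous.aestronglyMeasurable; fun_prop
        · filter_upwards with v
          exact Real.abs_cos_le_one _
      rw [integral_sub (kap_int.integrableOn.const_mul _) (hi.integrableOn.const_mul _),
        integral_const_mul, integral_const_mul, kap_cos, kap_zero_int]
      ring
    rw [setIntegral_congr_fun measurableSet_Ioc h2]
    set q : ℝ → ℝ := fun t => (4 * Real.pi ^ 2 * ξ ^ 4 * t ^ 3 - 6 * Real.pi * ξ ^ 2 * t) *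
      Real.exp (-(Real.pi * (ξ * t) ^ 2)) with hq
    have h4 : ∀ t, HasDerivAt (fun t => Phi (ξ * t)) (-q t) t := by
      intro t
      have h5 := (hasDerivAt_Phi (ξ * t)).comp t ((hasDerivAt_id t).const_mul ξ)
      have h6 : HasDerivAt (fun t => Phi (ξ * t)) ((6 * Real.pi * (ξ * t) - 4 * Real.pi ^ 2 * (ξ * t) ^ 3) *
          Real.exp (-(Real.pi * (ξ * t) ^ 2)) * (ξ * 1)) t := h5
      refine h6.congr_deriv ?_
      simp only [hq]; ring
    have h7 : ∫ t in (0:ℝ)..1, -q t = Phi ξ - Phi 0 := by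
      rw [intervalIntegral.integral_eq_sub_of_hasDerivAt (fun t _ => h4 t)]
      · simp
      · apply Continuous.intervalIntegrable
        simp only [hq]; fun_prop
    have h8 : ∫ y in Ioc (0:ℝ) 1, -(kap (ξ * y) / y) / 2 = (∫ t in (0:ℝ)..1, -q t) / 2 := by
      rw [intervalIntegral.integral_of_le zero_le_one, ← integral_div]
      apply setIntegral_congr_fun measurableSet_Ioc
      intro y hy
      have hy0 : y ≠ 0 := hy.1.ne'
      simp only [hq]
      unfold kap
      field_simp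
    rw [h8, h7, Phi_zero]
    ring

end Pool.Agent.Helper71.MR
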