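import Pool.Agent.Helper71.MR.Lim

open Complex Filter Topology MeasureTheory Set
open Pool.Agent.Helper57.Zeta
open Pool.Agent.Helper18.ES (kap K K_inv K_pos GA S mu Phi abs_Phi_le adm_S mu_le mellin_Phi)

namespace Pool.Agent.Helper71.MR

theorem cw_eq (w : ℂ) : cw w = mellin (fun u : ℝ => (Phi u : ℂ)) (1 / 2 + w) := by
  have h := lap_eq_mellin (fun t : ℝ => (Phi (Real.exp (-t)) : ℂ)) (1 / 2 + w)
  have h2 : mellin (fun x : ℝ => (fun t : ℝ => (Phi (Real.exp (-t)) : ℂ)) (-Real.log x)) (1 / 2 + w) =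
      mellin (fun u : ℝ => (Phi u : ℂ)) (1 / 2 + w) := by
    unfold mellin
    apply setIntegral_congr_fun measurableSet_Ioi
    intro x hx
    have hx0 : (0:ℝ) < x := hx
    simp only [neg_neg]
    rw [Real.exp_log hx0]
  rw [← h2, ← h]
  unfold cw lap ee
  apply integral_congr_ae
  filter_upwards with s
  push_cast
  rw [show (-((1 / 2 + w) * (s : ℂ))) = (-(s:ℂ) / 2) + (-(w * s)) by ring, Complex.exp_add]
  ring

theorem cw_ne {w : ℂ} (hw : xi (1 / 2 + w) = 0) : cw w ≠ 0 := by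
  have h := abs_lt.mp (zero_re hw)
  have hre : (1 / 2 + w).re = 1 / 2 + w.re := by simp
  have h0 : 0 < (1 / 2 + w).re := by rw [hre]; linarith
  rw [cw_eq, (mellin_Phi h0).2]
  have hG := Complex.Gammaℝ_ne_zero_of_re_pos h0
  have h2 : (1 / 2 + w) - 1 ≠ 0 := by
    intro h3
    have h4 : ((1 / 2 + w) - 1).re = 0 := by rw [h3]; simp
    rw [Complex.sub_re, hre] at h4
    simp at h4; linarith
  exact mul_ne_zero (mul_ne_zero (by norm_num) h2) hG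

theorem xi_half_neg {w : ℂ} (hw : xi (1 / 2 + w) = 0) : xi (1 / 2 + -w) = 0 := by
  rw [show (1 / 2 + -w : ℂ) = 1 - (1 / 2 + w) by ring, xi_one_sub, hw]

theorem coef_bd {w : ℂ} (hw : xi (1 / 2 + w) = 0) : ∃ C : ℝ, 0 ≤ C ∧ ∀ τ : ℝ,
    Real.exp (w.re * τ) ≤ C * ∫ v : ℝ, |ms (τ + v)| * wt v := by
  obtain ⟨C, hC⟩ := dk_Aw hw
  have hC0 := hC.nonneg
  have hc := norm_pos_iff.mpr (cw_ne hw)
  refine ⟨C / ‖cw w‖, by positivity, fun τ => ?_⟩
  have h := ms_Aw hw τ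
  have h1 : ‖∫ s : ℝ, (ms (τ + s) : ℂ) * Aw kr w s‖ ≤ ∫ v : ℝ, C * (|ms (τ + v)| * wt v) := by
    apply norm_integral_le_of_norm_le ((ms_wt_int τ).const_mul C)
    filter_upwards with s
    rw [norm_mul, Complex.norm_real, Real.norm_eq_abs]
    have h2 : ‖Aw kr w s‖ ≤ C * wt s := by
      refine (hC.bd s).trans (mul_le_mul_of_nonneg_left ?_ hC0)
      unfold wt
      apply Real.exp_le_exp.mpr
      have := Real.exp_pos (2 * |s|)
      linarith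
    have h3 := mul_le_mul_of_nonneg_left h2 (abs_nonneg (ms (τ + s)))
    linarith
  rw [h, norm_mul, norm_cexp_mul, integral_const_mul] at h1
  rw [div_mul_eq_mul_div, le_div_iff₀ hc]
  exact h1

theorem big_re {σ K C4 : ℝ} (hC4 : 0 ≤ C4) (hB : Big σ K C4) {w : ℂ} (hw : xi (1 / 2 + w) = 0) : w.re = 0 := by
  obtain ⟨C1, h10, h1⟩ := coef_bd hw
  obtain ⟨C2, h20, h2⟩ := coef_bd (xi_half_neg hw)
  by_contra hne
  have hpos : 0 < |w.re| := abs_pos.mpr hne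
  obtain ⟨p, hp⟩ := hB 0 (((C1 + C2) * C4) / |w.re|) 1 one_pos
  obtain ⟨e1, _, e3⟩ := hp p ⟨le_rfl, by linarith⟩
  rw [div_le_iff₀ hpos] at e1
  have f1 := (h1 p).trans (mul_le_mul_of_nonneg_left e3 h10)
  have f2 := (h2 p).trans (mul_le_mul_of_nonneg_left e3 h20)
  have f3 : Real.exp (|w.re| * |p|) ≤ C1 * C4 + C2 * C4 := by
    have g1 : 0 ≤ C1 * C4 := mul_nonneg h10 hC4
    have g2 : 0 ≤ C2 * C4 := mul_nonneg h20 hC4
    rw [← abs_mul]
    rcases abs_choice (w.re * p) with h | h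
    · rw [h]; linarith
    · rw [h]
      have : (-w).re * p = -(w.re * p) := by simp
      rw [this] at f2
      linarith
  have f4 := Real.add_one_le_exp (|w.re| * |p|)
  nlinarith

/-- return times are relatively dense -/
theorem rel_dense (Γ : Finset ℂ) (hΓ : ∀ w ∈ Γ, w.re = 0) {δ : ℝ} (hδ : 0 < δ) :
    ∃ W : ℝ, 0 ≤ W ∧ ∀ s : ℝ, ∃ τ ∈ Icc s (s + W), ∀ w ∈ Γ, ‖cexp (w * τ) - 1‖ < δ := by
  classical
  have hne : ∀ w ∈ Γ, ∀ t : ℝ, ‖cexp (w * t)‖ = 1 := by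
    intro w hw t
    rw [norm_cexp_mul, hΓ w hw, zero_mul, Real.exp_zero]
  set Φ : ℝ → (Γ → ℂ) := fun t w => cexp ((w : ℂ) * t) with hΦ
  have hsub : range Φ ⊆ Metric.closedBall 0 1 := by
    rintro _ ⟨t, rfl⟩
    rw [mem_closedBall_zero_iff, pi_norm_le_iff_of_nonneg zero_le_one]
    intro w
    exact (hne _ w.2 t).le
  have htb : TotallyBounded (range Φ) := ((isCompact_closedBall (0 : Γ → ℂ) 1).totallyBounded).subset hsub
  obtain ⟨F, hFs, hFf, hFc⟩ := Metric.finite_approx_of_totallyBounded htb δ hδ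
  have hch : ∀ y ∈ F, ∃ t : ℝ, Φ t = y := fun y hy => hFs hy
  choose! g hg using hch
  obtain ⟨B, hB⟩ := (hFf.image (fun y => |g y|)).bddAbove
  have hB2 : ∀ y ∈ F, |g y| ≤ B := fun y hy => hB ⟨y, hy, rfl⟩
  have hB0 : 0 ≤ B := by
    have h1 : Φ 0 ∈ ⋃ y ∈ F, Metric.ball y δ := hFc ⟨0, rfl⟩
    simp only [mem_iUnion] at h1
    obtain ⟨y, hy, _⟩ := h1
    exact (abs_nonneg _).trans (hB2 y hy)
  refine ⟨2 * B, by positivity, fun s => ?_⟩
  have h1 : Φ (s + B) ∈ ⋃ y ∈ F, Metric.ball y δ := hFc ⟨s + B, rfl⟩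
  simp only [mem_iUnion] at h1
  obtain ⟨y, hy, hy2⟩ := h1
  have h2 := abs_le.mp (hB2 y hy)
  refine ⟨s + B - g y, ⟨by linarith [h2.2], by linarith [h2.1]⟩, ?_⟩
  intro w hw
  rw [Metric.mem_ball, ← hg y hy, dist_eq_norm, pi_norm_lt_iff hδ] at hy2
  have h3 := hy2 ⟨w, hw⟩
  simp only [hΦ, Pi.sub_apply] at h3
  have h4 : cexp (w * ((s + B - g y : ℝ) : ℂ)) - 1 =
      (cexp (w * ((s + B : ℝ) : ℂ)) - cexp (w * (g y : ℂ))) * cexp (w * ((-(g y) : ℝ) : ℂ)) := by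
    rw [sub_mul, ← Complex.exp_add, ← Complex.exp_add]
    congr 1
    · congr 1; push_cast; ring
    · rw [← Complex.exp_zero]; congr 1; push_cast; ring
  rw [h4, norm_mul, hne w hw, mul_one]
  exact h3

/-- centres of good windows that are return times -/
theorem good_times {σ K C4 : ℝ} (hC4 : 0 ≤ C4) (hB : Big σ K C4) : ∃ τ : ℕ → ℝ,
    (∀ n : ℕ, ∀ t : ℝ, |t| ≤ n → σ * ms (τ n + t) ≤ K + 1 / ((n : ℝ) + 1) ∧
      ∫ v : ℝ, |ms (τ n + t + v)| * wt v ≤ C4) ∧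
    (∀ w : ℂ, xi (1 / 2 + w) = 0 → Tendsto (fun n => cexp (w * τ n)) atTop (𝓝 1)) := by
  classical
  have hfin : ∀ n : ℕ, {w : ℂ | xi (1 / 2 + w) = 0 ∧ |w.im| ≤ n}.Finite := by
    intro n
    have h := (zsym_finite (n : ℝ)).preimage (f := fun w : ℂ => 1 / 2 + w) (by
      intro a _ b _ hab
      simpa using hab)
    refine h.subset ?_
    intro w hw
    refine ⟨hw.1, ?_⟩
    have : (1 / 2 + w).im = w.im := by simp
    rw [this]
    exact hw.2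
  have key : ∀ n : ℕ, ∃ τ : ℝ,
      (∀ t : ℝ, |t| ≤ n → σ * ms (τ + t) ≤ K + 1 / ((n : ℝ) + 1) ∧ ∫ v : ℝ, |ms (τ + t + v)| * wt v ≤ C4) ∧
      (∀ w : ℂ, xi (1 / 2 + w) = 0 → |w.im| ≤ n → ‖cexp (w * τ) - 1‖ < 1 / ((n : ℝ) + 1)) := by
    intro n
    obtain ⟨W, hW0, hWr⟩ := rel_dense (hfin n).toFinset (by
      intro w hw
      rw [Set.Finite.mem_toFinset] at hw
      exact big_re hC4 hB hw.1) (δ := 1 / ((n : ℝ) + 1)) (by positivity)
    obtain ⟨p, hp2⟩ := hB (W + 2 * n) 0 (1 / ((n : ℝ) + 1)) (by positivity)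
    obtain ⟨τ, hτ, hτ2⟩ := hWr (p + n)
    refine ⟨τ, ?_, ?_⟩
    · intro t ht
      have h1 := abs_le.mp ht
      have h2 := hp2 (τ + t) ⟨by linarith [hτ.1, h1.1], by linarith [hτ.2, h1.2]⟩
      exact h2.2
    · intro w hw hwi
      apply hτ2
      rw [Set.Finite.mem_toFinset]
      exact ⟨hw, hwi⟩
  choose τ h2 h3 using key
  refine ⟨τ, h2, ?_⟩
  intro w hw
  rw [tendsto_iff_norm_sub_tendsto_zero]
  apply squeeze_zero' (g := fun n : ℕ => 1 / ((n : ℝ) + 1))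
  · exact Eventually.of_forall fun n => norm_nonneg _
  · obtain ⟨N, hN⟩ := exists_nat_ge |w.im|
    filter_upwards [eventually_ge_atTop N] with n hn
    have : |w.im| ≤ (n : ℝ) := hN.trans (by exact_mod_cast hn)
    exact (h3 n w hw this).le
  · exact tendsto_one_div_add_atTop_nhds_zero_nat

end Pool.Agent.Helper71.MR
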