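import Pool.Agent.Helper71.MR.Half

open Complex Filter Topology MeasureTheory Set Metric
open Pool.Agent.Helper57.Zeta

namespace Pool.Agent.Helper71.MR

variable {k : ℝ → ℝ} {D : ℝ → ℝ} {A a : ℝ}

/-- Fubini on the quadrant s > 0, t ≤ 0 -/
theorem quad (hD : Gr D A a) (ha : 0 ≤ a) (hk : Ker k) (w : ℂ) :
    ∫ t in Iic (0:ℝ), Np k D t * cexp (-(w * t)) = ∫ s in Ioi (0:ℝ), (D s : ℂ) * Aw k w s := by
  have hA := hD.nonneg
  obtain ⟨C, hC0, hC⟩ := hk.fast (a + 1 + |w.re|)
  have hswap : Integrable (Function.uncurry fun (t s : ℝ) => (D s : ℂ) * (k (s - t) : ℂ) * cexp (-(w * t)))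
      ((volume.restrict (Iic (0:ℝ))).prod (volume.restrict (Ioi (0:ℝ)))) := by
    have h1 : Integrable (fun p : ℝ × ℝ => (A * C * Real.exp (-(1 * |p.1|))) * Real.exp (-(1 * |p.2|)))
        ((volume.restrict (Iic (0:ℝ))).prod (volume.restrict (Ioi (0:ℝ)))) :=
      Integrable.mul_prod (f := fun t : ℝ => A * C * Real.exp (-(1 * |t|)))
        (g := fun s : ℝ => Real.exp (-(1 * |s|)))
        ((integrable_exp_abs one_pos).const_mul _).integrableOn (integrable_exp_abs one_pos).integrableOn
    refine Integrable.mono' h1 ?_ ?_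
    · apply Continuous.aestronglyMeasurable
      have := hD.cont; have := hk.cont
      simp only [Function.uncurry_def]
      fun_prop
    · rw [Measure.prod_restrict]
      filter_upwards [self_mem_ae_restrict (measurableSet_Iic.prod measurableSet_Ioi)] with p hp
      obtain ⟨hp1, hp2⟩ := hp
      have ht : p.1 ≤ 0 := hp1
      have hs : 0 < p.2 := hp2
      simp only [Function.uncurry_def]
      rw [norm_mul, norm_mul, norm_cexp_neg_mul, Complex.norm_real, Complex.norm_real,
        Real.norm_eq_abs, Real.norm_eq_abs, abs_of_pos (hk.pos _)]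
      calc |D p.2| * k (p.2 - p.1) * Real.exp (-(w.re * p.1))
          ≤ (A * Real.exp (a * |p.2|)) * (C * Real.exp (-((a + 1 + |w.re|) * |p.2 - p.1|))) *
            Real.exp (-(w.re * p.1)) := by
            apply mul_le_mul_of_nonneg_right _ (Real.exp_pos _).le
            exact mul_le_mul (hD.bd _) (hC _) (hk.pos _).le (by positivity)
        _ = A * C * Real.exp (a * |p.2| + -((a + 1 + |w.re|) * |p.2 - p.1|) + -(w.re * p.1)) := by
            rw [Real.exp_add, Real.exp_add]; ring
        _ ≤ A * C * Real.exp (-(1 * |p.1|) + -(1 * |p.2|)) := by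
            apply mul_le_mul_of_nonneg_left _ (by positivity)
            apply Real.exp_le_exp.mpr
            rw [abs_of_pos hs, abs_of_nonpos ht, abs_of_pos (by linarith : 0 < p.2 - p.1)]
            nlinarith [mul_nonneg (abs_nonneg w.re) hs.le, mul_nonneg ha (neg_nonneg.mpr ht),
              mul_nonneg (sub_nonneg.mpr (le_abs_self w.re)) (neg_nonneg.mpr ht)]
        _ = _ := by rw [Real.exp_add]; ring
  calc ∫ t in Iic (0:ℝ), Np k D t * cexp (-(w * t))
      = ∫ t in Iic (0:ℝ), ∫ s in Ioi (0:ℝ), (D s : ℂ) * (k (s - t) : ℂ) * cexp (-(w * t)) := by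
        apply integral_congr_ae
        filter_upwards with t
        unfold Np
        rw [← integral_mul_const]
    _ = ∫ s in Ioi (0:ℝ), ∫ t in Iic (0:ℝ), (D s : ℂ) * (k (s - t) : ℂ) * cexp (-(w * t)) :=
        integral_integral_swap hswap
    _ = _ := by
        apply integral_congr_ae
        filter_upwards with s
        unfold Aw
        rw [← integral_const_mul]
        have h := integral_comp_neg_Iic 0 (fun v : ℝ => (D s : ℂ) * (cexp (w * v) * (k (s + v) : ℂ)))
        rw [neg_zero] at h
        rw [← h]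
        apply integral_congr_ae
        filter_upwards with t
        rw [show s + -t = s - t by ring]
        have : cexp (w * ((-t : ℝ) : ℂ)) = cexp (-(w * t)) := by congr 1; push_cast; ring
        rw [this]; ring

theorem lap_at (hD : Gr D A a) (ha : 0 ≤ a) (hk : Ker k)
    (h0 : ∀ t, ∫ s : ℝ, (D s : ℂ) * (k (s - t) : ℂ) = 0) (w : ℂ) :
    lap (Np k D) w = (∫ s in Ioi (0:ℝ), (D s : ℂ) * Aw k w s) -
      ∫ s in Ioi (0:ℝ), (D (-s) : ℂ) * Aw k (-w) s := by
  have hf := Np_fast hD ha hk h0
  have hi := hf.lap_integrable w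
  unfold lap
  rw [← integral_add_compl measurableSet_Iic hi (s := Iic (0:ℝ)), compl_Iic, quad hD ha hk w,
    sub_eq_add_neg]
  congr 1
  have h1 := quad hD.refl ha hk (-w)
  rw [← h1]
  have h := integral_comp_neg_Iic 0 (fun v : ℝ => Np k D v * cexp (-(w * v)))
  rw [neg_zero] at h
  rw [← h, ← integral_neg]
  apply integral_congr_ae
  filter_upwards with t
  have h3 := Np_add hD ha hk (-t)
  rw [h0, neg_neg] at h3
  have h4 : Np k D (-t) = -Np k (fun s => D (-s)) t := by linear_combination h3
  rw [h4]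
  have : cexp (-(w * ((-t : ℝ) : ℂ))) = cexp (-(-w * t)) := by congr 1; push_cast; ring
  rw [this]; ring

end Pool.Agent.Helper71.MR
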