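import Pool.Agent.Helper71.MR.Ms
import Pool.Agent.Helper71.MR.Zer

open Complex Filter Topology MeasureTheory Set
open Pool.Agent.Helper57.Zeta
open Pool.Agent.Helper18.ES (kap K K_inv K_pos GA S mu Phi abs_Phi_le adm_S mu_le)

namespace Pool.Agent.Helper71.MR

theorem ekr_integrable (θ : ℝ) : Integrable (fun u : ℝ => Real.exp (θ * u) * kr u) := by
  have h := (kr_fast.lap_integrable (-(θ : ℂ))).norm
  refine h.congr ?_
  filter_upwards with u
  rw [norm_mul, norm_cexp_neg_mul, Complex.norm_real, Real.norm_eq_abs, abs_of_pos (kr_pos _)]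
  simp only [Complex.neg_re, Complex.ofReal_re]
  rw [mul_comm]; congr 2; ring

/-- integrability of the sheared product -/
theorem shear_int {θ β : ℝ} (h : β < θ) :
    Integrable (fun p : ℝ × ℝ => Real.exp (θ * p.1) * Real.exp (β * p.2) * kr (p.1 + p.2))
      (volume.prod (volume.restrict (Ioi (0:ℝ)))) := by
  have hcont : Continuous (fun p : ℝ × ℝ => Real.exp (θ * p.1) * Real.exp (β * p.2) * kr (p.1 + p.2)) := by
    have := kr_cont
    fun_prop
  have hform : ∀ s v : ℝ, Real.exp (θ * s) * Real.exp (β * v) * kr (s + v) =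
      Real.exp ((β - θ) * v) * (Real.exp (θ * (s + v)) * kr (s + v)) := by
    intro s v
    have : Real.exp (θ * s) * Real.exp (β * v) = Real.exp ((β - θ) * v) * Real.exp (θ * (s + v)) := by
      rw [← Real.exp_add, ← Real.exp_add]; congr 1; ring
    rw [this]; ring
  rw [integrable_prod_iff' hcont.aestronglyMeasurable]
  constructor
  · filter_upwards with v
    simp_rw [hform]
    exact ((ekr_integrable θ).comp_add_right v).const_mul _
  · have h2 : ∀ v : ℝ, ∫ s : ℝ, ‖Real.exp (θ * s) * Real.exp (β * v) * kr (s + v)‖ =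
        Real.exp ((β - θ) * v) * ∫ u : ℝ, Real.exp (θ * u) * kr u := by
      intro v
      rw [← integral_add_right_eq_self (fun u : ℝ => Real.exp (θ * u) * kr u) v, ← integral_const_mul]
      apply integral_congr_ae
      filter_upwards with s
      rw [Real.norm_of_nonneg (by have := kr_pos (s + v); positivity), hform]
    simp only
    simp_rw [h2]
    exact (integrableOn_exp_mul_Ioi (by linarith) 0).mul_const _

theorem shear {f : ℝ → ℂ} (hf : Measurable f) {A θ₁ θ₂ : ℝ}
    (hb : ∀ y, ‖f y‖ ≤ A * (Real.exp (θ₁ * y) + Real.exp (θ₂ * y))) {w : ℂ} (h1 : w.re < θ₁) (h2 : w.re < θ₂)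
    (t : ℝ) : ∫ s : ℝ, f (t + s) * Aw kr w s =
      ∫ v in Ioi (0:ℝ), cexp (w * v) * ∫ s : ℝ, f (t - v + s) * (kr s : ℂ) := by
  have hA : 0 ≤ A := by
    have := (norm_nonneg _).trans (hb 0)
    have h3 := Real.exp_pos (θ₁ * 0)
    have h4 := Real.exp_pos (θ₂ * 0)
    by_contra h
    push Not at h
    nlinarith
  have hint : Integrable (Function.uncurry fun s v : ℝ => f (t + s) * (cexp (w * v) * (kr (s + v) : ℂ)))
      (volume.prod (volume.restrict (Ioi (0:ℝ)))) := by
    have hdom := ((shear_int h1).const_mul (A * Real.exp (θ₁ * t))).add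
      ((shear_int h2).const_mul (A * Real.exp (θ₂ * t)))
    refine Integrable.mono' hdom ?_ ?_
    · apply Measurable.aestronglyMeasurable
      simp only [Function.uncurry_def]
      have := kr_cont.measurable
      fun_prop
    · filter_upwards with p
      simp only [Function.uncurry_def, Pi.add_apply]
      rw [norm_mul, norm_mul, norm_cexp_mul, Complex.norm_real, Real.norm_eq_abs, abs_of_pos (kr_pos _)]
      have h3 := hb (t + p.1)
      have hk := kr_pos (p.1 + p.2)
      calc ‖f (t + p.1)‖ * (Real.exp (w.re * p.2) * kr (p.1 + p.2))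
          ≤ (A * (Real.exp (θ₁ * (t + p.1)) + Real.exp (θ₂ * (t + p.1)))) *
            (Real.exp (w.re * p.2) * kr (p.1 + p.2)) := mul_le_mul_of_nonneg_right h3 (by positivity)
        _ = _ := by
          rw [mul_add θ₁, mul_add θ₂, Real.exp_add, Real.exp_add]; ring
  calc ∫ s : ℝ, f (t + s) * Aw kr w s
      = ∫ s : ℝ, ∫ v in Ioi (0:ℝ), f (t + s) * (cexp (w * v) * (kr (s + v) : ℂ)) := by
        apply integral_congr_ae
        filter_upwards with s
        unfold Aw
        rw [← integral_const_mul]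
    _ = ∫ v in Ioi (0:ℝ), ∫ s : ℝ, f (t + s) * (cexp (w * v) * (kr (s + v) : ℂ)) :=
        integral_integral_swap hint
    _ = _ := by
        apply integral_congr_ae
        filter_upwards with v
        rw [← integral_const_mul, ← integral_sub_right_eq_self _ v]
        apply integral_congr_ae
        filter_upwards with s
        rw [show t + (s - v) = t - v + s by ring, show s - v + v = s by ring]
        ring

theorem int_shift_Ioi (G : ℝ → ℂ) (s : ℝ) : ∫ v in Ioi (0:ℝ), G (s + v) = ∫ u in Ioi s, G u := by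
  rw [← integral_indicator measurableSet_Ioi, ← integral_indicator measurableSet_Ioi]
  conv_rhs => rw [← integral_add_left_eq_self _ s]
  congr 1
  ext v
  by_cases hv : 0 < v
  · rw [indicator_of_mem (show v ∈ Ioi (0:ℝ) from hv), indicator_of_mem]
    rw [mem_Ioi]; linarith
  · rw [indicator_of_notMem (show v ∉ Ioi (0:ℝ) from hv), indicator_of_notMem]
    rw [mem_Ioi]; intro h; exact hv (by linarith)

theorem int_shift_Iic (G : ℝ → ℂ) (s : ℝ) : ∫ v in Ioi (0:ℝ), G (s - v) = ∫ u in Iic s, G u := by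
  rw [integral_Iic_eq_integral_Iio, ← integral_indicator measurableSet_Ioi, ← integral_indicator measurableSet_Iio]
  conv_rhs => rw [← integral_sub_left_eq_self _ volume s]
  congr 1
  ext v
  by_cases hv : 0 < v
  · rw [indicator_of_mem (show v ∈ Ioi (0:ℝ) from hv), indicator_of_mem]
    rw [mem_Iio]; linarith
  · rw [indicator_of_notMem (show v ∉ Ioi (0:ℝ) from hv), indicator_of_notMem]
    rw [mem_Iio]; intro h; exact hv (by linarith)

theorem Aw_right (w : ℂ) (s : ℝ) :
    Aw kr w s = cexp (-(w * s)) * ∫ u in Ioi s, (kr u : ℂ) * cexp (w * u) := by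
  rw [← int_shift_Ioi, ← integral_const_mul]
  unfold Aw
  apply integral_congr_ae
  filter_upwards with v
  have : cexp (-(w * s)) * cexp (w * ((s + v : ℝ) : ℂ)) = cexp (w * v) := by
    rw [← Complex.exp_add]; congr 1; push_cast; ring
  rw [← this]; ring

theorem Aw_left (w : ℂ) (s : ℝ) :
    Aw kr (-w) (-s) = cexp (-(w * s)) * ∫ u in Iic s, (kr u : ℂ) * cexp (w * u) := by
  rw [← int_shift_Iic, ← integral_const_mul]
  unfold Aw
  apply integral_congr_ae
  filter_upwards with v
  have : cexp (-(w * s)) * cexp (w * ((s - v : ℝ) : ℂ)) = cexp (-w * v) := by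
    rw [← Complex.exp_add]; congr 1; push_cast; ring
  rw [← this, show -s + v = -(s - v) by ring, kr_even]; ring

theorem Aw_neg {w : ℂ} (hw : xi (1 / 2 + w) = 0) (s : ℝ) : Aw kr w s = -Aw kr (-w) (-s) := by
  have h := kr_lap w
  rw [hw, mul_zero] at h
  have hi : Integrable (fun u : ℝ => (kr u : ℂ) * cexp (w * u)) := by
    have := kr_fast.lap_integrable (-w)
    simpa using this
  have h1 := integral_add_compl (measurableSet_Ioi (a := s)) hi
  rw [h, compl_Ioi] at h1
  rw [Aw_right, Aw_left]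
  have h2 : ∫ u in Ioi s, (kr u : ℂ) * cexp (w * u) = -∫ u in Iic s, (kr u : ℂ) * cexp (w * u) := by
    linear_combination h1
  rw [h2]; ring

theorem Phi_le_inv {u : ℝ} (hu : 1 ≤ u) : |Phi u| ≤ 3 / u := by
  have hu0 : 0 < u := by linarith
  unfold Phi
  rw [abs_mul, abs_of_pos (Real.exp_pos _)]
  have hpi := Real.pi_gt_three
  set y : ℝ := Real.pi * u ^ 2 with hy
  have hy3 : 3 * u ^ 2 ≤ y := by
    rw [hy]; nlinarith [sq_nonneg u]
  have hy0 : 0 < y := by positivity
  have hyu : u ≤ y := by nlinarith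
  have h1 : |2 * Real.pi * u ^ 2 - 1| ≤ 2 * y := by
    rw [abs_of_nonneg (by nlinarith)]; rw [hy]; linarith
  have h2 := Real.pow_div_factorial_le_exp y hy0.le 2
  have h3 : Real.exp (-y) ≤ 2 / y ^ 2 := by
    rw [Real.exp_neg, inv_eq_one_div, div_le_div_iff₀ (Real.exp_pos _) (by positivity)]
    norm_num at h2
    linarith
  calc |2 * Real.pi * u ^ 2 - 1| * Real.exp (-y) ≤ (2 * y) * (2 / y ^ 2) :=
        mul_le_mul h1 h3 (Real.exp_pos _).le (by positivity)
    _ = 4 / y := by field_simp; norm_num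
    _ ≤ 3 / u := by
        rw [div_le_div_iff₀ hy0 hu0]
        nlinarith

theorem ee_bd (t : ℝ) : |ee t| ≤ 3 * Real.exp (-(1 / 2 * |t|)) := by
  unfold ee
  rw [abs_mul, abs_of_pos (Real.exp_pos _)]
  rcases le_total 0 t with h | h
  · have h1 := abs_Phi_le (Real.exp (-t))
    rw [abs_of_nonneg h]
    have e : Real.exp (-t / 2) = Real.exp (-(1 / 2 * t)) := by congr 1; ring
    rw [e]
    have := Real.exp_pos (-(1 / 2 * t))
    nlinarith
  · have h1 := Phi_le_inv (u := Real.exp (-t)) (Real.one_le_exp (by linarith))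
    rw [abs_of_nonpos h]
    calc Real.exp (-t / 2) * |Phi (Real.exp (-t))| ≤ Real.exp (-t / 2) * (3 / Real.exp (-t)) :=
          mul_le_mul_of_nonneg_left h1 (Real.exp_pos _).le
      _ = 3 * Real.exp (-(1 / 2 * -t)) := by
          have e1 : Real.exp (-t / 2) = Real.exp (-(1 / 2 * -t)) * Real.exp (-t) := by
            rw [← Real.exp_add]; congr 1; ring
          rw [e1]
          have e2 := (Real.exp_pos (-t)).ne'
          field_simp

theorem ee_cont : Continuous ee := by
  unfold ee
  have : Continuous Phi := by unfold Phi; fun_prop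
  fun_prop

theorem mm_meas : Measurable mm := by
  unfold mm
  have := (adm_S mu_le).meas
  fun_prop

theorem mm_bd (t : ℝ) : |mm t| ≤ Real.exp (t / 2) := by
  unfold mm
  rw [abs_mul, abs_of_pos (Real.exp_pos _)]
  have hA := adm_S mu_le
  rcases lt_or_ge t 0 with h | h
  · rw [hA.zero (Real.exp t) (Real.exp_lt_one_iff.2 h), abs_zero, zero_mul]
    exact (Real.exp_pos _).le
  · have h1 := hA.bound (Real.exp t) (Real.one_le_exp h)
    calc |S mu (Real.exp t)| * Real.exp (-t / 2) ≤ (1 * Real.exp t) * Real.exp (-t / 2) :=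
          mul_le_mul_of_nonneg_right h1 (Real.exp_pos _).le
      _ = _ := by rw [one_mul, ← Real.exp_add]; congr 1; ring

/-- the extended normalised Mertens function -/
noncomputable def ms (t : ℝ) : ℝ := mm t + rr t

theorem ms_meas : Measurable ms := mm_meas.add rr_meas

/-- residue constant -/
noncomputable def cw (w : ℂ) : ℂ := ∫ s : ℝ, (ee s : ℂ) * cexp (-(w * s))

theorem ee_int {w : ℂ} (h1 : |w.re| < 1 / 2) : Integrable (fun s : ℝ => (ee s : ℂ) * cexp (-(w * s))) := by
  refine Integrable.mono' ((integrable_exp_abs (σ := 1 / 2 - |w.re|) (by linarith)).const_mul 3) ?_ ?_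
  · apply Continuous.aestronglyMeasurable
    have := ee_cont
    fun_prop
  · filter_upwards with s
    rw [norm_mul, norm_cexp_neg_mul, Complex.norm_real, Real.norm_eq_abs]
    calc |ee s| * Real.exp (-(w.re * s)) ≤ (3 * Real.exp (-(1 / 2 * |s|))) * Real.exp (-(w.re * s)) :=
          mul_le_mul_of_nonneg_right (ee_bd s) (Real.exp_pos _).le
      _ = 3 * Real.exp (-(1 / 2 * |s|) + -(w.re * s)) := by rw [mul_assoc, ← Real.exp_add]
      _ ≤ _ := by
          apply mul_le_mul_of_nonneg_left _ (by norm_num)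
          apply Real.exp_le_exp.mpr
          have h2 : -(w.re * s) ≤ |w.re| * |s| := by
            rw [← abs_mul]; exact neg_le_abs _
          linarith

theorem mm_conv_c (y : ℝ) : ∫ s : ℝ, (mm (y + s) : ℂ) * (kr s : ℂ) = ee y := by
  rw [← mm_conv y, ← integral_complex_ofReal]
  apply integral_congr_ae
  filter_upwards with s
  push_cast; rfl

theorem rr_conv_c (y : ℝ) : ∫ s : ℝ, (rr (y + s) : ℂ) * (kr s : ℂ) = -ee y := by
  have h := rr_conv y
  have h2 : ((-ee y : ℝ) : ℂ) = -(ee y : ℂ) := by push_cast; rfl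
  rw [← h2, ← h, ← integral_complex_ofReal]
  apply integral_congr_ae
  filter_upwards with s
  push_cast; rfl

theorem mm_zero {w : ℂ} (h1 : w.re < 1 / 2) (t : ℝ) :
    ∫ s : ℝ, (mm (t + s) : ℂ) * Aw kr w s = ∫ v in Ioi (0:ℝ), cexp (w * v) * (ee (t - v) : ℂ) := by
  have h := shear (f := fun y => (mm y : ℂ)) (A := 1) (θ₁ := 1 / 2) (θ₂ := 1 / 2) (w := w)
    (by have := mm_meas; fun_prop) (by
      intro y
      rw [Complex.norm_real, Real.norm_eq_abs]
      have h2 := mm_bd y
      rw [show y / 2 = 1 / 2 * y by ring] at h2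
      have := Real.exp_pos (1 / 2 * y)
      linarith) h1 h1 t
  rw [h]
  apply integral_congr_ae
  filter_upwards with v
  rw [mm_conv_c]

theorem rr_zero {w : ℂ} (hw : xi (1 / 2 + w) = 0) (h1 : -(1 / 2) < w.re) (t : ℝ) :
    ∫ s : ℝ, (rr (t + s) : ℂ) * Aw kr w s = ∫ v in Ioi (0:ℝ), cexp (-(w * v)) * (ee (t + v) : ℂ) := by
  have h := shear (f := fun y => (rr (-y) : ℂ)) (A := 2 + 2 * C54) (θ₁ := 1 / 2) (θ₂ := 3 / 4) (w := -w)
    (by have := rr_meas; fun_prop) (by
      intro y
      rw [Complex.norm_real, Real.norm_eq_abs]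
      have h2 := rr_bd (-y)
      rw [show -(-y) / 2 = 1 / 2 * y by ring, show -(3 * -y / 4) = 3 / 4 * y by ring] at h2
      exact h2) (by simp; linarith) (by simp; linarith) (-t)
  have e1 : ∫ s : ℝ, (rr (t + s) : ℂ) * Aw kr w s = -∫ s : ℝ, (rr (-(-t + s)) : ℂ) * Aw kr (-w) s := by
    rw [← integral_neg, ← integral_neg_eq_self]
    apply integral_congr_ae
    filter_upwards with s
    rw [Aw_neg hw (-s), neg_neg, show -(-t + s) = t + -s by ring]
    ring
  rw [e1, h, ← integral_neg]
  apply integral_congr_ae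
  filter_upwards with v
  have e2 : ∫ s : ℝ, (rr (-(-t - v + s)) : ℂ) * (kr s : ℂ) = -ee (t + v) := by
    rw [← rr_conv_c (t + v), ← integral_neg_eq_self]
    apply integral_congr_ae
    filter_upwards with s
    rw [kr_even, show -(-t - v + -s) = t + v + s by ring]
  rw [e2]
  have : cexp (-w * v) = cexp (-(w * v)) := by congr 1; ring
  rw [this]; ring

/-- the zero kernels see exactly one frequency in the extended function -/
theorem ms_zero {w : ℂ} (hw : xi (1 / 2 + w) = 0) (h1 : |w.re| < 1 / 2) (t : ℝ)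
    (hi1 : Integrable (fun s : ℝ => (mm (t + s) : ℂ) * Aw kr w s))
    (hi2 : Integrable (fun s : ℝ => (rr (t + s) : ℂ) * Aw kr w s)) :
    ∫ s : ℝ, (ms (t + s) : ℂ) * Aw kr w s = cexp (w * t) * cw w := by
  have h2 := abs_lt.mp h1
  have e0 : (∫ s : ℝ, (ms (t + s) : ℂ) * Aw kr w s) =
      (∫ s : ℝ, (mm (t + s) : ℂ) * Aw kr w s) + ∫ s : ℝ, (rr (t + s) : ℂ) * Aw kr w s := by
    rw [← integral_add hi1 hi2]
    apply integral_congr_ae
    filter_upwards with s
    unfold ms
    push_cast; ring
  rw [e0, mm_zero h2.2, rr_zero hw h2.1]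
  have hi := ee_int h1
  have h3 := integral_add_compl (measurableSet_Ioi (a := t)) hi
  rw [compl_Ioi] at h3
  unfold cw
  rw [← h3, mul_add, add_comm]
  congr 1
  · rw [← int_shift_Ioi (fun u : ℝ => (ee u : ℂ) * cexp (-(w * u))) t, ← integral_const_mul]
    apply integral_congr_ae
    filter_upwards with v
    have : cexp (w * t) * cexp (-(w * ((t + v : ℝ) : ℂ))) = cexp (-(w * v)) := by
      rw [← Complex.exp_add]; congr 1; push_cast; ring
    rw [← this]; ring
  · rw [← int_shift_Iic (fun u : ℝ => (ee u : ℂ) * cexp (-(w * u))) t, ← integral_const_mul]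
    apply integral_congr_ae
    filter_upwards with v
    have : cexp (w * t) * cexp (-(w * ((t - v : ℝ) : ℂ))) = cexp (w * v) := by
      rw [← Complex.exp_add]; congr 1; push_cast; ring
    rw [← this]; ring

end Pool.Agent.Helper71.MR
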