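import Pool.Agent.Helper71.MR.Conv

open Complex Filter Topology MeasureTheory Set
open Pool.Agent.Helper57.Zeta
open Pool.Agent.Helper18.ES (kap K K_inv K_pos GA S mu Phi abs_Phi_le adm_S mu_le)

namespace Pool.Agent.Helper71.MR

theorem kr_int : Integrable kr := by
  have h := ekr_integrable 0
  simpa using h

noncomputable def κ0 : ℝ := ∫ u : ℝ, kr u

theorem κ0_nonneg : 0 ≤ κ0 := integral_nonneg (fun u => (kr_pos u).le)

theorem int_exp_abs_one : ∃ I : ℝ, 0 ≤ I ∧ ∫ v : ℝ, Real.exp (-(1 * |v|)) = I :=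
  ⟨_, integral_nonneg (fun _ => (Real.exp_pos _).le), rfl⟩

/-- a function bounded above on a long interval has a bounded positive part on average -/
theorem plus_bd {f : ℝ → ℝ} (hf : Measurable f) {B : ℝ} (hB : ∀ t, |f t| ≤ B * Real.exp (3 / 4 * |t|)) :
    ∃ C5 : ℝ, 0 ≤ C5 ∧ ∀ K1 s b : ℝ, 0 ≤ K1 → 3 / 4 * |s| ≤ Real.exp (2 * b) →
      (∀ t ∈ Icc (s - b) (s + b), f t ≤ K1) →
      Integrable (fun v : ℝ => max (f (s + v)) 0 * kr v) ∧
      ∫ v : ℝ, max (f (s + v)) 0 * kr v ≤ K1 * κ0 + C5 := by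
  obtain ⟨C, hC0, hC⟩ := kr_bd
  obtain ⟨I, hI0, hI⟩ := int_exp_abs_one
  have hB0 : 0 ≤ B := by
    have := (abs_nonneg _).trans (hB 0)
    simpa using this
  refine ⟨B * C * I, by positivity, ?_⟩
  intro K1 s b hK1 hb hle
  have hpt : ∀ v : ℝ, max (f (s + v)) 0 * kr v ≤ K1 * kr v + B * C * Real.exp (-(1 * |v|)) := by
    intro v
    rcases le_or_gt |v| b with hv | hv
    · have h1 : f (s + v) ≤ K1 := by
        apply hle
        have := abs_le.mp hv
        constructor <;> linarith [this.1, this.2]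
      have h2 : max (f (s + v)) 0 ≤ K1 := max_le h1 hK1
      have h3 := mul_le_mul_of_nonneg_right h2 (kr_pos v).le
      have : 0 ≤ B * C * Real.exp (-(1 * |v|)) := by positivity
      linarith
    · have h1 : max (f (s + v)) 0 ≤ B * Real.exp (3 / 4 * |s + v|) :=
        max_le ((le_abs_self _).trans (hB _)) (by positivity)
      have h2 : max (f (s + v)) 0 * kr v ≤ (B * Real.exp (3 / 4 * |s + v|)) *
          (C * Real.exp (-(3 * Real.exp (2 * |v|)))) :=
        mul_le_mul h1 (hC v) (kr_pos v).le (by positivity)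
      have h3 : (B * Real.exp (3 / 4 * |s + v|)) * (C * Real.exp (-(3 * Real.exp (2 * |v|)))) ≤
          B * C * Real.exp (-(1 * |v|)) := by
        rw [show (B * Real.exp (3 / 4 * |s + v|)) * (C * Real.exp (-(3 * Real.exp (2 * |v|)))) =
          B * C * Real.exp (3 / 4 * |s + v| + -(3 * Real.exp (2 * |v|))) by rw [Real.exp_add]; ring]
        apply mul_le_mul_of_nonneg_left _ (by positivity)
        apply Real.exp_le_exp.mpr
        have e1 := abs_add_le s v
        have e2 : Real.exp (2 * b) ≤ Real.exp (2 * |v|) := Real.exp_le_exp.mpr (by linarith)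
        have e3 := exp_two_ge v
        have e4 := abs_nonneg v
        nlinarith [sq_nonneg v]
      have : 0 ≤ K1 * kr v := mul_nonneg hK1 (kr_pos v).le
      linarith
  have hi2 : Integrable (fun v : ℝ => K1 * kr v + B * C * Real.exp (-(1 * |v|))) :=
    (kr_int.const_mul K1).add ((integrable_exp_abs one_pos).const_mul (B * C))
  have hi1 : Integrable (fun v : ℝ => max (f (s + v)) 0 * kr v) := by
    refine Integrable.mono' hi2 ?_ ?_
    · apply Measurable.aestronglyMeasurable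
      have := kr_cont.measurable
      fun_prop
    · filter_upwards with v
      rw [Real.norm_of_nonneg (mul_nonneg (le_max_right _ _) (kr_pos v).le)]
      exact hpt v
  refine ⟨hi1, ?_⟩
  calc ∫ v : ℝ, max (f (s + v)) 0 * kr v ≤ ∫ v : ℝ, (K1 * kr v + B * C * Real.exp (-(1 * |v|))) :=
        integral_mono hi1 hi2 hpt
    _ = K1 * κ0 + B * C * I := by
        rw [integral_add (kr_int.const_mul K1) ((integrable_exp_abs one_pos).const_mul (B * C)),
          integral_const_mul, integral_const_mul, hI]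
        rfl

theorem ms_kr_real (y : ℝ) : ∫ s : ℝ, ms (y + s) * kr s = 0 := by
  have h := ms_kr y
  have h2 : ∫ s : ℝ, ((ms (y + s) * kr s : ℝ) : ℂ) = 0 := by
    rw [← h]
    apply integral_congr_ae
    filter_upwards with s
    push_cast; rfl
  rw [integral_complex_ofReal] at h2
  exact_mod_cast h2

theorem ms_abs_kr_int (y : ℝ) : Integrable (fun s : ℝ => ms (y + s) * kr s) := by
  obtain ⟨C, hC⟩ := dk_kr
  have h := (ms_kernel_int hC ms_meas ms_bd y).re
  refine h.congr ?_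
  filter_upwards with s
  simp

/-- W1 -/
theorem ms_L1 {σ : ℝ} (hσ : |σ| = 1) : ∃ C5 : ℝ, 0 ≤ C5 ∧ ∀ K1 s b : ℝ, 0 ≤ K1 →
      3 / 4 * |s| ≤ Real.exp (2 * b) → (∀ t ∈ Icc (s - b) (s + b), σ * ms t ≤ K1) →
      ∫ v : ℝ, |ms (s + v)| * kr v ≤ 2 * K1 * κ0 + C5 := by
  obtain ⟨C5, hC5, h⟩ := plus_bd (f := fun t => σ * ms t) (ms_meas.const_mul σ) (B := A0) (by
    intro t
    rw [abs_mul, hσ, one_mul]
    exact ms_bd t)
  refine ⟨2 * C5, by positivity, ?_⟩
  intro K1 s b hK1 hb hle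
  obtain ⟨hi, hb⟩ := h K1 s b hK1 hb hle
  have e1 : ∀ v : ℝ, |ms (s + v)| * kr v = 2 * (max (σ * ms (s + v)) 0 * kr v) - σ * (ms (s + v) * kr v) := by
    intro v
    have h2 : |ms (s + v)| = |σ * ms (s + v)| := by rw [abs_mul, hσ, one_mul]
    have h3 : |σ * ms (s + v)| = 2 * max (σ * ms (s + v)) 0 - σ * ms (s + v) := by
      rcases le_total 0 (σ * ms (s + v)) with h4 | h4
      · rw [abs_of_nonneg h4, max_eq_left h4]; ring
      · rw [abs_of_nonpos h4, max_eq_right h4]; ring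
    rw [h2, h3]; ring
  simp_rw [e1]
  rw [integral_sub (hi.const_mul 2) ((ms_abs_kr_int s).const_mul σ), integral_const_mul, integral_const_mul,
    ms_kr_real]
  linarith

/-- a slowly decaying weight -/
noncomputable def wt (v : ℝ) : ℝ := Real.exp (-(Real.exp (2 * |v|) / 10))

theorem wt_pos (v : ℝ) : 0 < wt v := Real.exp_pos _

theorem wt_cont : Continuous wt := by unfold wt; fun_prop

theorem exp_four : Real.pi * 10 ≤ Real.exp 4 := by
  have h1 : Real.exp 4 = Real.exp 1 ^ 4 := by rw [← Real.exp_nat_mul]; norm_num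
  have h2 := Real.exp_one_gt_d9
  have h3 : (2.7:ℝ) ^ 4 ≤ Real.exp 1 ^ 4 := pow_le_pow_left₀ (by norm_num) (by linarith) 4
  have h4 := Real.pi_lt_d2
  rw [h1]
  norm_num at h3 h4 ⊢
  linarith

theorem wt_le_aux {v : ℝ} (hv : 0 ≤ v) : wt v ≤ Real.exp (Real.pi * Real.exp 4) * kr (v - 2) := by
  have hpi := Real.pi_pos
  have h1 := kr_ge (v - 2)
  have h2 : Real.exp (Real.pi * Real.exp 4) * Real.exp (-(Real.pi * Real.exp (2 * |v - 2|))) ≤
      Real.exp (Real.pi * Real.exp 4) * kr (v - 2) := mul_le_mul_of_nonneg_left h1 (Real.exp_pos _).le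
  refine le_trans ?_ h2
  unfold wt
  rw [← Real.exp_add]
  apply Real.exp_le_exp.mpr
  rw [abs_of_nonneg hv]
  rcases le_total v 4 with h | h
  · have h3 : |v - 2| ≤ 2 := by rw [abs_le]; constructor <;> linarith
    have h4 : Real.exp (2 * |v - 2|) ≤ Real.exp 4 := Real.exp_le_exp.mpr (by linarith)
    have h5 := mul_le_mul_of_nonneg_left h4 hpi.le
    have h6 := Real.exp_pos (2 * v)
    linarith
  · rw [abs_of_nonneg (by linarith : 0 ≤ v - 2)]
    have h3 : Real.exp (2 * v) = Real.exp (2 * (v - 2)) * Real.exp 4 := by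
      rw [← Real.exp_add]; congr 1; ring
    have h4 := exp_four
    have h5 := Real.exp_pos (2 * (v - 2))
    have h6 : Real.exp (2 * (v - 2)) * (Real.pi * 10) ≤ Real.exp (2 * (v - 2)) * Real.exp 4 :=
      mul_le_mul_of_nonneg_left h4 h5.le
    have h7 : 0 < Real.pi * Real.exp 4 := by positivity
    rw [h3]
    linarith

theorem wt_le (v : ℝ) : wt v ≤ Real.exp (Real.pi * Real.exp 4) * (kr (v - 2) + kr (v + 2)) := by
  have hE := Real.exp_pos (Real.pi * Real.exp 4)
  rcases le_total 0 v with h | h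
  · have h1 := wt_le_aux h
    have h2 := mul_pos hE (kr_pos (v + 2))
    linarith
  · have h1 := wt_le_aux (v := -v) (by linarith)
    have h2 := mul_pos hE (kr_pos (v - 2))
    have h3 : wt (-v) = wt v := by unfold wt; rw [abs_neg]
    have h4 : kr (-v - 2) = kr (v + 2) := by
      rw [show -v - 2 = -(v + 2) by ring, kr_even]
    rw [h3, h4] at h1
    linarith

theorem ms_wt_int (τ : ℝ) : Integrable (fun v : ℝ => |ms (τ + v)| * wt v) := by
  have hA := A0_pos
  have hI : Integrable (fun v : ℝ => (A0 * Real.exp (3 / 4 * |τ|) * Real.exp 5) * Real.exp (-(1 * |v|))) :=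
    (integrable_exp_abs one_pos).const_mul _
  refine Integrable.mono' hI ?_ ?_
  · apply Measurable.aestronglyMeasurable
    have := ms_meas
    have := wt_cont.measurable
    fun_prop
  · filter_upwards with v
    rw [Real.norm_of_nonneg (mul_nonneg (abs_nonneg _) (wt_pos _).le)]
    calc |ms (τ + v)| * wt v ≤ (A0 * Real.exp (3 / 4 * |τ + v|)) * wt v :=
          mul_le_mul_of_nonneg_right (ms_bd _) (wt_pos _).le
      _ = A0 * Real.exp (3 / 4 * |τ + v| + -(Real.exp (2 * |v|) / 10)) := by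
          unfold wt; rw [Real.exp_add]; ring
      _ ≤ A0 * Real.exp (3 / 4 * |τ| + 5 + -(1 * |v|)) := by
          apply mul_le_mul_of_nonneg_left _ hA.le
          apply Real.exp_le_exp.mpr
          have h1 := abs_add_le τ v
          have h2 := exp_two_ge v
          have h3 := abs_nonneg v
          -- need 7/4 |v| ≤ 5 + exp(2|v|)/10, cubic bound
          have h4 : (2 * |v|) ^ 3 / 6 ≤ Real.exp (2 * |v|) := by
            have := Real.pow_div_factorial_le_exp (2 * |v|) (by positivity) 3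
            norm_num [Nat.factorial] at this ⊢
            linarith
          have h5 : 7 / 4 * |v| ≤ 5 + Real.exp (2 * |v|) / 10 := by
            have h6 : 7 / 4 * |v| ≤ 5 + ((2 * |v|) ^ 3 / 6) / 10 := by
              have h7 : 0 ≤ (|v| - 21 / 10) ^ 2 * (|v| + 42 / 10) := by positivity
              nlinarith
            linarith
          linarith
      _ = _ := by rw [Real.exp_add, Real.exp_add]; ring

/-- W2 -/
theorem ms_wt {σ : ℝ} (hσ : |σ| = 1) : ∃ C6 : ℝ, 0 ≤ C6 ∧ ∀ K1 τ b : ℝ, 0 ≤ K1 →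
      3 / 4 * (|τ| + 2) ≤ Real.exp (2 * b) → (∀ t ∈ Icc (τ - 2 - b) (τ + 2 + b), σ * ms t ≤ K1) →
      ∫ v : ℝ, |ms (τ + v)| * wt v ≤ C6 * (K1 + 1) := by
  obtain ⟨C5, hC5, h⟩ := ms_L1 hσ
  have hκ := κ0_nonneg
  have hE := Real.exp_pos (Real.pi * Real.exp 4)
  refine ⟨Real.exp (Real.pi * Real.exp 4) * (4 * κ0 + 2 * C5), by positivity, ?_⟩
  intro K1 τ b hK1 hb hle
  have hp2 : |τ + 2| ≤ |τ| + 2 := by
    have := abs_add_le τ 2
    rwa [abs_of_pos (by norm_num : (0:ℝ) < 2)] at this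
  have hm2 : |τ - 2| ≤ |τ| + 2 := by
    have := abs_sub τ 2
    rwa [abs_of_pos (by norm_num : (0:ℝ) < 2)] at this
  have h1 := h K1 (τ + 2) b hK1 (by linarith) (fun t ht => hle t ⟨by linarith [ht.1], by linarith [ht.2]⟩)
  have h2 := h K1 (τ - 2) b hK1 (by linarith) (fun t ht => hle t ⟨by linarith [ht.1], by linarith [ht.2]⟩)
  have i1 : Integrable (fun v : ℝ => |ms (τ + 2 + v)| * kr v) := by
    refine (ms_abs_kr_int (τ + 2)).norm.congr ?_
    filter_upwards with v
    rw [norm_mul, Real.norm_eq_abs, Real.norm_of_nonneg (kr_pos v).le]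
  have i2 : Integrable (fun v : ℝ => |ms (τ - 2 + v)| * kr v) := by
    refine (ms_abs_kr_int (τ - 2)).norm.congr ?_
    filter_upwards with v
    rw [norm_mul, Real.norm_eq_abs, Real.norm_of_nonneg (kr_pos v).le]
  have j1 : Integrable (fun v : ℝ => |ms (τ + v)| * kr (v - 2)) := by
    have := i1.comp_sub_right 2
    refine this.congr ?_
    filter_upwards with v
    rw [show τ + 2 + (v - 2) = τ + v by ring]
  have j2 : Integrable (fun v : ℝ => |ms (τ + v)| * kr (v + 2)) := by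
    have := i2.comp_add_right 2
    refine this.congr ?_
    filter_upwards with v
    rw [show τ - 2 + (v + 2) = τ + v by ring]
  have k1 : ∫ v : ℝ, |ms (τ + v)| * kr (v - 2) = ∫ v : ℝ, |ms (τ + 2 + v)| * kr v := by
    rw [← integral_sub_right_eq_self (fun v : ℝ => |ms (τ + 2 + v)| * kr v) 2]
    apply integral_congr_ae
    filter_upwards with v
    rw [show τ + 2 + (v - 2) = τ + v by ring]
  have k2 : ∫ v : ℝ, |ms (τ + v)| * kr (v + 2) = ∫ v : ℝ, |ms (τ - 2 + v)| * kr v := by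
    rw [← integral_add_right_eq_self (fun v : ℝ => |ms (τ - 2 + v)| * kr v) 2]
    apply integral_congr_ae
    filter_upwards with v
    rw [show τ - 2 + (v + 2) = τ + v by ring]
  calc ∫ v : ℝ, |ms (τ + v)| * wt v
      ≤ ∫ v : ℝ, Real.exp (Real.pi * Real.exp 4) * (|ms (τ + v)| * kr (v - 2) + |ms (τ + v)| * kr (v + 2)) := by
        apply integral_mono (ms_wt_int τ) ((j1.add j2).const_mul _)
        intro v
        have h3 := mul_le_mul_of_nonneg_left (wt_le v) (abs_nonneg (ms (τ + v)))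
        show |ms (τ + v)| * wt v ≤ Real.exp (Real.pi * Real.exp 4) *
          (|ms (τ + v)| * kr (v - 2) + |ms (τ + v)| * kr (v + 2))
        linarith
    _ = Real.exp (Real.pi * Real.exp 4) * ((∫ v : ℝ, |ms (τ + 2 + v)| * kr v) + ∫ v : ℝ, |ms (τ - 2 + v)| * kr v) := by
        rw [integral_const_mul, integral_add j1 j2, k1, k2]
    _ ≤ Real.exp (Real.pi * Real.exp 4) * ((4 * κ0 + 2 * C5) * (K1 + 1)) := by
        apply mul_le_mul_of_nonneg_left _ hE.le
        nlinarith [mul_nonneg hC5 hK1]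
    _ = _ := by ring

/-- negation of recurrence at infinity -/
def FailR (σ K : ℝ) : Prop := ∀ C : ℝ, ∃ T : ℝ, C ≤ T ∧ ∀ t ∈ Icc T (T + Real.log T + C), σ * mm t ≤ K

/-- negation of recurrence at zero -/
def FailL (σ K : ℝ) : Prop := ∀ C : ℝ, ∃ T : ℝ, C ≤ T ∧ ∀ t ∈ Icc T (T + Real.log T + C), σ * ms (-t) ≤ K

/-- arbitrarily long and remote good intervals -/
def Big (σ K C4 : ℝ) : Prop := ∀ L T0 η : ℝ, 0 < η → ∃ p : ℝ, ∀ τ ∈ Icc p (p + L),
  T0 ≤ |τ| ∧ σ * ms τ ≤ K + η ∧ ∫ v : ℝ, |ms (τ + v)| * wt v ≤ C4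

theorem rr_small {t : ℝ} (ht : 0 ≤ t) : |rr t| ≤ 2 * (2 + 2 * C54) := by
  refine (rr_bd t).trans ?_
  have hC := C54_nonneg
  have h1 : Real.exp (-t / 2) ≤ 1 := Real.exp_le_one_iff.mpr (by linarith)
  have h2 : Real.exp (-(3 * t / 4)) ≤ 1 := Real.exp_le_one_iff.mpr (by linarith)
  have := mul_le_mul_of_nonneg_left (add_le_add h1 h2) (by positivity : 0 ≤ 2 + 2 * C54)
  linarith

theorem rr_tendsto : Tendsto rr atTop (𝓝 0) := by
  rw [tendsto_zero_iff_abs_tendsto_zero]
  have h1 : Tendsto (fun t : ℝ => (2 + 2 * C54) * (Real.exp (-t / 2) + Real.exp (-(3 * t / 4)))) atTop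
      (𝓝 ((2 + 2 * C54) * (0 + 0))) := by
    apply Tendsto.const_mul
    apply Tendsto.add
    · have : Tendsto (fun t : ℝ => Real.exp (-(t / 2))) atTop (𝓝 0) :=
        Real.tendsto_exp_neg_atTop_nhds_zero.comp (Tendsto.atTop_div_const (by norm_num) tendsto_id)
      simpa [neg_div] using this
    · exact Real.tendsto_exp_neg_atTop_nhds_zero.comp
        (Tendsto.atTop_div_const (by norm_num) (Tendsto.const_mul_atTop (by norm_num) tendsto_id))
  rw [add_zero, mul_zero] at h1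
  exact squeeze_zero (fun _ => abs_nonneg _) (fun t => rr_bd t) h1

theorem rr_event {η : ℝ} (hη : 0 < η) : ∃ T1 : ℝ, ∀ t, T1 ≤ t → |rr t| ≤ η := by
  have h := rr_tendsto
  rw [Metric.tendsto_atTop] at h
  obtain ⟨N, hN⟩ := h η hη
  refine ⟨N, fun t ht => ?_⟩
  have := hN t ht
  rw [Real.dist_eq, sub_zero] at this
  exact this.le

/-- common geometry of the two window lemmas: g is the function on the positive axis -/
theorem window_geom {L' T0 C T τ : ℝ} (hL : 0 ≤ L') (hC1 : L' + 5 ≤ C) (hC2 : T0 ≤ C) (hT : C ≤ T)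
    (hτ : τ ∈ Icc (T + Real.log T / 2 + 5 / 2) (T + Real.log T / 2 + 5 / 2 + L')) :
    T0 ≤ τ ∧ 0 ≤ τ ∧ 3 / 4 * (τ + 2) ≤ Real.exp (2 * (Real.log T / 2 + 1 / 2)) ∧
    (0 ≤ Real.log T / 2 + 1 / 2) ∧
    ∀ t ∈ Icc (τ - 2 - (Real.log T / 2 + 1 / 2)) (τ + 2 + (Real.log T / 2 + 1 / 2)),
      t ∈ Icc T (T + Real.log T + C) := by
  have hT5 : 5 ≤ T := by linarith
  have hlog0 : 0 ≤ Real.log T := Real.log_nonneg (by linarith)
  have hlogT : Real.log T ≤ T := by
    have := Real.log_le_sub_one_of_pos (by linarith : 0 < T)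
    linarith
  have hexpb : Real.exp (2 * (Real.log T / 2 + 1 / 2)) = Real.exp 1 * T := by
    rw [show 2 * (Real.log T / 2 + 1 / 2) = 1 + Real.log T by ring, Real.exp_add,
      Real.exp_log (by linarith)]
  have he1 := Real.exp_one_gt_d9
  have hτ1 := hτ.1
  have hτ2 := hτ.2
  refine ⟨by linarith, by linarith, ?_, by linarith, ?_⟩
  · rw [hexpb]
    nlinarith
  · intro t ht
    constructor
    · linarith [ht.1]
    · linarith [ht.2]

theorem big_of_right {σ K : ℝ} (hσ : |σ| = 1) (hF : FailR σ K) : ∃ C4 : ℝ, 0 ≤ C4 ∧ Big σ K C4 := by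
  obtain ⟨C6, hC6, h6⟩ := ms_wt hσ
  have hκ := κ0_nonneg
  have hC54 := C54_nonneg
  set R0 : ℝ := 2 * (2 + 2 * C54) with hR0
  have hR0n : 0 ≤ R0 := by positivity
  set K1 : ℝ := max K 0 + R0 with hK1
  have hK1n : 0 ≤ K1 := by have := le_max_right K 0; positivity
  refine ⟨C6 * (K1 + 1), by positivity, ?_⟩
  intro L' T0 η hη
  wlog hL : 0 ≤ L' generalizing L'
  · obtain ⟨p, hp2⟩ := this 0 le_rfl
    refine ⟨p, fun τ hτ => hp2 τ ⟨hτ.1, by linarith [hτ.2]⟩⟩
  obtain ⟨T1, hT1⟩ := rr_event hη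
  set C : ℝ := max (L' + 5) (max T0 T1) with hCdef
  obtain ⟨T, hT, hTle⟩ := hF C
  have hC1 : L' + 5 ≤ C := le_max_left _ _
  have hC2 : max T0 T1 ≤ C := le_max_right _ _
  refine ⟨T + Real.log T / 2 + 5 / 2, ?_⟩
  intro τ hτ
  obtain ⟨g1, g2, g3, g4, g5⟩ := window_geom hL hC1 hC2 hT hτ
  rw [abs_of_nonneg g2]
  have hσr : ∀ t, σ * rr t ≤ |rr t| := by
    intro t
    refine (le_abs_self _).trans ?_
    rw [abs_mul, hσ, one_mul]
  refine ⟨(le_max_left _ _).trans g1, ?_, ?_⟩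
  · have e1 := hTle τ (g5 τ ⟨by linarith, by linarith⟩)
    have e2 := hT1 τ ((le_max_right _ _).trans g1)
    have e3 := hσr τ
    unfold ms
    linarith
  · apply h6 K1 τ (Real.log T / 2 + 1 / 2) hK1n
    · rw [abs_of_nonneg g2]; exact g3
    · intro t ht
      have e1 := hTle t (g5 t ht)
      have e2 : 0 ≤ t := by
        have := (g5 t ht).1
        linarith
      have e3 := hσr t
      have e4 := rr_small e2
      have e5 := le_max_left K 0
      unfold ms
      rw [hK1]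
      linarith

theorem big_of_left {σ K : ℝ} (hσ : |σ| = 1) (hF : FailL σ K) : ∃ C4 : ℝ, 0 ≤ C4 ∧ Big σ K C4 := by
  obtain ⟨C6, hC6, h6⟩ := ms_wt hσ
  set K1 : ℝ := max K 0 with hK1
  have hK1n : 0 ≤ K1 := le_max_right K 0
  refine ⟨C6 * (K1 + 1), by positivity, ?_⟩
  intro L' T0 η hη
  wlog hL : 0 ≤ L' generalizing L'
  · obtain ⟨p, hp2⟩ := this 0 le_rfl
    refine ⟨p, fun τ hτ => hp2 τ ⟨hτ.1, by linarith [hτ.2]⟩⟩
  set C : ℝ := max (L' + 5) T0 with hCdef
  obtain ⟨T, hT, hTle⟩ := hF C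
  have hC1 : L' + 5 ≤ C := le_max_left _ _
  have hC2 : T0 ≤ C := le_max_right _ _
  refine ⟨-(T + Real.log T / 2 + 5 / 2 + L'), ?_⟩
  intro τ hτ
  obtain ⟨g1, g2, g3, g4, g5⟩ := window_geom (τ := -τ) hL hC1 hC2 hT ⟨by linarith [hτ.2], by linarith [hτ.1]⟩
  have g2' : τ ≤ 0 := by linarith
  rw [abs_of_nonpos g2']
  refine ⟨g1, ?_, ?_⟩
  · have e1 := hTle (-τ) (g5 (-τ) ⟨by linarith, by linarith⟩)
    rw [neg_neg] at e1
    linarith
  · apply h6 K1 τ (Real.log T / 2 + 1 / 2) hK1n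
    · rw [abs_of_nonpos g2']; exact g3
    · intro t ht
      have e1 := hTle (-t) (g5 (-t) ⟨by linarith [ht.2], by linarith [ht.1]⟩)
      rw [neg_neg] at e1
      have e5 := le_max_left K 0
      linarith

end Pool.Agent.Helper71.MR
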